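import Pool.Agent.H.MP_5bc4af_co.L3.LFe

/-!
# Facts on the arcs of a permutation

`arcs σ R = ∑ v ∈ R, ev v (σ v)`. For `P3 σ` and `R` inside the support the arcs are different edges
(`s(v, σ v) = s(w, σ w)` gives `v = w` or `v = σ w, σ v = w`, excluded by `P3`). So
`arcs σ R s(x, y) ≠ 0 ↔ (x ∈ R ∧ y = σ x) ∨ (y ∈ R ∧ x = σ y)`, and the degree of `x` is
`[x ∈ R] + [σ⁻¹ x ∈ R]` (the neighbours `σ x` and `σ⁻¹ x` are different by `P3`).
`chi σ + arcs σ R` are the arcs which are not chosen. `lf_rest`: every vertex `x` of the support is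
joined by unchosen arcs `x, σ x, σ² x, …` to the first element of `R` in this sequence, which has
degree at most one; `LF.exists`. `con_rest`: if `v` is the only element of `R` on its cycle, the
unchosen arcs lead from `σ v` around the cycle to `v` (induction: `Con (σ v) (σ^(k+1) v)` as long as
`σ^j v ≠ v` for `1 ≤ j ≤ k`; or use the order of the cycle).
-/

namespace Pool.Agent.H.MP_5bc4af.L3

open Finset Pool.Agent.H.MP_5bc4af.H5

variable {V : Type*} [Fintype V] [DecidableEq V]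

omit [Fintype V] [DecidableEq V] in
private theorem Arc_ia (σ : Equiv.Perm V) (x : V) : σ⁻¹ (σ x) = x := σ.symm_apply_apply x

omit [Fintype V] [DecidableEq V] in
private theorem Arc_ai (σ : Equiv.Perm V) (x : V) : σ (σ⁻¹ x) = x := σ.apply_symm_apply x

theorem arcs_diag (σ : Equiv.Perm V) (R : Finset V) (v : V) : arcs σ R s(v, v) = 0 :=
  sum_ev_diag _ _ _ _

omit [Fintype V] in
private theorem Arc_one {σ : Equiv.Perm V} (h : P3 σ) {R : Finset V} {x : V} (hx : x ∈ R)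
    (hm : σ x ≠ x) : arcs σ R s(x, σ x) ≠ 0 := by
  have h1 : arcs σ R s(x, σ x) = ev x (σ x) s(x, σ x) := by
    unfold arcs
    rw [Finset.sum_apply]
    refine Finset.sum_eq_single x (fun v _ hvx => ?_) (fun h2 => absurd hx h2)
    by_contra h2
    obtain ⟨-, ⟨h3, -⟩ | ⟨h3, h4⟩⟩ := ev_ne h2
    · exact hvx h3
    · rw [h3] at h4
      exact h x hm h4
  rw [h1, ev_apply, if_pos ⟨fun h2 => hm h2.symm, rfl⟩]
  exact one_ne_zero

theorem arcs_ne {σ : Equiv.Perm V} (h : P3 σ) {R : Finset V} (hR : ∀ v ∈ R, σ v ≠ v) (x y : V) :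
    arcs σ R s(x, y) ≠ 0 ↔ (x ∈ R ∧ y = σ x) ∨ (y ∈ R ∧ x = σ y) := by
  constructor
  · intro h1
    unfold arcs at h1
    rw [Finset.sum_apply] at h1
    obtain ⟨v, hv, hne⟩ := Finset.exists_ne_zero_of_sum_ne_zero h1
    obtain ⟨-, ⟨h3, h4⟩ | ⟨h3, h4⟩⟩ := ev_ne hne
    · exact Or.inl ⟨h3 ▸ hv, by rw [← h3, h4]⟩
    · exact Or.inr ⟨h3 ▸ hv, by rw [← h3, h4]⟩
  · rintro (⟨h1, rfl⟩ | ⟨h1, rfl⟩)
    · exact Arc_one h h1 (hR x h1)
    · rw [Sym2.eq_swap]
      exact Arc_one h h1 (hR y h1)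

theorem dg_arcs {σ : Equiv.Perm V} (h : P3 σ) {R : Finset V} (hR : ∀ v ∈ R, σ v ≠ v) (x : V) :
    dg (arcs σ R) x = (if x ∈ R then 1 else 0) + (if σ⁻¹ x ∈ R then 1 else 0) := by
  have h1 : (univ.filter fun w => arcs σ R s(x, w) ≠ 0) =
      (if x ∈ R then {σ x} else ∅) ∪ (if σ⁻¹ x ∈ R then {σ⁻¹ x} else ∅) := by
    ext w
    rw [Finset.mem_filter, arcs_ne h hR, Finset.mem_union]
    constructor
    · rintro ⟨-, ⟨h2, h3⟩ | ⟨h2, h3⟩⟩
      · left
        rw [if_pos h2, h3]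
        exact Finset.mem_singleton_self _
      · right
        have h4 : σ⁻¹ x = w := by
          rw [h3, Arc_ia]
        rw [h4, if_pos h2]
        exact Finset.mem_singleton_self _
    · rintro (h2 | h2)
      · by_cases h3 : x ∈ R
        · rw [if_pos h3, Finset.mem_singleton] at h2
          exact ⟨Finset.mem_univ _, Or.inl ⟨h3, h2⟩⟩
        · rw [if_neg h3] at h2
          exact absurd h2 (Finset.notMem_empty _)
      · by_cases h3 : σ⁻¹ x ∈ R
        · rw [if_pos h3, Finset.mem_singleton] at h2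
          refine ⟨Finset.mem_univ _, Or.inr ⟨h2 ▸ h3, ?_⟩⟩
          rw [h2, Arc_ai]
        · rw [if_neg h3] at h2
          exact absurd h2 (Finset.notMem_empty _)
  unfold dg
  rw [h1, Finset.card_union_of_disjoint]
  · congr 1
    · split_ifs
      · exact Finset.card_singleton _
      · exact Finset.card_empty
    · split_ifs
      · exact Finset.card_singleton _
      · exact Finset.card_empty
  · by_cases h3 : x ∈ R
    · by_cases h4 : σ⁻¹ x ∈ R
      · rw [if_pos h3, if_pos h4, Finset.disjoint_singleton]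
        intro h5
        apply h x (hR x h3)
        rw [h5, Arc_ai]
      · rw [if_neg h4]
        exact Finset.disjoint_empty_right _
    · rw [if_neg h3]
      exact Finset.disjoint_empty_left _

private theorem Arc_dj {σ τ : Equiv.Perm V} (hs : P3 σ) (ht : P3 τ) (hd : Dj σ τ)
    {R S : Finset V} (hR : ∀ v ∈ R, σ v ≠ v) (hS : ∀ v ∈ S, τ v ≠ v) (x y : V)
    (h1 : arcs σ R s(x, y) ≠ 0) : arcs τ S s(x, y) = 0 := by
  by_contra h2
  obtain ⟨v, hv, hv'⟩ : ∃ v, v ∈ R ∧ s(x, y) = s(v, σ v) := by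
    rcases (arcs_ne hs hR x y).1 h1 with ⟨h3, h4⟩ | ⟨h3, h4⟩
    · exact ⟨x, h3, by rw [h4]⟩
    · exact ⟨y, h3, by rw [h4, Sym2.eq_swap]⟩
  obtain ⟨w, hw, hw'⟩ : ∃ w, w ∈ S ∧ s(x, y) = s(w, τ w) := by
    rcases (arcs_ne ht hS x y).1 h2 with ⟨h3, h4⟩ | ⟨h3, h4⟩
    · exact ⟨x, h3, by rw [h4]⟩
    · exact ⟨y, h3, by rw [h4, Sym2.eq_swap]⟩
  exact hd v w (hR v hv) (hS w hw) (by rw [← hv', hw'])

theorem dg_two {σ τ : Equiv.Perm V} (hs : P3 σ) (ht : P3 τ) (hd : Dj σ τ) {R S : Finset V}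
    (hR : ∀ v ∈ R, σ v ≠ v) (hS : ∀ v ∈ S, τ v ≠ v) (x : V) :
    dg (arcs σ R + arcs τ S) x = dg (arcs σ R) x + dg (arcs τ S) x := by
  unfold dg
  rw [← Finset.card_union_of_disjoint]
  · congr 1
    ext w
    simp only [Finset.mem_filter, Finset.mem_univ, true_and, Finset.mem_union, Pi.add_apply]
    by_cases h1 : arcs σ R s(x, w) = 0
    · rw [h1, zero_add]
      simp
    · rw [Arc_dj hs ht hd hR hS x w h1, add_zero]
      simp
  · rw [Finset.disjoint_filter]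
    intro w _ h1 h2
    exact h2 (Arc_dj hs ht hd hR hS x w h1)

/-- adjacency in the graph of the chosen arcs -/
theorem two_ne {σ τ : Equiv.Perm V} (hs : P3 σ) (ht : P3 τ) (hd : Dj σ τ) {R S : Finset V}
    (hR : ∀ v ∈ R, σ v ≠ v) (hS : ∀ v ∈ S, τ v ≠ v) (x y : V) :
    (arcs σ R + arcs τ S) s(x, y) ≠ 0 ↔ ((x ∈ R ∧ y = σ x) ∨ (y ∈ R ∧ x = σ y)) ∨
      ((x ∈ S ∧ y = τ x) ∨ (y ∈ S ∧ x = τ y)) := by
  rw [← arcs_ne hs hR, ← arcs_ne ht hS, Pi.add_apply]
  by_cases h1 : arcs σ R s(x, y) = 0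
  · rw [h1, zero_add]
    simp
  · rw [Arc_dj hs ht hd hR hS x y h1, add_zero]
    simp

theorem chi_arcs (σ : Equiv.Perm V) {R : Finset V} :
    chi σ + arcs σ R = arcs σ (univ.filter fun v => σ v ≠ v ∧ v ∉ R) := by
  have h1 : arcs σ R = ∑ v, if v ∈ R then ev v (σ v) else 0 := by
    unfold arcs
    rw [← Finset.sum_filter]
    congr 1
    ext v
    simp
  unfold chi
  rw [h1, ← Finset.sum_add_distrib]
  unfold arcs
  rw [Finset.sum_filter]
  refine Finset.sum_congr rfl fun v _ => ?_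
  by_cases h2 : σ v = v
  · have h3 : ev v (σ v) = 0 := by rw [h2, ev_self]
    rw [h3]
    simp
  · by_cases h3 : v ∈ R
    · rw [if_pos h3, two_zero, if_neg fun h4 => h4.2 h3]
    · rw [if_neg h3, if_pos ⟨h2, h3⟩, add_zero]

private theorem Arc_mv {σ : Equiv.Perm V} {R : Finset V} :
    ∀ v ∈ univ.filter fun v => σ v ≠ v ∧ v ∉ R, σ v ≠ v := fun _ hv =>
  (Finset.mem_filter.1 hv).2.1

theorem dg_rest {σ : Equiv.Perm V} (h : P3 σ) {R : Finset V} (hR : ∀ v ∈ R, σ v ≠ v) (x : V) :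
    dg (chi σ + arcs σ R) x = 1 ↔ One σ R x := by
  rw [chi_arcs, dg_arcs h Arc_mv]
  simp only [Finset.mem_filter, Finset.mem_univ, true_and, Arc_ai]
  unfold One
  obtain ⟨y, hy⟩ : ∃ y, y = σ⁻¹ x := ⟨_, rfl⟩
  have hxy : σ y = x := by rw [hy, Arc_ai]
  rw [← hy]
  by_cases h1 : σ x = x
  · have h2 : y = x := σ.injective (hxy.trans h1.symm)
    have h3 : x ∉ R := fun h4 => hR x h4 h1
    subst h2
    simp [h1, h3]
  · have h2 : x ≠ y := fun h3 => h1 (by rw [← h3] at hxy; exact hxy)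
    by_cases h3 : x ∈ R <;> by_cases h4 : y ∈ R <;> simp [h1, h2, h3, h4]

theorem rest_ne {σ : Equiv.Perm V} (h : P3 σ) {R : Finset V} (x : V) (h1 : σ x ≠ x)
    (hx : x ∉ R) : (chi σ + arcs σ R) s(x, σ x) ≠ 0 := by
  rw [chi_arcs, arcs_ne h Arc_mv]
  exact Or.inl ⟨Finset.mem_filter.2 ⟨Finset.mem_univ _, h1, hx⟩, rfl⟩

private theorem Arc_walk {σ : Equiv.Perm V} (h : P3 σ) {R : Finset V} {x : V} (h1 : σ x ≠ x)
    (n : ℕ) (hn : ∀ j < n, (σ ^ j) x ∉ R) : Con (chi σ + arcs σ R) x ((σ ^ n) x) := by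
  induction n with
  | zero => exact Relation.ReflTransGen.refl
  | succ n ih =>
    have h2 := ih fun j hj => hn j (hj.trans (Nat.lt_succ_self n))
    have h3 : σ ((σ ^ n) x) ≠ (σ ^ n) x := by
      rw [← Equiv.Perm.mul_apply, ← pow_succ', pow_succ, Equiv.Perm.mul_apply]
      exact fun h4 => h1 ((σ ^ n).injective h4)
    have h4 := rest_ne h ((σ ^ n) x) h3 (hn n (Nat.lt_succ_self n))
    rw [pow_succ', Equiv.Perm.mul_apply]
    exact Relation.ReflTransGen.tail h2 h4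

theorem lf_rest {σ : Equiv.Perm V} (h : P3 σ) {R : Finset V} (hR : ∀ v ∈ R, σ v ≠ v)
    (he : ∀ x, σ x ≠ x → ∃ v ∈ R, σ.SameCycle x v) : ∃ θ, LF (chi σ + arcs σ R) θ := by
  have hdg : ∀ v, dg (chi σ + arcs σ R) v =
      (if σ v ≠ v ∧ v ∉ R then 1 else 0) + (if v ≠ σ⁻¹ v ∧ σ⁻¹ v ∉ R then 1 else 0) := by
    intro v
    rw [chi_arcs, dg_arcs h Arc_mv]
    simp only [Finset.mem_filter, Finset.mem_univ, true_and, Arc_ai]
  refine LF.exists _ (fun v => ?_) (fun v => ?_) (fun v => ?_)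
  · rw [chi_arcs]
    exact arcs_diag _ _ _
  · rw [hdg]
    split_ifs <;> omega
  · by_cases h1 : σ v = v
    · refine ⟨v, ?_, Relation.ReflTransGen.refl⟩
      rw [hdg, if_neg fun h2 => h2.1 h1]
      split_ifs <;> omega
    · obtain ⟨r, hr, hvr⟩ := he v h1
      obtain ⟨n, -, hn⟩ := hvr.exists_pow_eq'
      have hex : ∃ n : ℕ, (σ ^ n) v ∈ R := ⟨n, by rw [hn]; exact hr⟩
      refine ⟨(σ ^ Nat.find hex) v, ?_, Arc_walk h h1 _ fun j hj => Nat.find_min hex hj⟩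
      rw [hdg, if_neg fun h2 => h2.2 (Nat.find_spec hex)]
      split_ifs <;> omega

theorem con_rest {σ : Equiv.Perm V} (h : P3 σ) {R : Finset V} {v : V} (hv : v ∈ R)
    (hm : σ v ≠ v) (hu : ∀ w ∈ R, σ.SameCycle v w → v = w) :
    Con (chi σ + arcs σ R) v (σ v) := by
  have h1 : σ (σ v) ≠ σ v := fun h2 => hm (σ.injective h2)
  have h2 : σ.SameCycle (σ v) v := Equiv.Perm.sameCycle_apply_left.2 (Equiv.Perm.SameCycle.refl _ _)
  obtain ⟨n, -, hn⟩ := h2.exists_pow_eq'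
  have hex : ∃ n : ℕ, (σ ^ n) (σ v) = v := ⟨n, hn⟩
  have h3 := Arc_walk h (R := R) h1 (Nat.find hex) fun j hj hjR => by
    apply Nat.find_min hex hj
    have h4 : σ.SameCycle v ((σ ^ j) (σ v)) := by
      rw [Equiv.Perm.sameCycle_pow_right, Equiv.Perm.sameCycle_apply_right]
    exact (hu _ hjR h4).symm
  rw [Nat.find_spec hex] at h3
  exact h3.symm'

theorem chi_inv (σ : Equiv.Perm V) : chi σ⁻¹ = chi σ := by
  unfold chi
  rw [← Equiv.sum_comp σ]
  refine Finset.sum_congr rfl fun v _ => ?_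
  rw [Arc_ia, ev_comm]

theorem arcs_inv (σ : Equiv.Perm V) (R : Finset V) : arcs σ⁻¹ (R.image σ) = arcs σ R := by
  unfold arcs
  rw [Finset.sum_image fun x _ y _ hxy => σ.injective hxy]
  refine Finset.sum_congr rfl fun v _ => ?_
  rw [Arc_ia, ev_comm]

theorem inc_inv (σ : Equiv.Perm V) (R : Finset V) (x : V) :
    Inc σ⁻¹ (R.image σ) x ↔ Inc σ R x := by
  have h1 : ∀ y : V, y ∈ R.image σ ↔ σ⁻¹ y ∈ R := by
    intro y
    rw [Finset.mem_image]
    constructor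
    · rintro ⟨w, hw, rfl⟩
      rwa [Arc_ia]
    · intro hy
      exact ⟨_, hy, Arc_ai σ y⟩
  unfold Inc
  rw [h1, h1, inv_inv, Arc_ia]
  exact or_comm

/-- on a cycle with one chosen arc `Inc` and `One` are the same -/
theorem inc_one {σ : Equiv.Perm V} {R : Finset V} (hR : ∀ v ∈ R, σ v ≠ v) {x : V}
    (hu : ∀ v ∈ R, ∀ w ∈ R, σ.SameCycle x v → σ.SameCycle v w → v = w) :
    Inc σ R x ↔ One σ R x := by
  have h1 : ¬ (x ∈ R ∧ σ⁻¹ x ∈ R) := by
    rintro ⟨h2, h3⟩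
    have h4 : σ.SameCycle x (σ⁻¹ x) := ⟨-1, by rw [zpow_neg_one]⟩
    have h5 := hu x h2 (σ⁻¹ x) h3 (Equiv.Perm.SameCycle.refl _ _) h4
    have h6 : σ x = x := by
      conv_lhs => rw [h5]
      exact Arc_ai σ x
    exact hR x h2 h6
  unfold Inc One
  tauto

end Pool.Agent.H.MP_5bc4af.L3
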