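import Pool.Agent.H.MP_5bc4af_co.L3.Step

/-!
# An incomplete state can be completed to a normal state with two witnesses

`PS.swap`: exchange `σ` and `τ`, `R` and `S`, `p` and `q`, `p'` and `q'`, `X` and `Y` (`q ≠ q'` because
`θ q = p`, `θ q' = p'`). Induction on the number of `x` with `σ x ≠ x` whose cycle has no element of
`R` plus the number of `x` with `τ x ≠ x` whose cycle has no element of `S`: `step` for `h` or for
`h.swap` makes it smaller (`R ⊆ insert r R`, and `x` is treated). If both are zero the state is normal.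
-/

namespace Pool.Agent.H.MP_5bc4af.L3

open Finset Pool.Agent.H.MP_5bc4af.H5

variable {V : Type*} [Fintype V] [DecidableEq V]

private theorem Build_dg {σ τ : Equiv.Perm V} {R S : Finset V} {θ : V → V} {p q p' q' : V}
    {X Y : Finset V} (h : PS σ τ R S θ p q p' q' X Y) {x : V}
    (h2 : ¬ Inc τ S x) : dg (arcs σ R + arcs τ S) x ≤ 1 := by
  rw [dg_two h.sp h.tp h.dj h.rm h.sm, dg_arcs h.sp h.rm, dg_arcs h.tp h.sm]
  unfold Inc at h2
  rw [not_or] at h2
  rw [if_neg h2.1, if_neg h2.2]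
  have h3 : ¬ (x ∈ R ∧ σ⁻¹ x ∈ R) := by
    rintro ⟨h4, h5⟩
    have h6 : σ.SameCycle x (σ⁻¹ x) := ⟨-1, by simp⟩
    have h7 := h.ru x h4 (σ⁻¹ x) h5 h6
    apply h.rm x h4
    conv_lhs => rw [h7]
    exact (Equiv.eq_symm_apply σ).mp rfl
  by_cases h4 : x ∈ R
  · have h5 : σ⁻¹ x ∉ R := fun h6 => h3 ⟨h4, h6⟩
    rw [if_pos h4, if_neg h5]
  · rw [if_neg h4]
    split_ifs <;> omega

private theorem Build_th {σ τ : Equiv.Perm V} {R S : Finset V} {θ : V → V} {p q p' q' : V}
    {X Y : Finset V} (h : PS σ τ R S θ p q p' q' X Y) {a b : V} (w : Wit σ τ R S θ a b) :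
    θ b = a := by
  have h1 := h.lf.inv a (Build_dg h w.p2)
  rwa [w.th] at h1

theorem PS.swap {σ τ : Equiv.Perm V} {R S : Finset V} {θ : V → V} {p q p' q' : V} {X Y : Finset V}
    (h : PS σ τ R S θ p q p' q' X Y) : PS τ σ S R θ q p q' p' Y X := by
  have e : arcs τ S + arcs σ R = arcs σ R + arcs τ S := add_comm _ _
  exact
    { sp := h.tp
      tp := h.sp
      dj := h.dj.symm
      rm := h.sm
      ru := h.su
      sm := h.rm
      su := h.ru
      lf := by rw [e]; exact h.lf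
      w := ⟨h.w.q1, h.w.q2, h.w.p1, h.w.p2, Build_th h h.w⟩
      w' := ⟨h.w'.q1, h.w'.q2, h.w'.p1, h.w'.p2, Build_th h h.w'⟩
      ne := by
        intro hq
        apply h.ne
        rw [← Build_th h h.w, ← Build_th h h.w', hq]
      cp := h.cq
      cp' := h.cq'
      cq := h.cp
      cq' := h.cp'
      av := h.bv
      bv := h.av }

private theorem Build_card {σ : Equiv.Perm V} {R : Finset V} {x r : V} [DecidablePred fun x =>
    σ x ≠ x ∧ ∀ v ∈ R, ¬ σ.SameCycle x v] [DecidablePred fun x =>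
    σ x ≠ x ∧ ∀ v ∈ insert r R, ¬ σ.SameCycle x v] (hx : σ x ≠ x)
    (hn : ∀ v ∈ R, ¬ σ.SameCycle x v) (hr : σ.SameCycle x r) :
    (univ.filter fun x => σ x ≠ x ∧ ∀ v ∈ insert r R, ¬ σ.SameCycle x v).card <
      (univ.filter fun x => σ x ≠ x ∧ ∀ v ∈ R, ¬ σ.SameCycle x v).card := by
  apply Finset.card_lt_card
  rw [Finset.ssubset_iff_of_subset]
  · refine ⟨x, by simp only [mem_filter, mem_univ, true_and]; exact ⟨hx, hn⟩, ?_⟩
    simp only [mem_filter, mem_univ, true_and]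
    rintro ⟨-, h⟩
    exact h r (mem_insert_self _ _) hr
  · intro y hy
    simp only [mem_filter, mem_univ, true_and] at hy ⊢
    exact ⟨hy.1, fun v hv => hy.2 v (mem_insert_of_mem hv)⟩

theorem build {σ τ : Equiv.Perm V} {R S : Finset V} {θ : V → V} {p q p' q' : V} {X Y : Finset V}
    (h : PS σ τ R S θ p q p' q' X Y) :
    ∃ (R' S' : Finset V) (θ' : V → V) (p1 q1 p2 q2 : V), NS σ τ R' S' θ' ∧
      Wit σ τ R' S' θ' p1 q1 ∧ Wit σ τ R' S' θ' p2 q2 ∧ p1 ≠ p2 := by
  classical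
  have key : ∀ (n : ℕ) (R S : Finset V) (θ : V → V) (p q p' q' : V),
      PS σ τ R S θ p q p' q' X Y →
      (univ.filter fun x => σ x ≠ x ∧ ∀ v ∈ R, ¬ σ.SameCycle x v).card +
        (univ.filter fun x => τ x ≠ x ∧ ∀ v ∈ S, ¬ τ.SameCycle x v).card ≤ n →
      ∃ (R' S' : Finset V) (θ' : V → V) (p1 q1 p2 q2 : V), NS σ τ R' S' θ' ∧
        Wit σ τ R' S' θ' p1 q1 ∧ Wit σ τ R' S' θ' p2 q2 ∧ p1 ≠ p2 := by
    intro n
    induction n with
    | zero =>
      intro R S θ p q p' q' h hn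
      have h1 : (univ.filter fun x => σ x ≠ x ∧ ∀ v ∈ R, ¬ σ.SameCycle x v).card = 0 := by omega
      have h2 : (univ.filter fun x => τ x ≠ x ∧ ∀ v ∈ S, ¬ τ.SameCycle x v).card = 0 := by omega
      rw [Finset.card_eq_zero, Finset.filter_eq_empty_iff] at h1 h2
      refine ⟨R, S, θ, p, q, p', q', ⟨h.sp, h.tp, h.dj, h.rm, h.ru, fun x hx => ?_, h.sm, h.su,
        fun x hx => ?_, h.lf⟩, h.w, h.w', h.ne⟩
      · by_contra hc
        push Not at hc
        exact h1 (mem_univ x) ⟨hx, hc⟩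
      · by_contra hc
        push Not at hc
        exact h2 (mem_univ x) ⟨hx, hc⟩
    | succ n ih =>
      intro R S θ p q p' q' h hn
      by_cases hs : ∃ x, σ x ≠ x ∧ ∀ v ∈ R, ¬ σ.SameCycle x v
      · obtain ⟨x, hx, hxn⟩ := hs
        obtain ⟨r, θ', q1, q1', hr, hPS⟩ := step h hx hxn
        refine ih _ _ _ _ _ _ _ hPS ?_
        have := Build_card hx hxn hr
        omega
      · by_cases ht : ∃ x, τ x ≠ x ∧ ∀ v ∈ S, ¬ τ.SameCycle x v
        · obtain ⟨x, hx, hxn⟩ := ht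
          obtain ⟨r, θ', q1, q1', hr, hPS⟩ := step h.swap hx hxn
          refine ih _ _ _ _ _ _ _ hPS.swap ?_
          have := Build_card hx hxn hr
          omega
        · refine ih R S θ p q p' q' h ?_
          have h1 : (univ.filter fun x => σ x ≠ x ∧ ∀ v ∈ R, ¬ σ.SameCycle x v).card = 0 := by
            rw [Finset.card_eq_zero, Finset.filter_eq_empty_iff]
            intro x _ hx
            exact hs ⟨x, hx⟩
          have h2 : (univ.filter fun x => τ x ≠ x ∧ ∀ v ∈ S, ¬ τ.SameCycle x v).card = 0 := by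
            rw [Finset.card_eq_zero, Finset.filter_eq_empty_iff]
            intro x _ hx
            exact ht ⟨x, hx⟩
          omega
  exact key _ R S θ p q p' q' h le_rfl

end Pool.Agent.H.MP_5bc4af.L3
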