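import Pool.Agent.H.MP_5bc4af_co.L3.Def

/-!
# A connected graph with all degrees two or zero is one cycle; Petersen decomposition

`perms`: copy the beginning of the proof of `cov_rem` (helper5/Rem.lean): `exists_orientation`,
`int_birkhoff` for `M u v = [(u, v) ∈ A] + [u = v] (r - outdegree u)`, `sum_birk`, `vec_orient`. The
arcs `(u, σ j u)` with `σ j u ≠ u` are in `A`, every `(u, v) ∈ A` is an arc for exactly one `j`
(`M u v = 1`), and `A` contains no pair of opposite arcs. This gives `P3` and `Dj`.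

`con_cov`: `perms` for `r = 1` gives `f = chi σ`. If `x, y` are moved by `σ` then `dg f x ≠ 0`,
`dg f y ≠ 0`, so `Con f x y`; every step `f s(u, v) ≠ 0` is an arc `v = σ u` or `u = σ v`, so
`σ.SameCycle x y`. So `σ = 1` or `σ.IsCycle`, `Cov.chi`.
-/

namespace Pool.Agent.H.MP_5bc4af.L3

open Finset Pool.Agent.H.MP_5bc4af.H5

variable {V : Type*} [Fintype V] [DecidableEq V]

theorem perms (f : Sym2 V → ZMod 2) (hd : ∀ v, f s(v, v) = 0) (hb : ∀ v, bd f v = 0) (r : ℕ)
    (h : ∀ v, dg f v ≤ 2 * r) :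
    ∃ σ : Fin r → Equiv.Perm V, f = ∑ j, chi (σ j) ∧ (∀ j, P3 (σ j)) ∧
      (∀ i j, i ≠ j → Dj (σ i) (σ j)) ∧
      (∀ u v, f s(u, v) ≠ 0 → ∃ j, v = σ j u ∨ u = σ j v) ∧
      ∀ j u, σ j u ≠ u → f s(u, σ j u) ≠ 0 := by
  obtain ⟨A, h1, h2, h3⟩ := exists_orientation f hd hb
  have hout : ∀ v, (A.filter fun e => e.1 = v).card ≤ r := by
    intro v
    have := (h3 v).1
    have := h v
    omega
  have hio : ∀ v, (A.filter fun e => e.1 = v).card = (A.filter fun e => e.2 = v).card := by
    intro v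
    have := (h3 v).1
    have := (h3 v).2
    omega
  obtain ⟨M, hM⟩ : ∃ M : V → V → ℕ, M = fun u v => (if (u, v) ∈ A then 1 else 0) +
    (if u = v then r - (A.filter fun e => e.1 = u).card else 0) := ⟨_, rfl⟩
  obtain ⟨σ, hσ⟩ := int_birkhoff r M (by
    intro u
    rw [hM]
    simp only
    rw [Finset.sum_add_distrib, card_out_Rem, Finset.sum_ite_eq]
    simp only [Finset.mem_univ, if_true]
    have := hout u
    omega) (by
    intro v
    rw [hM]
    simp only
    rw [Finset.sum_add_distrib, card_in_Rem, Finset.sum_ite_eq']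
    simp only [Finset.mem_univ, if_true]
    have := hout v
    have := hio v
    omega)
  have key : f = ∑ j, chi (σ j) := by
    rw [sum_birk hσ, vec_orient f A h1 h2]
    have h4 : ∀ u v, M u v • ev u v = if (u, v) ∈ A then ev u v else 0 := by
      intro u v
      rw [hM]
      simp only
      rw [add_smul]
      by_cases huv : u = v
      · subst huv
        rw [ev_self]
        simp
      · simp [huv]
    rw [Finset.sum_congr rfl fun u _ => Finset.sum_congr rfl fun v _ => h4 u v,
      ← Finset.sum_product', Finset.univ_product_univ, ← Finset.sum_filter]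
    apply Finset.sum_congr
    · ext e
      simp
    · intro e _
      rfl
  have hMne : ∀ u v, u ≠ v → M u v = if (u, v) ∈ A then 1 else 0 := by
    intro u v huv
    rw [hM]
    simp [huv]
  have hA : ∀ u v, (u, v) ∈ A → u ≠ v := by
    intro u v huv hc
    subst hc
    exact h1 u u huv huv
  have harc : ∀ j u, σ j u ≠ u → (u, σ j u) ∈ A := by
    intro j u hu
    have h4 := hσ u (σ j u)
    rw [hMne u _ (fun hc => hu hc.symm)] at h4
    by_contra hc
    rw [if_neg hc] at h4
    have h5 := Finset.card_eq_zero.1 h4.symm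
    have h6 : j ∈ (univ.filter fun i => σ i u = σ j u) :=
      Finset.mem_filter.2 ⟨Finset.mem_univ _, rfl⟩
    rw [h5] at h6
    exact absurd h6 (Finset.notMem_empty _)
  have huniq : ∀ i j u, σ j u ≠ u → σ i u = σ j u → i = j := by
    intro i j u hu hij
    have h4 := hσ u (σ j u)
    rw [hMne u _ (fun hc => hu hc.symm), if_pos (harc j u hu)] at h4
    obtain ⟨k, hk⟩ := Finset.card_eq_one.1 h4.symm
    have h5 : i ∈ (univ.filter fun i => σ i u = σ j u) :=
      Finset.mem_filter.2 ⟨Finset.mem_univ _, hij⟩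
    have h6 : j ∈ (univ.filter fun i => σ i u = σ j u) :=
      Finset.mem_filter.2 ⟨Finset.mem_univ _, rfl⟩
    rw [hk, Finset.mem_singleton] at h5 h6
    rw [h5, h6]
  have hex : ∀ u v, (u, v) ∈ A → ∃ j, σ j u = v := by
    intro u v huv
    have h4 := hσ u v
    rw [hMne u v (hA u v huv), if_pos huv] at h4
    obtain ⟨k, hk⟩ := Finset.card_eq_one.1 h4.symm
    have h5 : k ∈ (univ.filter fun i => σ i u = v) := by
      rw [hk]
      exact Finset.mem_singleton_self _
    exact ⟨k, (Finset.mem_filter.1 h5).2⟩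
  refine ⟨σ, key, ?_, ?_, ?_, ?_⟩
  · intro j x hx hc
    have h4 := harc j x hx
    have h5 := harc j (σ j x) (by rw [hc]; exact fun hh => hx hh.symm)
    rw [hc] at h5
    exact h1 _ _ h4 h5
  · intro i j hij x y hx hy hxy
    rw [Sym2.eq_iff] at hxy
    rcases hxy with ⟨h4, h5⟩ | ⟨h4, h5⟩
    · subst h4
      exact hij (huniq i j x hy h5)
    · have h6 := harc i x hx
      have h7 := harc j y hy
      rw [h5] at h6
      rw [← h4] at h7
      exact h1 _ _ h6 h7
  · intro u v huv
    rcases (h2 u v).1 huv with h4 | h4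
    · obtain ⟨j, hj⟩ := hex u v h4
      exact ⟨j, Or.inl hj.symm⟩
    · obtain ⟨j, hj⟩ := hex v u h4
      exact ⟨j, Or.inr hj.symm⟩
  · intro j u hu
    exact (h2 u _).2 (Or.inl (harc j u hu))

private theorem Cyc_dg {f : Sym2 V → ZMod 2} {u v : V} (h : f s(u, v) ≠ 0) : dg f u ≠ 0 := by
  unfold dg
  rw [Finset.card_ne_zero]
  exact ⟨v, Finset.mem_filter.2 ⟨Finset.mem_univ _, h⟩⟩

theorem con_cov (f : Sym2 V → ZMod 2) (hd : ∀ v, f s(v, v) = 0) (hb : ∀ v, bd f v = 0)
    (h2 : ∀ v, dg f v ≤ 2) (hc : ∀ x y, dg f x ≠ 0 → dg f y ≠ 0 → Con f x y) : Cov f 1 := by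
  obtain ⟨σ, h1, -, -, h3, h4⟩ := perms f hd hb 1 (fun v => by simpa using h2 v)
  have h5 : f = chi (σ 0) := by
    rw [h1]
    simp
  have hstep : ∀ u v, f s(u, v) ≠ 0 → (σ 0).SameCycle u v := by
    intro u v huv
    obtain ⟨j, hj⟩ := h3 u v huv
    have hj0 : j = 0 := Subsingleton.elim _ _
    subst hj0
    rcases hj with hj | hj
    · exact ⟨1, by rw [zpow_one, hj]⟩
    · exact Equiv.Perm.SameCycle.symm ⟨1, by rw [zpow_one, hj]⟩
  have hcon : ∀ x y, Con f x y → (σ 0).SameCycle x y := by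
    intro x y hxy
    unfold Con at hxy
    induction hxy with
    | refl => exact Equiv.Perm.SameCycle.refl _ _
    | tail _ hbc ih => exact ih.trans (hstep _ _ hbc)
  rw [h5]
  apply Cov.chi
  by_cases h6 : σ 0 = 1
  · exact Or.inl h6
  · right
    have h7 : ∃ x, σ 0 x ≠ x := by
      by_contra hcc
      push Not at hcc
      exact h6 (Equiv.ext hcc)
    obtain ⟨x, hx⟩ := h7
    refine ⟨x, hx, fun y hy => ?_⟩
    exact hcon x y (hc x y (Cyc_dg (h4 0 x hx)) (Cyc_dg (h4 0 y hy)))

end Pool.Agent.H.MP_5bc4af.L3
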