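import Pool.Agent.H.MP_5bc4af_co.L3.Deg
import Pool.Agent.H.MP_5bc4af_co.L3.Cyc

/-!
# One colour: a linear forest with its links is one cycle

`lk E β` is the set of links `x (β x)`, `x ∈ E`. Let `g = f + lk E β`, `E` = ends of `f`.
(a) Some link is an edge of `f`: `f s(x, β x) ≠ 0`, both ends have degree one, so the component of
`x` in `f` is `{x, β x}` (`con_pair`), `θ x = β x`. So the relation `v = θ u ∨ v = β u` never leaves
`{x, β x}` and by `ht` these are all ends; every vertex of degree `≠ 0` is joined to an end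
(`h.ex`, `con_iso`), so the only edge of `f` is `x (β x)`, `g = 0`, `Cov.zero`.
(b) Otherwise no link is an edge of `f`, so every edge of `f` and every link is an edge of `g`; the
degree of `x` in `g` is `2` for ends and is the degree in `f` for the others; `g` is connected on the
vertices of degree `≠ 0` (`h.ex`, `h.con`, `ht`); `con_cov`.
-/

namespace Pool.Agent.H.MP_5bc4af.L3

open Finset Pool.Agent.H.MP_5bc4af.H5

variable {V : Type*} [Fintype V] [DecidableEq V]

/-- the links `x (β x)`, `x ∈ E` -/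
def lk (E : Finset V) (β : V → V) : Sym2 V → ZMod 2 :=
  fun e => if ∃ x ∈ E, e = s(x, β x) then 1 else 0

private theorem Col_zmod {a : ZMod 2} (h : a ≠ 0) : a = 1 := by
  revert h
  revert a
  decide

/-- the value of the link vector at a pair -/
private theorem Col_lk {f : Sym2 V → ZMod 2} {β : V → V}
    (hβ : ∀ x, dg f x = 1 → dg f (β x) = 1 ∧ β (β x) = x ∧ β x ≠ x) (u v : V) :
    lk (univ.filter fun x => dg f x = 1) β s(u, v) = if dg f u = 1 ∧ v = β u then 1 else 0 := by
  unfold lk
  congr 1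
  refine propext ⟨?_, ?_⟩
  · rintro ⟨x, hx, he⟩
    have hx1 : dg f x = 1 := (mem_filter.1 hx).2
    rcases Sym2.eq_iff.1 he with ⟨h1, h2⟩ | ⟨h1, h2⟩
    · subst h1
      exact ⟨hx1, h2⟩
    · subst h2
      subst h1
      exact ⟨(hβ _ hx1).1, (hβ _ hx1).2.1.symm⟩
  · rintro ⟨h1, rfl⟩
    exact ⟨u, mem_filter.2 ⟨mem_univ _, h1⟩, rfl⟩

private theorem Col_dg_pos {f : Sym2 V → ZMod 2} {u v : V} (h : f s(u, v) ≠ 0) : dg f u ≠ 0 := by
  unfold dg
  intro h0
  have := Finset.card_eq_zero.1 h0
  have h1 : v ∈ univ.filter fun w => f s(u, w) ≠ 0 := mem_filter.2 ⟨mem_univ _, h⟩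
  rw [this] at h1
  simp at h1

/-- every vertex of positive degree is joined to an end of degree one -/
private theorem Col_end {f : Sym2 V → ZMod 2} {θ : V → V} (h : LF f θ) {x : V} (hx : dg f x ≠ 0) :
    ∃ w, dg f w = 1 ∧ Con f x w := by
  obtain ⟨w, hw, hc⟩ := h.ex x
  refine ⟨w, ?_, hc⟩
  rcases Nat.lt_or_ge (dg f w) 1 with h1 | h1
  · have h0 : dg f w = 0 := by omega
    have := con_iso h0 hc.symm'
    rw [this] at hx
    exact absurd h0 hx
  · omega

private theorem Col_theta {f : Sym2 V → ZMod 2} {θ : V → V} (h : LF f θ) {x : V}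
    (hx : dg f x = 1) : dg f (θ x) = 1 := by
  have h1 := h.low x hx.le
  rcases Nat.lt_or_ge (dg f (θ x)) 1 with h2 | h2
  · have h0 : dg f (θ x) = 0 := by omega
    have := con_iso h0 (h.con x hx.le).symm'
    exact absurd this.symm (h.one x hx)
  · omega

private theorem Col_a {f : Sym2 V → ZMod 2} {θ : V → V} (h : LF f θ) {β : V → V}
    (hβ : ∀ x, dg f x = 1 → dg f (β x) = 1 ∧ β (β x) = x ∧ β x ≠ x)
    (ht : ∀ x y, dg f x = 1 → dg f y = 1 →
      Relation.ReflTransGen (fun u v => v = θ u ∨ v = β u) x y) {x : V} (hx : dg f x = 1)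
    (hf : f s(x, β x) ≠ 0) : f + lk (univ.filter fun x => dg f x = 1) β = 0 := by
  have hcon : ∀ y, Con f x y → y = x ∨ y = β x := fun y hy => con_pair hx (hβ x hx).1 hf hy
  have hθ : θ x = β x := (hcon _ (h.con x hx.le)).resolve_left (h.one x hx)
  have hθ' : θ (β x) = x := by rw [← hθ]; exact h.inv x hx.le
  have hall : ∀ y, dg f y = 1 → y = x ∨ y = β x := by
    intro y hy
    have h1 := ht x y hx hy
    clear hy
    induction h1 with
    | refl => exact Or.inl rfl
    | tail _ h2 ih =>
      rcases ih with rfl | rfl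
      · rcases h2 with rfl | rfl
        · exact Or.inr hθ
        · exact Or.inr rfl
      · rcases h2 with rfl | rfl
        · exact Or.inl hθ'
        · exact Or.inl (hβ x hx).2.1
  have hmem : ∀ u, dg f u ≠ 0 → u = x ∨ u = β x := by
    intro u hu
    obtain ⟨w, hw, hc⟩ := Col_end h hu
    apply hcon
    rcases hall w hw with rfl | rfl
    · exact hc.symm'
    · exact (Con.step hf).trans hc.symm'
  funext e
  induction e using Sym2.inductionOn with
  | hf u v =>
    rw [Pi.add_apply, Col_lk hβ, Pi.zero_apply]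
    by_cases huv : f s(u, v) = 0
    · rw [huv, zero_add, if_neg]
      rintro ⟨hu, rfl⟩
      rcases hall u hu with rfl | rfl
      · exact hf huv
      · rw [(hβ x hx).2.1, Sym2.eq_swap] at huv
        exact hf huv
    · rw [Col_zmod huv, if_pos]
      · decide
      · have hne : u ≠ v := by
          rintro rfl
          exact huv (h.diag u)
        have hvu : f s(v, u) ≠ 0 := by rwa [Sym2.eq_swap]
        rcases hmem u (Col_dg_pos huv) with rfl | rfl
        · exact ⟨hx, (hmem v (Col_dg_pos hvu)).resolve_left hne.symm⟩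
        · refine ⟨(hβ x hx).1, ?_⟩
          rw [(hβ x hx).2.1]
          exact (hmem v (Col_dg_pos hvu)).resolve_right hne.symm

private theorem Col_b {f : Sym2 V → ZMod 2} {θ : V → V} (h : LF f θ) {β : V → V}
    (hβ : ∀ x, dg f x = 1 → dg f (β x) = 1 ∧ β (β x) = x ∧ β x ≠ x)
    (ht : ∀ x y, dg f x = 1 → dg f y = 1 →
      Relation.ReflTransGen (fun u v => v = θ u ∨ v = β u) x y)
    (hf : ∀ x, dg f x = 1 → f s(x, β x) = 0) {g : Sym2 V → ZMod 2}
    (hgd : ∀ u v, g s(u, v) = f s(u, v) + if dg f u = 1 ∧ v = β u then 1 else 0) : Cov g 1 := by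
  have hlink : ∀ u, dg f u = 1 → g s(u, β u) ≠ 0 := by
    intro u hu
    rw [hgd, hf u hu, if_pos ⟨hu, rfl⟩]
    decide
  have hedge : ∀ u v, f s(u, v) ≠ 0 → g s(u, v) ≠ 0 := by
    intro u v huv
    rw [hgd, if_neg, add_zero]
    · exact huv
    · rintro ⟨hu, rfl⟩
      exact huv (hf u hu)
  have hdg1 : ∀ x, dg f x = 1 → dg g x = 2 := by
    intro x hx
    have h1 : (univ.filter fun w => g s(x, w) ≠ 0) = insert (β x) (univ.filter fun w => f s(x, w) ≠ 0) := by
      ext w
      simp only [mem_filter, mem_univ, true_and, mem_insert]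
      constructor
      · intro hw
        by_cases hwb : w = β x
        · exact Or.inl hwb
        · right
          rwa [hgd, if_neg (fun h2 => hwb h2.2), add_zero] at hw
      · rintro (rfl | hw)
        · exact hlink x hx
        · exact hedge x w hw
    unfold dg
    rw [h1, card_insert_of_notMem]
    · have h2 : (univ.filter fun w => f s(x, w) ≠ 0).card = 1 := hx
      rw [h2]
    · rw [mem_filter]
      exact fun h2 => h2.2 (hf x hx)
  have hdg0 : ∀ x, dg f x ≠ 1 → dg g x = dg f x := by
    intro x hx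
    unfold dg
    congr 1
    ext w
    simp only [mem_filter, mem_univ, true_and]
    rw [hgd, if_neg (fun h2 => hx h2.1), add_zero]
  refine con_cov g ?_ ?_ ?_ ?_
  · intro v
    rw [hgd, h.diag, zero_add, if_neg]
    rintro ⟨hv, hb⟩
    exact (hβ v hv).2.2 hb.symm
  · intro v
    rw [bd_eq_dg]
    by_cases hv : dg f v = 1
    · rw [hdg1 v hv]
      decide
    · rw [hdg0 v hv]
      have h2 := h.deg v
      have h3 : dg f v = 0 ∨ dg f v = 2 := by omega
      rcases h3 with h3 | h3 <;> rw [h3] <;> decide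
  · intro v
    by_cases hv : dg f v = 1
    · exact (hdg1 v hv).le
    · rw [hdg0 v hv]
      exact h.deg v
  · intro x y hx hy
    have hpos : ∀ x, dg g x ≠ 0 → dg f x ≠ 0 := by
      intro x hx h0
      rw [hdg0 x (by omega)] at hx
      exact hx h0
    obtain ⟨w, hw, hc⟩ := Col_end h (hpos x hx)
    obtain ⟨w', hw', hc'⟩ := Col_end h (hpos y hy)
    have hmid : Con g w w' := by
      have h1 := ht w w' hw hw'
      clear hw' hc'
      have h2 : dg f w' = 1 ∧ Con g w w' := by
        induction h1 with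
        | refl => exact ⟨hw, Relation.ReflTransGen.refl⟩
        | tail _ h3 ih =>
          obtain ⟨ih1, ih2⟩ := ih
          rcases h3 with rfl | rfl
          · exact ⟨Col_theta h ih1, ih2.trans (Con.mono hedge (h.con _ ih1.le))⟩
          · exact ⟨(hβ _ ih1).1, ih2.trans (Con.step (hlink _ ih1))⟩
      exact h2.2
    exact (Con.mono hedge hc).trans (hmid.trans (Con.mono hedge hc'.symm'))

theorem colour {f : Sym2 V → ZMod 2} {θ : V → V} (h : LF f θ) {β : V → V}
    (hβ : ∀ x, dg f x = 1 → dg f (β x) = 1 ∧ β (β x) = x ∧ β x ≠ x)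
    (ht : ∀ x y, dg f x = 1 → dg f y = 1 →
      Relation.ReflTransGen (fun u v => v = θ u ∨ v = β u) x y) :
    Cov (f + lk (univ.filter fun x => dg f x = 1) β) 1 := by
  by_cases hcase : ∃ x, dg f x = 1 ∧ f s(x, β x) ≠ 0
  · obtain ⟨x, hx, hf⟩ := hcase
    rw [Col_a h hβ ht hx hf]
    exact Cov.zero.mono (Nat.zero_le 1)
  · push Not at hcase
    refine Col_b h hβ ht hcase fun u v => ?_
    rw [Pi.add_apply, Col_lk hβ]

end Pool.Agent.H.MP_5bc4af.L3
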