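import Mathlib

/-!
# The linking lemma (abstract form)

`E i` is the set of ends of the linear forest of colour `i`, `α i` sends an end to the other end of
its path. Every vertex is an end in no colour or in exactly two colours. The links `x - β x` are
chosen in every class `E i ∩ E j` such that in every colour everything is connected.

Proof. (0) Some `β` exists: for a finset `s` of even size there is `b : V → V` with
`b x ∈ s`, `b (b x) = x`, `b x ≠ x` for `x ∈ s`; take it on the classes of the map
`x ↦ univ.filter (x ∈ E i)` (`Finset ι`), whose fibre at the class of `x ∈ E i ∩ E j` is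
`E i ∩ E j`.
(1) For `β` as required put `r i β u v := v = α i u ∨ v = β u` and `C i β := ReflTransGen (r i β)`.
On `E i` this is an equivalence relation (both maps are involutions of `E i`). Choose `β` such that
the number of triples `(i, x, y)`, `x, y ∈ E i`, `¬ C i β x y`, is minimal (there are finitely many
`β : V → V`).
(2) Parity. Let `a, c ∈ E i`, `b = β a`, `d = β c`, `c ≠ a`, `c ≠ b`. Let
`S := ReflTransGen (fun u v => v = α i u ∨ (u ∉ {a, b, c, d} ∧ v = β u))` on `E i` (again an
equivalence relation). Then `(S a b ∧ S c d) ∨ (S a c ∧ S b d) ∨ (S a d ∧ S b c)`: for every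
`x ∈ E i` the class `K = {y ∈ E i | S x y}` has even size (`α i` is an involution of `K` without
fixed points), and `β` is an involution without fixed points of `K \ {a, b, c, d}`; so
`K ∩ {a, b, c, d}` has even size (`Finset.sum_involution` or `Finset.card_involution`).
(3) Claim: if `x, y` are in the same class `E i ∩ E j` (`i ≠ j`), then `C i β x y`. If `y = x` or
`y = β x` this is clear. Otherwise let `a = x`, `c = y`, `b = β a`, `d = β c` and suppose
`¬ C i β a c`. In colour `i` the first case of (2) holds. In colour `j` one of the three cases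
holds; if it is the first or the third let `β'` be `β` with the new pairs `a c`, `b d`, if it is
the second let `β'` be `β` with the new pairs `a d`, `b c`. In both cases `a, b, c, d` are in one
class of `C i β'` and in one class of `C j β'`, so `C l β x y → C l β' x y` for `l = i, j` and all
`x y`; for the other colours `l` the points `a, b, c, d` are not in `E l` and nothing changes on
`E l`. And `C i β' a c`. This contradicts the choice of `β`.
(4) By `hc` all classes `E i ∩ E j` with fixed `i` are in one class of `C i β`.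
-/

namespace Pool.Agent.H.MP_5bc4af.L3

open Finset

/-- a finset with an involution without fixed points has even size -/
private theorem Link_even {V : Type*} (K : Finset V) (g : V → V)
    (h : ∀ x ∈ K, g x ∈ K ∧ g (g x) = x ∧ g x ≠ x) : Even K.card := by
  have h1 : ∑ _x ∈ K, (1 : ZMod 2) = 0 := by
    refine Finset.sum_involution (fun a _ => g a) ?_ ?_ ?_ ?_
    · intro a _
      decide
    · intro a ha _
      exact (h a ha).2.2
    · intro a ha
      exact (h a ha).1
    · intro a ha
      exact (h a ha).2.1
  rw [Finset.sum_const, nsmul_eq_mul, mul_one] at h1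
  exact (ZMod.natCast_eq_zero_iff_even).1 h1

/-- a finset of even size has an involution without fixed points -/
private theorem Link_pairing {V : Type*} [DecidableEq V] (n : ℕ) :
    ∀ s : Finset V, s.card = 2 * n →
      ∃ b : V → V, ∀ x ∈ s, b x ∈ s ∧ b (b x) = x ∧ b x ≠ x := by
  induction n with
  | zero =>
    intro s hs
    have : s = ∅ := by
      rw [← Finset.card_eq_zero]; omega
    subst this
    exact ⟨id, fun x hx => absurd hx (Finset.notMem_empty x)⟩
  | succ n ih =>
    intro s hs
    have h1 : 1 < s.card := by omega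
    obtain ⟨x, hx, y, hy, hxy⟩ := Finset.one_lt_card.1 h1
    have hy' : y ∈ s.erase x := Finset.mem_erase.2 ⟨hxy.symm, hy⟩
    have h2 : ((s.erase x).erase y).card = 2 * n := by
      rw [Finset.card_erase_of_mem hy', Finset.card_erase_of_mem hx]
      omega
    obtain ⟨b, hb⟩ := ih _ h2
    refine ⟨fun u => if u = x then y else if u = y then x else b u, ?_⟩
    intro u hu
    by_cases hux : u = x
    · subst hux
      have e1 : (if u = u then y else if u = y then u else b u) = y := if_pos rfl
      have e2 : (if y = u then y else if y = y then u else b y) = u := by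
        rw [if_neg hxy.symm, if_pos rfl]
      refine ⟨?_, ?_, ?_⟩
      · show (if u = u then y else if u = y then u else b u) ∈ s
        rw [e1]; exact hy
      · show (if (if u = u then y else if u = y then u else b u) = u then y else
          if (if u = u then y else if u = y then u else b u) = y then u else
            b (if u = u then y else if u = y then u else b u)) = u
        rw [e1]; exact e2
      · show (if u = u then y else if u = y then u else b u) ≠ u
        rw [e1]; exact hxy.symm
    · by_cases huy : u = y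
      · subst huy
        have e1 : (if u = x then u else if u = u then x else b u) = x := by
          rw [if_neg hux, if_pos rfl]
        have e2 : (if x = x then u else if x = u then x else b x) = u := if_pos rfl
        refine ⟨?_, ?_, ?_⟩
        · show (if u = x then u else if u = u then x else b u) ∈ s
          rw [e1]; exact hx
        · show (if (if u = x then u else if u = u then x else b u) = x then u else
            if (if u = x then u else if u = u then x else b u) = u then x else
              b (if u = x then u else if u = u then x else b u)) = u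
          rw [e1]; exact e2
        · show (if u = x then u else if u = u then x else b u) ≠ u
          rw [e1]; exact hxy
      · have hu' : u ∈ (s.erase x).erase y :=
          Finset.mem_erase.2 ⟨huy, Finset.mem_erase.2 ⟨hux, hu⟩⟩
        obtain ⟨k1, k2, k3⟩ := hb u hu'
        have e1 : (if u = x then y else if u = y then x else b u) = b u := by
          rw [if_neg hux, if_neg huy]
        have k4 := Finset.mem_erase.1 k1
        have k5 := Finset.mem_erase.1 k4.2
        have e2 : (if b u = x then y else if b u = y then x else b (b u)) = b (b u) := by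
          rw [if_neg k5.1, if_neg k4.1]
        refine ⟨?_, ?_, ?_⟩
        · show (if u = x then y else if u = y then x else b u) ∈ s
          rw [e1]; exact k5.2
        · show (if (if u = x then y else if u = y then x else b u) = x then y else
            if (if u = x then y else if u = y then x else b u) = y then x else
              b (if u = x then y else if u = y then x else b u)) = u
          rw [e1, e2]; exact k2
        · show (if u = x then y else if u = y then x else b u) ≠ u
          rw [e1]; exact k3

/-- connection by two maps -/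
private def Link_C {V : Type*} (f g : V → V) : V → V → Prop :=
  Relation.ReflTransGen (fun u v => v = f u ∨ v = g u)

private theorem Link_C_mem {V : Type*} {E : Finset V} {f g : V → V}
    (hf : ∀ x ∈ E, f x ∈ E) (hg : ∀ x ∈ E, g x ∈ E) {x y : V} (hx : x ∈ E)
    (h : Link_C f g x y) : y ∈ E := by
  induction h with
  | refl => exact hx
  | tail _ h2 ih =>
    rcases h2 with h2 | h2
    · rw [h2]; exact hf _ ih
    · rw [h2]; exact hg _ ih

private theorem Link_C_symm {V : Type*} {E : Finset V} {f g : V → V}
    (hf : ∀ x ∈ E, f x ∈ E ∧ f (f x) = x) (hg : ∀ x ∈ E, g x ∈ E ∧ g (g x) = x)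
    {x y : V} (hx : x ∈ E) (h : Link_C f g x y) : Link_C f g y x := by
  induction h with
  | refl => exact Relation.ReflTransGen.refl
  | @tail b c h1 h2 ih =>
    have hb : b ∈ E :=
      Link_C_mem (fun x hx => (hf x hx).1) (fun x hx => (hg x hx).1) hx h1
    refine Relation.ReflTransGen.head ?_ ih
    rcases h2 with h2 | h2
    · left; rw [h2, (hf b hb).2]
    · right; rw [h2, (hg b hb).2]

open Classical in
/-- parity of the components after the deletion of two links -/
private theorem Link_parity {V : Type*} {E : Finset V} {f g : V → V}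
    (hf : ∀ x ∈ E, f x ∈ E ∧ f (f x) = x ∧ f x ≠ x)
    (hg : ∀ x ∈ E, g x ∈ E ∧ g (g x) = x ∧ g x ≠ x)
    {a c : V} (ha : a ∈ E) (hc : c ∈ E) (hac : a ≠ c) (hgac : g a ≠ c)
    (g0 : V → V) (hg0s : ∀ u, (u = a ∨ u = g a ∨ u = c ∨ u = g c) → g0 u = u)
    (hg0n : ∀ u, ¬ (u = a ∨ u = g a ∨ u = c ∨ u = g c) → g0 u = g u) :
    (Link_C f g0 a (g a) ∧ Link_C f g0 c (g c)) ∨ (Link_C f g0 a c ∧ Link_C f g0 (g a) (g c)) ∨
      (Link_C f g0 a (g c) ∧ Link_C f g0 (g a) c) := by
  have hb : g a ∈ E := (hg a ha).1
  have hd : g c ∈ E := (hg c hc).1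
  have hab : g a ≠ a := (hg a ha).2.2
  have hcd : g c ≠ c := (hg c hc).2.2
  have had : g c ≠ a := fun h => hgac (by rw [← h, (hg c hc).2.1])
  have hbd : g a ≠ g c := fun h => hac (by rw [← (hg a ha).2.1, h, (hg c hc).2.1])
  have hP : ∀ u ∈ E, (u = a ∨ u = g a ∨ u = c ∨ u = g c) →
      (g u = a ∨ g u = g a ∨ g u = c ∨ g u = g c) := by
    rintro u hu (h | h | h | h)
    · right; left; rw [h]
    · left; rw [h, (hg a ha).2.1]
    · right; right; right; rw [h]
    · right; right; left; rw [h, (hg c hc).2.1]
  have hP' : ∀ u ∈ E, ¬ (u = a ∨ u = g a ∨ u = c ∨ u = g c) →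
      ¬ (g u = a ∨ g u = g a ∨ g u = c ∨ g u = g c) := by
    intro u hu h h'
    apply h
    have := hP (g u) (hg u hu).1 h'
    rwa [(hg u hu).2.1] at this
  have hg0E : ∀ x ∈ E, g0 x ∈ E ∧ g0 (g0 x) = x := by
    intro u hu
    by_cases h : u = a ∨ u = g a ∨ u = c ∨ u = g c
    · have e : g0 u = u := hg0s u h
      rw [e]; exact ⟨hu, e⟩
    · have e : g0 u = g u := hg0n u h
      have e' : g0 (g u) = g (g u) := hg0n _ (hP' u hu h)
      rw [e, e']; exact ⟨(hg u hu).1, (hg u hu).2.1⟩
  have hfE : ∀ x ∈ E, f x ∈ E ∧ f (f x) = x := fun x hx => ⟨(hf x hx).1, (hf x hx).2.1⟩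
  -- the class of `x`
  have hcl : ∀ x ∈ E, Even ((({a, g a, c, g c} : Finset V)).filter (fun y => Link_C f g0 x y)).card := by
    intro x hx
    set K : Finset V := E.filter (fun y => Link_C f g0 x y) with hK
    have hKf : ∀ y ∈ K, f y ∈ K ∧ f (f y) = y ∧ f y ≠ y := by
      intro y hy
      rw [hK, Finset.mem_filter] at hy
      refine ⟨?_, (hf y hy.1).2.1, (hf y hy.1).2.2⟩
      rw [hK, Finset.mem_filter]
      exact ⟨(hf y hy.1).1, hy.2.tail (Or.inl rfl)⟩
    have h1 : Even K.card := Link_even K f hKf
    have h2 : Even (K.filter (fun y => ¬ (y = a ∨ y = g a ∨ y = c ∨ y = g c))).card := by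
      refine Link_even _ g ?_
      intro y hy
      rw [Finset.mem_filter, hK, Finset.mem_filter] at hy
      obtain ⟨⟨hyE, hyC⟩, hyn⟩ := hy
      refine ⟨?_, (hg y hyE).2.1, (hg y hyE).2.2⟩
      rw [Finset.mem_filter, hK, Finset.mem_filter]
      refine ⟨⟨(hg y hyE).1, hyC.tail (Or.inr ?_)⟩, hP' y hyE hyn⟩
      exact (hg0n y hyn).symm
    have h3 : (K.filter (fun y => (y = a ∨ y = g a ∨ y = c ∨ y = g c))).card +
        (K.filter (fun y => ¬ (y = a ∨ y = g a ∨ y = c ∨ y = g c))).card = K.card :=
      Finset.card_filter_add_card_filter_not _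
    have h4 : K.filter (fun y => (y = a ∨ y = g a ∨ y = c ∨ y = g c)) =
        (({a, g a, c, g c} : Finset V)).filter (fun y => Link_C f g0 x y) := by
      ext y
      simp only [hK, Finset.mem_filter, Finset.mem_insert, Finset.mem_singleton]
      constructor
      · rintro ⟨⟨_, h5⟩, h6⟩
        exact ⟨h6, h5⟩
      · rintro ⟨h6, h5⟩
        refine ⟨⟨?_, h5⟩, h6⟩
        rcases h6 with h | h | h | h <;> rw [h] <;> assumption
    rw [← h4]
    rw [← h3] at h1
    exact (Nat.even_add.1 h1).2 h2
  have hsymm : ∀ {x y : V}, x ∈ E → Link_C f g0 x y → Link_C f g0 y x :=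
    fun hx h => Link_C_symm hfE hg0E hx h
  have htr : ∀ {x y z : V}, Link_C f g0 x y → Link_C f g0 y z → Link_C f g0 x z :=
    fun h h' => Relation.ReflTransGen.trans h h'
  have hcount : ∀ x, (({a, g a, c, g c} : Finset V)).filter (fun y => Link_C f g0 x y) =
      (((if Link_C f g0 x a then {a} else ∅ : Finset V) ∪
        (if Link_C f g0 x (g a) then {g a} else ∅ : Finset V)) ∪
        (if Link_C f g0 x c then {c} else ∅ : Finset V)) ∪
        (if Link_C f g0 x (g c) then {g c} else ∅ : Finset V) := by
    intro x
    ext y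
    simp only [Finset.mem_filter, Finset.mem_insert, Finset.mem_singleton, Finset.mem_union]
    constructor
    · rintro ⟨h | h | h | h, h'⟩
      · subst h; left; left; left; rw [if_pos h']; exact Finset.mem_singleton_self _
      · subst h; left; left; right; rw [if_pos h']; exact Finset.mem_singleton_self _
      · subst h; left; right; rw [if_pos h']; exact Finset.mem_singleton_self _
      · subst h; right; rw [if_pos h']; exact Finset.mem_singleton_self _
    · rintro (((h | h) | h) | h)
      all_goals
        split_ifs at h with h5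
        · have h6 := Finset.mem_singleton.1 h
          subst h6
          exact ⟨by tauto, h5⟩
        · exact absurd h (Finset.notMem_empty _)
  have hne : a ≠ g a := hab.symm
  -- the class of `a`
  have hA := hcl a ha
  have haa : Link_C f g0 a a := Relation.ReflTransGen.refl
  have hcc : Link_C f g0 c c := Relation.ReflTransGen.refl
  by_cases h1 : Link_C f g0 a (g a)
  · by_cases h2 : Link_C f g0 c (g c)
    · exact Or.inl ⟨h1, h2⟩
    · -- the class of `c` contains `c` and not `g c`; so exactly one of `a`, `g a`: impossible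
      exfalso
      have hC := hcl c hc
      have h3 : Link_C f g0 c a ↔ Link_C f g0 c (g a) :=
        ⟨fun h => htr h h1, fun h => htr h (hsymm ha h1)⟩
      rw [hcount c, if_pos hcc, if_neg h2] at hC
      by_cases h4 : Link_C f g0 c a
      · rw [if_pos h4, if_pos (h3.1 h4), Finset.union_empty] at hC
        rw [Finset.card_union_of_disjoint, Finset.card_union_of_disjoint] at hC
        · simp only [Finset.card_singleton] at hC
          revert hC; decide
        · rw [Finset.disjoint_singleton]; exact hne
        · rw [Finset.disjoint_singleton_right, Finset.mem_union, Finset.mem_singleton,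
            Finset.mem_singleton]
          rintro (h | h)
          · exact hac h.symm
          · exact hgac h.symm
      · rw [if_neg h4, if_neg (fun h => h4 (h3.2 h)), Finset.union_empty, Finset.empty_union,
          Finset.empty_union, Finset.card_singleton] at hC
        revert hC; decide
  · -- the class of `a` contains exactly one of `c`, `g c`
    rw [hcount a, if_pos haa, if_neg h1, Finset.union_empty] at hA
    by_cases h2 : Link_C f g0 a c
    · by_cases h3 : Link_C f g0 a (g c)
      · exfalso
        rw [if_pos h2, if_pos h3] at hA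
        rw [Finset.card_union_of_disjoint, Finset.card_union_of_disjoint] at hA
        · simp only [Finset.card_singleton] at hA
          revert hA; decide
        · rw [Finset.disjoint_singleton]; exact hac
        · rw [Finset.disjoint_singleton_right, Finset.mem_union, Finset.mem_singleton,
            Finset.mem_singleton]
          rintro (h | h)
          · exact had h
          · exact hcd h
      · -- then the class of `g a` contains `g c`
        right; left
        refine ⟨h2, ?_⟩
        have hB := hcl (g a) hb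
        have hbb : Link_C f g0 (g a) (g a) := Relation.ReflTransGen.refl
        have h4 : ¬ Link_C f g0 (g a) a := fun h => h1 (hsymm hb h)
        have h5 : ¬ Link_C f g0 (g a) c := fun h => h4 (htr h (hsymm ha h2))
        rw [hcount (g a), if_neg h4, if_pos hbb, if_neg h5, Finset.empty_union,
          Finset.union_empty] at hB
        by_contra h6
        rw [if_neg h6, Finset.union_empty, Finset.card_singleton] at hB
        revert hB; decide
    · by_cases h3 : Link_C f g0 a (g c)
      · right; right
        refine ⟨h3, ?_⟩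
        have hB := hcl (g a) hb
        have hbb : Link_C f g0 (g a) (g a) := Relation.ReflTransGen.refl
        have h4 : ¬ Link_C f g0 (g a) a := fun h => h1 (hsymm hb h)
        have h5 : ¬ Link_C f g0 (g a) (g c) := fun h => h4 (htr h (hsymm ha h3))
        by_contra h6
        rw [hcount (g a), if_neg h4, if_pos hbb, if_neg h6, if_neg h5, Finset.empty_union,
          Finset.union_empty, Finset.union_empty, Finset.card_singleton] at hB
        revert hB; decide
      · exfalso
        rw [if_neg h2, if_neg h3, Finset.union_empty, Finset.union_empty,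
          Finset.card_singleton] at hA
        revert hA; decide

/-- the conditions on the links -/
private def Link_G {V ι : Type*} [DecidableEq V] (E : ι → Finset V) (β : V → V) : Prop :=
  (∀ i j, i ≠ j → ∀ x ∈ E i ∩ E j, β x ∈ E i ∩ E j) ∧ (∀ i, ∀ x ∈ E i, β (β x) = x ∧ β x ≠ x)

private theorem Link_G_mem {V ι : Type*} [DecidableEq V] {E : ι → Finset V} {β : V → V}
    (h1 : ∀ x i, x ∈ E i → ∃ j, j ≠ i ∧ x ∈ E j) (hG : Link_G E β) {i : ι} {x : V}
    (hx : x ∈ E i) : β x ∈ E i := by
  obtain ⟨j, hji, hj⟩ := h1 x i hx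
  exact (mem_inter.1 (hG.1 i j hji.symm x (mem_inter.2 ⟨hx, hj⟩))).1

private theorem Link_exists {V ι : Type*} [Fintype V] [DecidableEq V] [Fintype ι]
    [DecidableEq ι] (E : ι → Finset V)
    (h1 : ∀ x i, x ∈ E i → ∃ j, j ≠ i ∧ x ∈ E j)
    (h2 : ∀ x i j k, x ∈ E i → x ∈ E j → x ∈ E k → i = j ∨ j = k ∨ i = k)
    (hev : ∀ i j, i ≠ j → Even (E i ∩ E j).card) : ∃ β, Link_G E β := by
  classical
  let cl : V → Finset ι := fun x => univ.filter (fun i => x ∈ E i)
  have hcl : ∀ x i, i ∈ cl x ↔ x ∈ E i := by
    intro x i
    simp only [cl, mem_filter, mem_univ, true_and]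
  let fib : Finset ι → Finset V := fun T => univ.filter (fun x => cl x = T)
  have hfm : ∀ T x, x ∈ fib T ↔ cl x = T := by
    intro T x
    simp only [fib, mem_filter, mem_univ, true_and]
  have hb : ∀ T, ∃ b : V → V, Even (fib T).card →
      ∀ x ∈ fib T, b x ∈ fib T ∧ b (b x) = x ∧ b x ≠ x := by
    intro T
    by_cases h : Even (fib T).card
    · obtain ⟨n, hn⟩ := h
      obtain ⟨b, hb⟩ := Link_pairing n (fib T) (by omega)
      exact ⟨b, fun _ => hb⟩
    · exact ⟨id, fun h' => absurd h' h⟩
  choose b hb using hb
  have hfib : ∀ i j, i ≠ j → ∀ x ∈ E i ∩ E j, fib (cl x) = E i ∩ E j := by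
    intro i j hij x hx
    rw [mem_inter] at hx
    ext y
    rw [hfm, mem_inter]
    constructor
    · intro h
      refine ⟨?_, ?_⟩
      · rw [← hcl, h, hcl]; exact hx.1
      · rw [← hcl, h, hcl]; exact hx.2
    · rintro ⟨hyi, hyj⟩
      ext k
      rw [hcl, hcl]
      constructor
      · intro hk
        rcases h2 y i j k hyi hyj hk with h | h | h
        · exact absurd h hij
        · rw [← h]; exact hx.2
        · rw [← h]; exact hx.1
      · intro hk
        rcases h2 x i j k hx.1 hx.2 hk with h | h | h
        · exact absurd h hij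
        · rw [← h]; exact hyj
        · rw [← h]; exact hyi
  refine ⟨fun x => b (cl x) x, ?_, ?_⟩
  · intro i j hij x hx
    have h3 := hfib i j hij x hx
    have h4 := hb (cl x) (by rw [h3]; exact hev i j hij) x (by rw [h3]; exact hx)
    rw [h3] at h4
    exact h4.1
  · intro i x hx
    obtain ⟨j, hji, hj⟩ := h1 x i hx
    have hx' : x ∈ E i ∩ E j := mem_inter.2 ⟨hx, hj⟩
    have h3 := hfib i j hji.symm x hx'
    have h4 := hb (cl x) (by rw [h3]; exact hev i j hji.symm) x (by rw [h3]; exact hx')
    have h5 : cl (b (cl x) x) = cl x := (hfm _ _).1 h4.1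
    refine ⟨?_, h4.2.2⟩
    show b (cl (b (cl x) x)) (b (cl x) x) = x
    rw [h5]
    exact h4.2.1

/-- change of two links -/
private theorem Link_swap {V ι : Type*} [DecidableEq V] {E : ι → Finset V} {α : ι → V → V}
    (hα : ∀ i, ∀ x ∈ E i, α i x ∈ E i ∧ α i (α i x) = x ∧ α i x ≠ x)
    (h1 : ∀ x i, x ∈ E i → ∃ j, j ≠ i ∧ x ∈ E j)
    (h2 : ∀ x i j k, x ∈ E i → x ∈ E j → x ∈ E k → i = j ∨ j = k ∨ i = k)
    {β : V → V} (hG : Link_G E β) {i j : ι} (hij : i ≠ j) {p q : V} (hp : p ∈ E i ∩ E j)
    (hq : q ∈ E i ∩ E j) (hpq : p ≠ q) (hpq' : β p ≠ q) (β' : V → V)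
    (hβ' : β' = fun u => if u = p then q else if u = q then p else if u = β p then β q else
      if u = β q then β p else β u)
    (hT : ∀ l, l = i ∨ l = j → (Link_C (α l) β' p (β p) ∧ Link_C (α l) β' q (β q)) ∨
      (Link_C (α l) β' p (β q) ∧ Link_C (α l) β' (β p) q)) :
    Link_G E β' ∧ (∀ l x y, x ∈ E l → Link_C (α l) β x y → Link_C (α l) β' x y) ∧
      ∀ l, l = i ∨ l = j → Link_C (α l) β' p q ∧ Link_C (α l) β' p (β q) := by
  have hpi := (mem_inter.1 hp).1
  have hpj := (mem_inter.1 hp).2
  have hqi := (mem_inter.1 hq).1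
  have hqj := (mem_inter.1 hq).2
  have hbp := hG.1 i j hij p hp
  have hbq := hG.1 i j hij q hq
  have e1 : β (β p) = p := (hG.2 i p hpi).1
  have e2 : β (β q) = q := (hG.2 i q hqi).1
  have n1 : β p ≠ p := (hG.2 i p hpi).2
  have n2 : β q ≠ q := (hG.2 i q hqi).2
  have n3 : β q ≠ p := fun h => hpq' (by rw [← h, e2])
  have n4 : β p ≠ β q := fun h => hpq (by rw [← e1, h, e2])
  have v1 : β' p = q := by rw [hβ']; exact if_pos rfl
  have v2 : β' q = p := by
    rw [hβ']
    show (if q = p then q else if q = q then p else if q = β p then β q else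
      if q = β q then β p else β q) = p
    rw [if_neg hpq.symm, if_pos rfl]
  have v3 : β' (β p) = β q := by
    rw [hβ']
    show (if β p = p then q else if β p = q then p else if β p = β p then β q else
      if β p = β q then β p else β (β p)) = β q
    rw [if_neg n1, if_neg hpq', if_pos rfl]
  have v4 : β' (β q) = β p := by
    rw [hβ']
    show (if β q = p then q else if β q = q then p else if β q = β p then β q else
      if β q = β q then β p else β (β q)) = β p
    rw [if_neg n3, if_neg n2, if_neg n4.symm, if_pos rfl]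
  have v5 : ∀ u, ¬ (u = p ∨ u = q ∨ u = β p ∨ u = β q) → β' u = β u := by
    intro u hu
    have w1 : u ≠ p := fun h => hu (Or.inl h)
    have w2 : u ≠ q := fun h => hu (Or.inr (Or.inl h))
    have w3 : u ≠ β p := fun h => hu (Or.inr (Or.inr (Or.inl h)))
    have w4 : u ≠ β q := fun h => hu (Or.inr (Or.inr (Or.inr h)))
    rw [hβ']
    show (if u = p then q else if u = q then p else if u = β p then β q else
      if u = β q then β p else β u) = β u
    rw [if_neg w1, if_neg w2, if_neg w3, if_neg w4]
  have h4 : ∀ u, (u = p ∨ u = q ∨ u = β p ∨ u = β q) → u ∈ E i ∧ u ∈ E j := by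
    rintro u (h | h | h | h)
    · rw [h]; exact ⟨hpi, hpj⟩
    · rw [h]; exact ⟨hqi, hqj⟩
    · rw [h]; exact mem_inter.1 hbp
    · rw [h]; exact mem_inter.1 hbq
  have h4' : ∀ u, (u = p ∨ u = q ∨ u = β p ∨ u = β q) →
      (β' u = p ∨ β' u = q ∨ β' u = β p ∨ β' u = β q) ∧ β' (β' u) = u ∧ β' u ≠ u := by
    rintro u (h | h | h | h)
    · rw [h, v1, v2]; exact ⟨Or.inr (Or.inl rfl), rfl, hpq.symm⟩
    · rw [h, v2, v1]; exact ⟨Or.inl rfl, rfl, hpq⟩
    · rw [h, v3, v4]; exact ⟨Or.inr (Or.inr (Or.inr rfl)), rfl, n4.symm⟩
    · rw [h, v4, v3]; exact ⟨Or.inr (Or.inr (Or.inl rfl)), rfl, n4⟩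
  have h5 : ∀ l, ∀ u ∈ E l, ¬ (u = p ∨ u = q ∨ u = β p ∨ u = β q) →
      ¬ (β u = p ∨ β u = q ∨ β u = β p ∨ β u = β q) := by
    intro l u hu hn h
    apply hn
    have hu2 : β (β u) = u := (hG.2 l u hu).1
    rcases h with h | h | h | h
    · right; right; left; rw [← hu2, h]
    · right; right; right; rw [← hu2, h]
    · left; rw [← hu2, h, e1]
    · right; left; rw [← hu2, h, e2]
  have hG' : Link_G E β' := by
    refine ⟨?_, ?_⟩
    · intro l m hlm x hx
      have hxl := (mem_inter.1 hx).1
      have hxm := (mem_inter.1 hx).2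
      by_cases h : x = p ∨ x = q ∨ x = β p ∨ x = β q
      · obtain ⟨hxi, hxj⟩ := h4 x h
        have hy := h4 _ (h4' x h).1
        have hl : l = i ∨ l = j := by
          rcases h2 x i j l hxi hxj hxl with h | h | h
          · exact absurd h hij
          · exact Or.inr h.symm
          · exact Or.inl h.symm
        have hm : m = i ∨ m = j := by
          rcases h2 x i j m hxi hxj hxm with h | h | h
          · exact absurd h hij
          · exact Or.inr h.symm
          · exact Or.inl h.symm
        rw [mem_inter]
        refine ⟨?_, ?_⟩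
        · rcases hl with hl | hl <;> rw [hl]
          · exact hy.1
          · exact hy.2
        · rcases hm with hm | hm <;> rw [hm]
          · exact hy.1
          · exact hy.2
      · rw [v5 x h]
        exact hG.1 l m hlm x hx
    · intro l x hx
      by_cases h : x = p ∨ x = q ∨ x = β p ∨ x = β q
      · exact (h4' x h).2
      · rw [v5 x h, v5 (β x) (h5 l x hx h)]
        exact hG.2 l x hx
  have hE' : ∀ l, ∀ x ∈ E l, β' x ∈ E l ∧ β' (β' x) = x :=
    fun l x hx => ⟨Link_G_mem h1 hG' hx, (hG'.2 l x hx).1⟩
  have hαE : ∀ l, ∀ x ∈ E l, α l x ∈ E l ∧ α l (α l x) = x :=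
    fun l x hx => ⟨(hα l x hx).1, (hα l x hx).2.1⟩
  have htr : ∀ {l : ι} {x y z : V}, Link_C (α l) β' x y → Link_C (α l) β' y z →
      Link_C (α l) β' x z := fun h h' => Relation.ReflTransGen.trans h h'
  have hstep : ∀ l u, Link_C (α l) β' u (β' u) :=
    fun l u => Relation.ReflTransGen.single (Or.inr rfl)
  have hpl : ∀ l, l = i ∨ l = j → ∀ u, (u = p ∨ u = q ∨ u = β p ∨ u = β q) → u ∈ E l := by
    rintro l (h | h) u hu
    · rw [h]; exact (h4 u hu).1
    · rw [h]; exact (h4 u hu).2
  -- all four points are connected with `p`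
  have hall : ∀ l, l = i ∨ l = j → ∀ u, (u = p ∨ u = q ∨ u = β p ∨ u = β q) →
      Link_C (α l) β' p u := by
    intro l hl
    have c1 : Link_C (α l) β' p q := by have := hstep l p; rwa [v1] at this
    have c2 : Link_C (α l) β' (β p) (β q) := by have := hstep l (β p); rwa [v3] at this
    have c3 : Link_C (α l) β' (β q) (β p) := by have := hstep l (β q); rwa [v4] at this
    have hqE : q ∈ E l := hpl l hl q (Or.inr (Or.inl rfl))
    have hbpE : β p ∈ E l := hpl l hl (β p) (Or.inr (Or.inr (Or.inl rfl)))
    rcases hT l hl with ⟨t1, t2⟩ | ⟨t1, t2⟩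
    · rintro u (h | h | h | h)
      · rw [h]; exact Relation.ReflTransGen.refl
      · rw [h]; exact c1
      · rw [h]; exact t1
      · rw [h]; exact htr c1 t2
    · rintro u (h | h | h | h)
      · rw [h]; exact Relation.ReflTransGen.refl
      · rw [h]; exact c1
      · rw [h]; exact htr t1 c3
      · rw [h]; exact t1
  refine ⟨hG', ?_, ?_⟩
  · intro l x y hx h
    induction h with
    | refl => exact Relation.ReflTransGen.refl
    | @tail b c hb hs ih =>
      have hbE : b ∈ E l := Link_C_mem (fun x hx => (hα l x hx).1)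
        (fun x hx => Link_G_mem h1 hG hx) hx hb
      rcases hs with hs | hs
      · exact ih.tail (Or.inl hs)
      · by_cases hn : b = p ∨ b = q ∨ b = β p ∨ b = β q
        · have hl : l = i ∨ l = j := by
            rcases h2 b i j l (h4 b hn).1 (h4 b hn).2 hbE with h | h | h
            · exact absurd h hij
            · exact Or.inr h.symm
            · exact Or.inl h.symm
          have hn' : c = p ∨ c = q ∨ c = β p ∨ c = β q := by
            rw [hs]
            rcases hn with h | h | h | h
            · right; right; left; rw [h]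
            · right; right; right; rw [h]
            · left; rw [h, e1]
            · right; left; rw [h, e2]
          have k1 := hall l hl b hn
          have k2 := hall l hl c hn'
          have hpE : p ∈ E l := hpl l hl p (Or.inl rfl)
          exact htr ih (htr (Link_C_symm (hαE l) (hE' l) hpE k1) k2)
        · refine ih.tail (Or.inr ?_)
          rw [v5 b hn]; exact hs
  · intro l hl
    exact ⟨hall l hl q (Or.inr (Or.inl rfl)), hall l hl (β q) (Or.inr (Or.inr (Or.inr rfl)))⟩

theorem link {V ι : Type*} [Fintype V] [DecidableEq V] [Fintype ι] [DecidableEq ι]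
    (E : ι → Finset V) (α : ι → V → V)
    (hα : ∀ i, ∀ x ∈ E i, α i x ∈ E i ∧ α i (α i x) = x ∧ α i x ≠ x)
    (h1 : ∀ x i, x ∈ E i → ∃ j, j ≠ i ∧ x ∈ E j)
    (h2 : ∀ x i j k, x ∈ E i → x ∈ E j → x ∈ E k → i = j ∨ j = k ∨ i = k)
    (hev : ∀ i j, i ≠ j → Even (E i ∩ E j).card)
    (hc : ∀ i j k, j ≠ i → k ≠ i → (E i ∩ E j).Nonempty → (E i ∩ E k).Nonempty →
      Relation.ReflTransGen (fun j k => k ≠ i ∧ ∃ x ∈ E i ∩ E j, α i x ∈ E k) j k) :
    ∃ β : V → V, (∀ i j, i ≠ j → ∀ x ∈ E i ∩ E j, β x ∈ E i ∩ E j) ∧
      (∀ i, ∀ x ∈ E i, β (β x) = x ∧ β x ≠ x) ∧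
      ∀ i, ∀ x ∈ E i, ∀ y ∈ E i,
        Relation.ReflTransGen (fun u v => v = α i u ∨ v = β u) x y := by
  classical
  obtain ⟨β0, hβ0⟩ := Link_exists E h1 h2 hev
  let bad : (V → V) → Finset (ι × V × V) := fun β => univ.filter
    (fun t => t.2.1 ∈ E t.1 ∧ t.2.2 ∈ E t.1 ∧ ¬ Link_C (α t.1) β t.2.1 t.2.2)
  have hbadm : ∀ β t, t ∈ bad β ↔
      (t.2.1 ∈ E t.1 ∧ t.2.2 ∈ E t.1 ∧ ¬ Link_C (α t.1) β t.2.1 t.2.2) := by
    intro β t
    simp only [bad, mem_filter, mem_univ, true_and]
  obtain ⟨β, hβ, hmin⟩ := Finset.exists_min_image (univ.filter (fun β : V → V => Link_G E β))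
    (fun β => (bad β).card) ⟨β0, mem_filter.2 ⟨mem_univ _, hβ0⟩⟩
  have hG : Link_G E β := (mem_filter.1 hβ).2
  have hβE : ∀ l, ∀ x ∈ E l, β x ∈ E l ∧ β (β x) = x ∧ β x ≠ x :=
    fun l x hx => ⟨Link_G_mem h1 hG hx, hG.2 l x hx⟩
  have hαE : ∀ l, ∀ x ∈ E l, α l x ∈ E l ∧ α l (α l x) = x :=
    fun l x hx => ⟨(hα l x hx).1, (hα l x hx).2.1⟩
  have hβE' : ∀ l, ∀ x ∈ E l, β x ∈ E l ∧ β (β x) = x :=
    fun l x hx => ⟨(hβE l x hx).1, (hβE l x hx).2.1⟩
  -- no improvement is possible
  have hno : ∀ β', Link_G E β' → (∀ l x y, x ∈ E l → Link_C (α l) β x y →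
      Link_C (α l) β' x y) → ∀ l x y, x ∈ E l → y ∈ E l → Link_C (α l) β' x y →
      Link_C (α l) β x y := by
    intro β' hG' hle l x y hx hy hxy
    by_contra hn
    have h3 : (bad β').card < (bad β).card := by
      apply Finset.card_lt_card
      refine ⟨?_, ?_⟩
      · intro t ht
        rw [hbadm] at ht ⊢
        exact ⟨ht.1, ht.2.1, fun h => ht.2.2 (hle _ _ _ ht.1 h)⟩
      · intro h
        have h4 : (l, x, y) ∈ bad β := (hbadm _ _).2 ⟨hx, hy, hn⟩
        have h5 := (hbadm _ _).1 (h h4)
        exact h5.2.2 hxy
    have h4 := hmin β' (mem_filter.2 ⟨mem_univ _, hG'⟩)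
    exact absurd h3 (not_lt.2 h4)
  -- all vertices of a class are connected
  have hclass : ∀ i j, i ≠ j → ∀ x ∈ E i ∩ E j, ∀ y ∈ E i ∩ E j, Link_C (α i) β x y := by
    intro i j hij a ha c hc'
    by_cases hac : a = c
    · rw [hac]; exact Relation.ReflTransGen.refl
    by_cases hbc : β a = c
    · rw [← hbc]; exact Relation.ReflTransGen.single (Or.inr rfl)
    by_contra hn
    have hai := (mem_inter.1 ha).1
    have haj := (mem_inter.1 ha).2
    have hci := (mem_inter.1 hc').1
    have hcj := (mem_inter.1 hc').2
    obtain ⟨g0, hg0⟩ : ∃ g0 : V → V, g0 = fun u =>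
      if u = a ∨ u = β a ∨ u = c ∨ u = β c then u else β u := ⟨_, rfl⟩
    have hg0s : ∀ u, (u = a ∨ u = β a ∨ u = c ∨ u = β c) → g0 u = u := by
      intro u hu
      rw [hg0]; exact if_pos hu
    have hg0n : ∀ u, ¬ (u = a ∨ u = β a ∨ u = c ∨ u = β c) → g0 u = β u := by
      intro u hu
      rw [hg0]; exact if_neg hu
    have hPi := Link_parity (hα i) (hβE i) hai hci hac hbc g0 hg0s hg0n
    have hPj := Link_parity (hα j) (hβE j) haj hcj hac hbc g0 hg0s hg0n
    -- comparison of `g0` with any `β'` equal to `β` off the four points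
    have hcmp : ∀ β' : V → V, (∀ u, ¬ (u = a ∨ u = β a ∨ u = c ∨ u = β c) → β' u = β u) →
        ∀ l x y, Link_C (α l) g0 x y → Link_C (α l) β' x y := by
      intro β' h' l x y h
      induction h with
      | refl => exact Relation.ReflTransGen.refl
      | @tail b e hb hs ih =>
        rcases hs with hs | hs
        · exact ih.tail (Or.inl hs)
        · by_cases hu : b = a ∨ b = β a ∨ b = c ∨ b = β c
          · rw [hg0s b hu] at hs
            rw [hs]; exact ih
          · rw [hg0n b hu] at hs
            refine ih.tail (Or.inr ?_)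
            rw [h' b hu]; exact hs
    have hcb : ∀ l x y, Link_C (α l) g0 x y → Link_C (α l) β x y :=
      hcmp β (fun _ _ => rfl)
    have hd1 : Link_C (α i) β (β c) c := by
      refine Relation.ReflTransGen.single (Or.inr ?_)
      rw [(hβE i c hci).2.1]
    have hPi' : Link_C (α i) g0 a (β a) ∧ Link_C (α i) g0 c (β c) := by
      rcases hPi with h | h | h
      · exact h
      · exact absurd (hcb i _ _ h.1) hn
      · exact absurd (Relation.ReflTransGen.trans (hcb i _ _ h.1) hd1) hn
    have e2 : β (β c) = c := (hβE i c hci).2.1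
    have e1 : β (β a) = a := (hβE i a hai).2.1
    by_cases hsec : Link_C (α j) g0 a c ∧ Link_C (α j) g0 (β a) (β c)
    · -- new links `a, β c` and `β a, c`
      obtain ⟨β', hβ'⟩ : ∃ β' : V → V, β' = fun u => if u = a then β c else if u = β c then a
        else if u = β a then β (β c) else if u = β (β c) then β a else β u := ⟨_, rfl⟩
      have hoff : ∀ u, ¬ (u = a ∨ u = β a ∨ u = c ∨ u = β c) → β' u = β u := by
        intro u hu
        rw [hβ']
        show (if u = a then β c else if u = β c then a
          else if u = β a then β (β c) else if u = β (β c) then β a else β u) = β u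
        rw [e2, if_neg (fun h => hu (Or.inl h)),
          if_neg (fun h => hu (Or.inr (Or.inr (Or.inr h)))),
          if_neg (fun h => hu (Or.inr (Or.inl h))),
          if_neg (fun h => hu (Or.inr (Or.inr (Or.inl h))))]
      have hc1 := hcmp β' hoff
      have hbq : β c ∈ E i ∩ E j := hG.1 i j hij c hc'
      have hne1 : a ≠ β c := fun h => hbc (by rw [h, e2])
      have hne2 : β a ≠ β c := fun h => hac (by rw [← e1, h, e2])
      have hsw := Link_swap hα h1 h2 hG hij ha hbq hne1 hne2 β' hβ' (by
        intro l hl
        rw [e2]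
        rcases hl with hl | hl
        · left
          rw [hl]
          refine ⟨hc1 i _ _ hPi'.1, ?_⟩
          have hx : Link_C (α i) g0 (β c) c := by
            refine Link_C_symm (E := E i) (hαE i) ?_ hci hPi'.2
            intro u hu
            by_cases h : u = a ∨ u = β a ∨ u = c ∨ u = β c
            · rw [hg0s u h]; exact ⟨hu, hg0s u h⟩
            · rw [hg0n u h]
              refine ⟨(hβE i u hu).1, ?_⟩
              have h' : ¬ (β u = a ∨ β u = β a ∨ β u = c ∨ β u = β c) := by
                intro h''
                apply h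
                have hu2 : β (β u) = u := (hβE i u hu).2.1
                rcases h'' with h'' | h'' | h'' | h''
                · right; left; rw [← hu2, h'']
                · left; rw [← hu2, h'', e1]
                · right; right; right; rw [← hu2, h'']
                · right; right; left; rw [← hu2, h'', e2]
              rw [hg0n _ h']; exact (hβE i u hu).2.1
          exact hc1 i _ _ hx
        · right
          rw [hl]
          exact ⟨hc1 j _ _ hsec.1, hc1 j _ _ hsec.2⟩)
      have hfin := (hsw.2.2 i (Or.inl rfl)).2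
      rw [e2] at hfin
      exact hn (hno β' hsw.1 hsw.2.1 i a c hai hci hfin)
    · -- new links `a, c` and `β a, β c`
      have hPj' : (Link_C (α j) g0 a (β a) ∧ Link_C (α j) g0 c (β c)) ∨
          (Link_C (α j) g0 a (β c) ∧ Link_C (α j) g0 (β a) c) := by
        rcases hPj with h | h | h
        · exact Or.inl h
        · exact absurd h hsec
        · exact Or.inr h
      obtain ⟨β', hβ'⟩ : ∃ β' : V → V, β' = fun u => if u = a then c else if u = c then a
        else if u = β a then β c else if u = β c then β a else β u := ⟨_, rfl⟩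
      have hoff : ∀ u, ¬ (u = a ∨ u = β a ∨ u = c ∨ u = β c) → β' u = β u := by
        intro u hu
        rw [hβ']
        show (if u = a then c else if u = c then a
          else if u = β a then β c else if u = β c then β a else β u) = β u
        rw [if_neg (fun h => hu (Or.inl h)),
          if_neg (fun h => hu (Or.inr (Or.inr (Or.inl h)))),
          if_neg (fun h => hu (Or.inr (Or.inl h))),
          if_neg (fun h => hu (Or.inr (Or.inr (Or.inr h))))]
      have hc1 := hcmp β' hoff
      have hsw := Link_swap hα h1 h2 hG hij ha hc' hac hbc β' hβ' (by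
        intro l hl
        rcases hl with hl | hl
        · left
          rw [hl]
          exact ⟨hc1 i _ _ hPi'.1, hc1 i _ _ hPi'.2⟩
        · rw [hl]
          rcases hPj' with h | h
          · exact Or.inl ⟨hc1 j _ _ h.1, hc1 j _ _ h.2⟩
          · exact Or.inr ⟨hc1 j _ _ h.1, hc1 j _ _ h.2⟩)
      have hfin := (hsw.2.2 i (Or.inl rfl)).1
      exact hn (hno β' hsw.1 hsw.2.1 i a c hai hci hfin)
  refine ⟨β, hG.1, hG.2, ?_⟩
  intro i x hx y hy
  obtain ⟨j, hji, hj⟩ := h1 x i hx
  obtain ⟨k, hki, hk⟩ := h1 y i hy
  have hchain := hc i j k hji hki ⟨x, mem_inter.2 ⟨hx, hj⟩⟩ ⟨y, mem_inter.2 ⟨hy, hk⟩⟩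
  have hgen : ∀ k, Relation.ReflTransGen (fun j k => k ≠ i ∧ ∃ x ∈ E i ∩ E j, α i x ∈ E k) j k →
      ∀ y ∈ E i ∩ E k, Link_C (α i) β x y := by
    intro k hk
    induction hk with
    | refl =>
      intro y hy
      exact hclass i j hji.symm x (mem_inter.2 ⟨hx, hj⟩) y hy
    | @tail m m' hm hs ih =>
      intro y hy
      obtain ⟨hm'i, z, hz, hz'⟩ := hs
      have hzi := (mem_inter.1 hz).1
      have h3 : Link_C (α i) β x (α i z) := (ih z hz).tail (Or.inl rfl)
      exact Relation.ReflTransGen.trans h3 (hclass i m' hm'i.symm (α i z)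
        (mem_inter.2 ⟨(hα i z hzi).1, hz'⟩) y hy)
  exact hgen k hchain y (mem_inter.2 ⟨hy, hk⟩)

end Pool.Agent.H.MP_5bc4af.L3
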