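import Pool.Agent.H.MP_5bc4af_co.L3.Col
import Pool.Agent.H.MP_5bc4af_co.L3.Link

/-!
# Linear forests with matching ends are a sum of as many cycles

`crit`: `link` for `E i = univ.filter fun x => dg (f i) x = 1`, `α i = θ i` (an end of `f i` goes to
an end: `low`, `iso`, `inv`), then `colour` in every colour and `Cov.sum`; the links cancel:
`∑ i, lk (E i) β = 0` because every link `x (β x)` is in exactly two of the `lk (E i) β`
(`x ∈ E i ↔ β x ∈ E i` for all `i`).

`crit3`: three colours `f, g, h`. By `hb` and `bd_eq_dg` the number of colours in which a vertex has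
odd degree (that is, degree one) is even: zero or two. The number of ends of each colour is even
(`θ` is an involution without fixed points), so all three classes are even. `hc` by `c1, c2, c3` and
`uni`: the path from `x` to `y` has the ends `x` and `y = θ x` (`y ≠ x` because the classes differ).
-/

namespace Pool.Agent.H.MP_5bc4af.L3

open Finset Pool.Agent.H.MP_5bc4af.H5

variable {V : Type*} [Fintype V] [DecidableEq V]

/-- an end goes to the other end -/
private theorem Crit_end {f : Sym2 V → ZMod 2} {θ : V → V} (h : LF f θ) {x : V}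
    (hx : dg f x = 1) : dg f (θ x) = 1 ∧ θ (θ x) = x ∧ θ x ≠ x := by
  have h1 := h.low x hx.le
  have h2 := h.inv x hx.le
  have h3 := h.one x hx
  refine ⟨?_, h2, h3⟩
  rcases Nat.eq_zero_or_pos (dg f (θ x)) with h4 | h4
  · have h5 := h.iso _ h4
    rw [h2] at h5
    exact absurd h5.symm h3
  · omega

/-- every link is in exactly two colours -/
private theorem Crit_links {ι : Type*} [Fintype ι] [DecidableEq ι] (E : ι → Finset V) (β : V → V)
    (h1 : ∀ x i, x ∈ E i → ∃ j, j ≠ i ∧ x ∈ E j)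
    (h2 : ∀ x i j k, x ∈ E i → x ∈ E j → x ∈ E k → i = j ∨ j = k ∨ i = k)
    (hβ : ∀ i, ∀ x ∈ E i, β x ∈ E i) : ∑ i, lk (E i) β = 0 := by
  funext e
  rw [Finset.sum_apply, Pi.zero_apply]
  by_cases he : ∃ i, ∃ x ∈ E i, e = s(x, β x)
  · obtain ⟨i, x, hx, rfl⟩ := he
    obtain ⟨j, hji, hxj⟩ := h1 x i hx
    have h3 : ∀ l, lk (E l) β s(x, β x) = if x ∈ E l then 1 else 0 := by
      intro l
      unfold lk
      by_cases hl : x ∈ E l
      · rw [if_pos hl, if_pos ⟨x, hl, rfl⟩]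
      · rw [if_neg hl, if_neg]
        rintro ⟨y, hy, hxy⟩
        rw [Sym2.eq_iff] at hxy
        rcases hxy with ⟨h4, -⟩ | ⟨h4, -⟩
        · rw [h4] at hl
          exact hl hy
        · rw [h4] at hl
          exact hl (hβ l y hy)
    rw [Finset.sum_congr rfl fun l _ => h3 l, Finset.sum_boole]
    have h4 : (univ.filter fun l => x ∈ E l) = {i, j} := by
      ext l
      rw [Finset.mem_filter, Finset.mem_insert, Finset.mem_singleton]
      constructor
      · rintro ⟨-, hl⟩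
        rcases h2 x l i j hl hx hxj with h5 | h5 | h5
        · exact Or.inl h5
        · exact absurd h5.symm hji
        · exact Or.inr h5
      · rintro (rfl | rfl)
        · exact ⟨Finset.mem_univ _, hx⟩
        · exact ⟨Finset.mem_univ _, hxj⟩
    rw [h4, Finset.card_pair (Ne.symm hji)]
    rfl
  · refine Finset.sum_eq_zero fun l _ => ?_
    unfold lk
    rw [if_neg]
    rintro ⟨x, hx, hxe⟩
    exact he ⟨l, x, hx, hxe⟩

theorem crit {ι : Type*} [Fintype ι] [DecidableEq ι] (f : ι → Sym2 V → ZMod 2) (θ : ι → V → V)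
    (hL : ∀ i, LF (f i) (θ i))
    (h1 : ∀ x i, dg (f i) x = 1 → ∃ j, j ≠ i ∧ dg (f j) x = 1)
    (h2 : ∀ x i j k, dg (f i) x = 1 → dg (f j) x = 1 → dg (f k) x = 1 → i = j ∨ j = k ∨ i = k)
    (hev : ∀ i j, i ≠ j → Even (univ.filter fun x => dg (f i) x = 1 ∧ dg (f j) x = 1).card)
    (hc : ∀ i j k, j ≠ i → k ≠ i → (∃ x, dg (f i) x = 1 ∧ dg (f j) x = 1) →
      (∃ x, dg (f i) x = 1 ∧ dg (f k) x = 1) →
      Relation.ReflTransGen
        (fun j k => k ≠ i ∧ ∃ x, dg (f i) x = 1 ∧ dg (f j) x = 1 ∧ dg (f k) (θ i x) = 1) j k) :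
    Cov (∑ i, f i) (Fintype.card ι) := by
  classical
  obtain ⟨E, hE⟩ : ∃ E : ι → Finset V, ∀ i, E i = univ.filter fun x => dg (f i) x = 1 :=
    ⟨_, fun _ => rfl⟩
  have mE : ∀ i x, x ∈ E i ↔ dg (f i) x = 1 := by
    intro i x
    rw [hE, Finset.mem_filter]
    exact ⟨fun h => h.2, fun h => ⟨Finset.mem_univ _, h⟩⟩
  have mE2 : ∀ i j x, x ∈ E i ∩ E j ↔ dg (f i) x = 1 ∧ dg (f j) x = 1 := by
    intro i j x
    rw [Finset.mem_inter, mE, mE]
  have h1' : ∀ x i, x ∈ E i → ∃ j, j ≠ i ∧ x ∈ E j := by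
    intro x i hx
    obtain ⟨j, hj, hxj⟩ := h1 x i ((mE i x).1 hx)
    exact ⟨j, hj, (mE j x).2 hxj⟩
  have h2' : ∀ x i j k, x ∈ E i → x ∈ E j → x ∈ E k → i = j ∨ j = k ∨ i = k := by
    intro x i j k hi hj hk
    exact h2 x i j k ((mE i x).1 hi) ((mE j x).1 hj) ((mE k x).1 hk)
  obtain ⟨β, hβ1, hβ2, hβ3⟩ := link E θ (by
      intro i x hx
      obtain ⟨h3, h4, h5⟩ := Crit_end (hL i) ((mE i x).1 hx)
      exact ⟨(mE i _).2 h3, h4, h5⟩) h1' h2' (by
      intro i j hij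
      have h3 : E i ∩ E j = univ.filter fun x => dg (f i) x = 1 ∧ dg (f j) x = 1 := by
        ext x
        rw [mE2, Finset.mem_filter]
        exact ⟨fun h => ⟨Finset.mem_univ _, h⟩, fun h => h.2⟩
      rw [h3]
      exact hev i j hij) (by
      intro i j k hj hk hnj hnk
      obtain ⟨x, hx⟩ := hnj
      obtain ⟨y, hy⟩ := hnk
      refine Relation.ReflTransGen.mono ?_ _ _
        (hc i j k hj hk ⟨x, (mE2 i j x).1 hx⟩ ⟨y, (mE2 i k y).1 hy⟩)
      rintro j' k' ⟨h3, z, h4, h5, h6⟩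
      exact ⟨h3, z, (mE2 i j' z).2 ⟨h4, h5⟩, (mE k' _).2 h6⟩)
  have hβ : ∀ i, ∀ x ∈ E i, β x ∈ E i := by
    intro i x hx
    obtain ⟨j, hj, hxj⟩ := h1' x i hx
    exact (Finset.mem_inter.1 (hβ1 i j (Ne.symm hj) x (Finset.mem_inter.2 ⟨hx, hxj⟩))).1
  have h3 : ∀ i ∈ (univ : Finset ι), Cov (f i + lk (E i) β) 1 := by
    intro i _
    rw [hE]
    refine colour (hL i) ?_ ?_
    · intro x hx
      have hx' := (mE i x).2 hx
      exact ⟨(mE i _).1 (hβ i x hx'), hβ2 i x hx'⟩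
    · intro x y hx hy
      exact hβ3 i x ((mE i x).2 hx) y ((mE i y).2 hy)
  have h4 := Cov.sum univ (fun i => f i + lk (E i) β) (fun _ => 1) h3
  rw [Finset.sum_add_distrib, Crit_links E β h1' h2' hβ, add_zero] at h4
  simpa using h4

/-- the number of ends is even -/
private theorem Crit_even {f : Sym2 V → ZMod 2} {θ : V → V} (h : LF f θ) :
    Even (univ.filter fun x => dg f x = 1).card := by
  rw [← ZMod.natCast_eq_zero_iff_even, Finset.card_eq_sum_ones, Nat.cast_sum]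
  refine Finset.sum_involution (fun x _ => θ x) ?_ ?_ ?_ ?_
  · intro x _
    rfl
  · intro x hx _
    exact (Crit_end h (Finset.mem_filter.1 hx).2).2.2
  · intro x hx
    rw [Finset.mem_filter]
    exact ⟨Finset.mem_univ _, (Crit_end h (Finset.mem_filter.1 hx).2).1⟩
  · intro x hx
    exact (Crit_end h (Finset.mem_filter.1 hx).2).2.1

private theorem Crit_step {f : Sym2 V → ZMod 2} {θ : V → V} (h : LF f θ) {x y : V}
    (hx : dg f x = 1) (hy : dg f y = 1) (hc : Con f x y) (hne : y ≠ x) : θ x = y ∧ θ y = x := by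
  rcases h.uni x y hx.le hy.le hc with h1 | h1
  · exact absurd h1 hne
  · refine ⟨h1.symm, ?_⟩
    rw [h1]
    exact h.inv x hx.le

theorem crit3 {f g h : Sym2 V → ZMod 2} {θf θg θh : V → V} (hf : LF f θf) (hg : LF g θg)
    (hh : LF h θh) (hb : ∀ v, bd (f + g + h) v = 0)
    (hev : Even (univ.filter fun x => dg f x = 1 ∧ dg g x = 1).card)
    (c1 : ∃ x y, dg f x = 1 ∧ dg g x = 1 ∧ dg f y = 1 ∧ dg h y = 1 ∧ Con f x y)
    (c2 : ∃ x y, dg g x = 1 ∧ dg f x = 1 ∧ dg g y = 1 ∧ dg h y = 1 ∧ Con g x y)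
    (c3 : ∃ x y, dg h x = 1 ∧ dg f x = 1 ∧ dg h y = 1 ∧ dg g y = 1 ∧ Con h x y) :
    Cov (f + g + h) 3 := by
  have hpar : ∀ v, Even (dg f v + dg g v + dg h v) := by
    intro v
    have h1 := hb v
    rw [bd_add, bd_add, bd_eq_dg, bd_eq_dg, bd_eq_dg] at h1
    rw [← ZMod.natCast_eq_zero_iff_even]
    push_cast
    exact h1
  have hpar' : ∀ v, (dg f v = 1 ∧ dg g v = 1 ∧ dg h v ≠ 1) ∨
      (dg f v = 1 ∧ dg g v ≠ 1 ∧ dg h v = 1) ∨ (dg f v ≠ 1 ∧ dg g v = 1 ∧ dg h v = 1) ∨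
      (dg f v ≠ 1 ∧ dg g v ≠ 1 ∧ dg h v ≠ 1) := by
    intro v
    obtain ⟨r, hr⟩ := hpar v
    have h1 := hf.deg v
    have h2 := hg.deg v
    have h3 := hh.deg v
    omega
  obtain ⟨F, hF⟩ : ∃ F : Fin 3 → Sym2 V → ZMod 2, F = ![f, g, h] := ⟨_, rfl⟩
  obtain ⟨Θ, hΘ⟩ : ∃ Θ : Fin 3 → V → V, Θ = ![θf, θg, θh] := ⟨_, rfl⟩
  have F0 : F 0 = f := by rw [hF]; rfl
  have F1 : F 1 = g := by rw [hF]; rfl
  have F2 : F 2 = h := by rw [hF]; rfl
  have T0 : Θ 0 = θf := by rw [hΘ]; rfl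
  have T1 : Θ 1 = θg := by rw [hΘ]; rfl
  have T2 : Θ 2 = θh := by rw [hΘ]; rfl
  have hall : ∀ P : Fin 3 → Prop, P 0 → P 1 → P 2 → ∀ i, P i := by
    intro P p0 p1 p2 i
    fin_cases i
    · exact p0
    · exact p1
    · exact p2
  -- the classes are even
  have ev1 : Even (univ.filter fun x => dg f x = 1 ∧ dg h x = 1).card := by
    have h1 := Crit_even hf
    have h2 : (univ.filter fun x => dg f x = 1) = (univ.filter fun x => dg f x = 1 ∧ dg g x = 1) ∪
        (univ.filter fun x => dg f x = 1 ∧ dg h x = 1) := by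
      ext x
      simp only [Finset.mem_filter, Finset.mem_univ, true_and, Finset.mem_union]
      have := hpar' x
      tauto
    rw [h2, Finset.card_union_of_disjoint, Nat.even_add] at h1
    · exact h1.1 hev
    · rw [Finset.disjoint_left]
      intro x hx hx'
      simp only [Finset.mem_filter, Finset.mem_univ, true_and] at hx hx'
      have := hpar' x
      tauto
  have ev2 : Even (univ.filter fun x => dg g x = 1 ∧ dg h x = 1).card := by
    have h1 := Crit_even hg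
    have h2 : (univ.filter fun x => dg g x = 1) = (univ.filter fun x => dg f x = 1 ∧ dg g x = 1) ∪
        (univ.filter fun x => dg g x = 1 ∧ dg h x = 1) := by
      ext x
      simp only [Finset.mem_filter, Finset.mem_univ, true_and, Finset.mem_union]
      have := hpar' x
      tauto
    rw [h2, Finset.card_union_of_disjoint, Nat.even_add] at h1
    · exact h1.1 hev
    · rw [Finset.disjoint_left]
      intro x hx hx'
      simp only [Finset.mem_filter, Finset.mem_univ, true_and] at hx hx'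
      have := hpar' x
      tauto
  have hsw : ∀ a b : Sym2 V → ZMod 2, (univ.filter fun x => dg a x = 1 ∧ dg b x = 1) =
      univ.filter fun x => dg b x = 1 ∧ dg a x = 1 := by
    intro a b
    ext x
    simp only [Finset.mem_filter, Finset.mem_univ, true_and]
    exact and_comm
  -- the steps
  obtain ⟨x1, y1, a1, a2, a3, a4, a5⟩ := c1
  obtain ⟨x2, y2, b1, b2, b3, b4, b5⟩ := c2
  obtain ⟨x3, y3, d1, d2, d3, d4, d5⟩ := c3
  have n1 : y1 ≠ x1 := by
    intro hxy
    rw [hxy] at a4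
    have := hpar' x1
    tauto
  have n2 : y2 ≠ x2 := by
    intro hxy
    rw [hxy] at b4
    have := hpar' x2
    tauto
  have n3 : y3 ≠ x3 := by
    intro hxy
    rw [hxy] at d4
    have := hpar' x3
    tauto
  obtain ⟨s1, s1'⟩ := Crit_step hf a1 a3 a5 n1
  obtain ⟨s2, s2'⟩ := Crit_step hg b1 b3 b5 n2
  obtain ⟨s3, s3'⟩ := Crit_step hh d1 d3 d5 n3
  have hsum : f + g + h = ∑ i, F i := by
    rw [Fin.sum_univ_three, F0, F1, F2]
  rw [hsum]
  refine crit F Θ ?_ ?_ ?_ ?_ ?_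
  · refine hall _ ?_ ?_ ?_
    · rw [F0, T0]
      exact hf
    · rw [F1, T1]
      exact hg
    · rw [F2, T2]
      exact hh
  · intro x
    have hx := hpar' x
    refine hall _ ?_ ?_ ?_
    · rw [F0]
      intro h1
      rcases hx with hx | hx | hx | hx
      · exact ⟨1, by decide, by rw [F1]; exact hx.2.1⟩
      · exact ⟨2, by decide, by rw [F2]; exact hx.2.2⟩
      · exact absurd h1 hx.1
      · exact absurd h1 hx.1
    · rw [F1]
      intro h1
      rcases hx with hx | hx | hx | hx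
      · exact ⟨0, by decide, by rw [F0]; exact hx.1⟩
      · exact absurd h1 hx.2.1
      · exact ⟨2, by decide, by rw [F2]; exact hx.2.2⟩
      · exact absurd h1 hx.2.1
    · rw [F2]
      intro h1
      rcases hx with hx | hx | hx | hx
      · exact absurd h1 hx.2.2
      · exact ⟨0, by decide, by rw [F0]; exact hx.1⟩
      · exact ⟨1, by decide, by rw [F1]; exact hx.2.1⟩
      · exact absurd h1 hx.2.2
  · intro x i j k hi hj hk
    by_contra hcon
    have hno : ¬ (dg (F 0) x = 1 ∧ dg (F 1) x = 1 ∧ dg (F 2) x = 1) := by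
      rw [F0, F1, F2]
      have := hpar' x
      tauto
    apply hno
    have key : ∀ i j k : Fin 3, ¬ (i = j ∨ j = k ∨ i = k) → ∀ l : Fin 3, l = i ∨ l = j ∨ l = k := by
      decide
    have key' : ∀ l, dg (F l) x = 1 := by
      intro l
      rcases key i j k hcon l with h1 | h1 | h1
      · rw [h1]
        exact hi
      · rw [h1]
        exact hj
      · rw [h1]
        exact hk
    exact ⟨key' 0, key' 1, key' 2⟩
  · intro i j hij
    have key : ∀ i j : Fin 3, i ≠ j → (i = 0 ∧ j = 1) ∨ (i = 1 ∧ j = 0) ∨ (i = 0 ∧ j = 2) ∨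
        (i = 2 ∧ j = 0) ∨ (i = 1 ∧ j = 2) ∨ (i = 2 ∧ j = 1) := by
      decide
    rcases key i j hij with ⟨rfl, rfl⟩ | ⟨rfl, rfl⟩ | ⟨rfl, rfl⟩ | ⟨rfl, rfl⟩ | ⟨rfl, rfl⟩ |
      ⟨rfl, rfl⟩
    · rw [F0, F1]
      exact hev
    · rw [F0, F1, hsw]
      exact hev
    · rw [F0, F2]
      exact ev1
    · rw [F0, F2, hsw]
      exact ev1
    · rw [F1, F2]
      exact ev2
    · rw [F1, F2, hsw]
      exact ev2
  · intro i j k hji hki _ _
    have key : ∀ i j k : Fin 3, j ≠ i → k ≠ i → j = k ∨ (i = 0 ∧ j = 1 ∧ k = 2) ∨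
        (i = 0 ∧ j = 2 ∧ k = 1) ∨ (i = 1 ∧ j = 0 ∧ k = 2) ∨ (i = 1 ∧ j = 2 ∧ k = 0) ∨
        (i = 2 ∧ j = 0 ∧ k = 1) ∨ (i = 2 ∧ j = 1 ∧ k = 0) := by
      intro i j k h1 h2
      fin_cases i <;> fin_cases j <;> fin_cases k <;> simp_all
    rcases key i j k hji hki with rfl | ⟨rfl, rfl, rfl⟩ | ⟨rfl, rfl, rfl⟩ | ⟨rfl, rfl, rfl⟩ |
      ⟨rfl, rfl, rfl⟩ | ⟨rfl, rfl, rfl⟩ | ⟨rfl, rfl, rfl⟩
    · exact Relation.ReflTransGen.refl
    · refine Relation.ReflTransGen.single ⟨hki, x1, ?_⟩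
      rw [F0, F1, F2, T0, s1]
      exact ⟨a1, a2, a4⟩
    · refine Relation.ReflTransGen.single ⟨hki, y1, ?_⟩
      rw [F0, F1, F2, T0, s1']
      exact ⟨a3, a4, a2⟩
    · refine Relation.ReflTransGen.single ⟨hki, x2, ?_⟩
      rw [F0, F1, F2, T1, s2]
      exact ⟨b1, b2, b4⟩
    · refine Relation.ReflTransGen.single ⟨hki, y2, ?_⟩
      rw [F0, F1, F2, T1, s2']
      exact ⟨b3, b4, b2⟩
    · refine Relation.ReflTransGen.single ⟨hki, x3, ?_⟩
      rw [F0, F1, F2, T2, s3]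
      exact ⟨d1, d2, d4⟩
    · refine Relation.ReflTransGen.single ⟨hki, y3, ?_⟩
      rw [F0, F1, F2, T2, s3']
      exact ⟨d3, d4, d2⟩

end Pool.Agent.H.MP_5bc4af.L3
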