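import Pool.Agent.H.MP_5bc4af_co.helper5.Rem

/-!
# Definitions: linear forests with their path ends, chosen arcs of permutations

Graphs are vectors `f : Sym2 V → ZMod 2` as in helper5's library (`ev`, `chi`, `dg`, `bd`, `Cov`).
-/

namespace Pool.Agent.H.MP_5bc4af.L3

open Finset Pool.Agent.H.MP_5bc4af.H5

variable {V : Type*} [Fintype V] [DecidableEq V]

/-- `x` and `y` are joined by a walk in the graph `f`. -/
def Con (f : Sym2 V → ZMod 2) : V → V → Prop := Relation.ReflTransGen fun x y => f s(x, y) ≠ 0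

/-- `f` is a linear forest; `θ` sends every vertex of degree at most one to the other end of its
path (an isolated vertex to itself). -/
structure LF (f : Sym2 V → ZMod 2) (θ : V → V) : Prop where
  diag : ∀ v, f s(v, v) = 0
  deg : ∀ v, dg f v ≤ 2
  low : ∀ v, dg f v ≤ 1 → dg f (θ v) ≤ 1
  inv : ∀ v, dg f v ≤ 1 → θ (θ v) = v
  con : ∀ v, dg f v ≤ 1 → Con f v (θ v)
  iso : ∀ v, dg f v = 0 → θ v = v
  one : ∀ v, dg f v = 1 → θ v ≠ v
  uni : ∀ v w, dg f v ≤ 1 → dg f w ≤ 1 → Con f v w → w = v ∨ w = θ v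
  ex : ∀ v, ∃ w, dg f w ≤ 1 ∧ Con f v w

/-- the end map after the edge `p q` is added -/
def upd (θ : V → V) (p q : V) : V → V :=
  fun x => if x = θ p then θ q else if x = θ q then θ p else θ x

/-- the end map after the end edge `v u` is deleted (`v` has degree one) -/
def del (θ : V → V) (v u : V) : V → V :=
  fun x => if x = v then v else if x = θ v then u else if x = u then θ v else θ x

/-- the edges `v (σ v)` with `v ∈ R` -/
def arcs (σ : Equiv.Perm V) (R : Finset V) : Sym2 V → ZMod 2 := ∑ v ∈ R, ev v (σ v)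

/-- no cycle of length two -/
def P3 (σ : Equiv.Perm V) : Prop := ∀ x, σ x ≠ x → σ (σ x) ≠ x

/-- the arcs of `σ` and of `τ` are different edges -/
def Dj (σ τ : Equiv.Perm V) : Prop := ∀ x y, σ x ≠ x → τ y ≠ y → s(x, σ x) ≠ s(y, τ y)

/-- `x` is an end of one of the arcs `v (σ v)`, `v ∈ R` -/
def Inc (σ : Equiv.Perm V) (R : Finset V) (x : V) : Prop := x ∈ R ∨ σ⁻¹ x ∈ R

/-- `x` is an end of exactly one of the arcs `v (σ v)`, `v ∈ R` -/
def One (σ : Equiv.Perm V) (R : Finset V) (x : V) : Prop :=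
  (x ∈ R ∧ σ⁻¹ x ∉ R) ∨ (x ∉ R ∧ σ⁻¹ x ∈ R)

instance (σ : Equiv.Perm V) (R : Finset V) (x : V) : Decidable (Inc σ R x) :=
  inferInstanceAs (Decidable (x ∈ R ∨ σ⁻¹ x ∈ R))

instance (σ : Equiv.Perm V) (R : Finset V) (x : V) : Decidable (One σ R x) :=
  inferInstanceAs (Decidable ((x ∈ R ∧ σ⁻¹ x ∉ R) ∨ (x ∉ R ∧ σ⁻¹ x ∈ R)))

/-- the number of common vertices of the chosen arcs -/
def cc (σ τ : Equiv.Perm V) (R S : Finset V) : ℕ :=
  (univ.filter fun x => Inc σ R x ∧ Inc τ S x).card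

/-- A normal state: exactly one arc is chosen on every nontrivial cycle of `σ` (its tail is in `R`)
and of `τ` (its tail is in `S`), and the chosen arcs form a linear forest. -/
structure NS (σ τ : Equiv.Perm V) (R S : Finset V) (θ : V → V) : Prop where
  sp : P3 σ
  tp : P3 τ
  dj : Dj σ τ
  rm : ∀ v ∈ R, σ v ≠ v
  ru : ∀ v ∈ R, ∀ w ∈ R, σ.SameCycle v w → v = w
  re : ∀ x, σ x ≠ x → ∃ v ∈ R, σ.SameCycle x v
  sm : ∀ v ∈ S, τ v ≠ v
  su : ∀ v ∈ S, ∀ w ∈ S, τ.SameCycle v w → v = w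
  se : ∀ x, τ x ≠ x → ∃ v ∈ S, τ.SameCycle x v
  lf : LF (arcs σ R + arcs τ S) θ

/-- A path of the chosen arcs from `p`, which is only on a `σ`-arc, to `q`, which is only on a
`τ`-arc. -/
structure Wit (σ τ : Equiv.Perm V) (R S : Finset V) (θ : V → V) (p q : V) : Prop where
  p1 : Inc σ R p
  p2 : ¬ Inc τ S p
  q1 : Inc τ S q
  q2 : ¬ Inc σ R q
  th : θ p = q

/-- the `τ`-cycle of `x` has an arc which avoids `X` -/
def Avd (τ : Equiv.Perm V) (X : Finset V) (x : V) : Prop :=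
  ∃ t, τ.SameCycle x t ∧ t ∉ X ∧ τ t ∉ X

/-- `x` and `y` are neighbours on a cycle of `σ` -/
def Nb (σ : Equiv.Perm V) (x y : V) : Prop := y = σ x ∨ x = σ y

/-- A state of the construction: at most one arc is chosen on every cycle; two paths `p ⋯ q`, `p' ⋯ q'`; the
remaining cycles of `σ` must avoid `Y`, those of `τ` must avoid `X`. -/
structure PS (σ τ : Equiv.Perm V) (R S : Finset V) (θ : V → V) (p q p' q' : V) (X Y : Finset V) :
    Prop where
  sp : P3 σ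
  tp : P3 τ
  dj : Dj σ τ
  rm : ∀ v ∈ R, σ v ≠ v
  ru : ∀ v ∈ R, ∀ w ∈ R, σ.SameCycle v w → v = w
  sm : ∀ v ∈ S, τ v ≠ v
  su : ∀ v ∈ S, ∀ w ∈ S, τ.SameCycle v w → v = w
  lf : LF (arcs σ R + arcs τ S) θ
  w : Wit σ τ R S θ p q
  w' : Wit σ τ R S θ p' q'
  ne : p ≠ p'
  cp : p ∈ X ∨ τ p = p ∨ ∃ v ∈ S, τ.SameCycle p v
  cp' : p' ∈ X ∨ τ p' = p' ∨ ∃ v ∈ S, τ.SameCycle p' v
  cq : q ∈ Y ∨ σ q = q ∨ ∃ v ∈ R, σ.SameCycle q v
  cq' : q' ∈ Y ∨ σ q' = q' ∨ ∃ v ∈ R, σ.SameCycle q' v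
  av : ∀ x, σ x ≠ x → (∀ v ∈ R, ¬ σ.SameCycle x v) → Avd σ Y x
  bv : ∀ x, τ x ≠ x → (∀ v ∈ S, ¬ τ.SameCycle x v) → Avd τ X x

end Pool.Agent.H.MP_5bc4af.L3
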