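import Pool.Agent.H.MP_5bc4af_co.L3.Def

/-!
# Degrees after adding or deleting one edge; walks

`f + ev p q` is the graph with the edge `p q` added (if it was not there) or deleted (if it was
there).
-/

namespace Pool.Agent.H.MP_5bc4af.L3

open Finset Pool.Agent.H.MP_5bc4af.H5

variable {V : Type*} [Fintype V] [DecidableEq V]

private theorem Deg_zm (a : ZMod 2) (h : a ≠ 0) : a = 1 := by
  revert h
  revert a
  decide

theorem ev_apply' (p q x y : V) : ev p q s(x, y) =
    if p ≠ q ∧ ((x = p ∧ y = q) ∨ (x = q ∧ y = p)) then 1 else 0 := by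
  unfold ev
  by_cases hpq : p = q
  · rw [if_pos hpq, if_neg (fun h => h.1 hpq)]
    rfl
  · rw [if_neg hpq, Pi.single_apply]
    have h1 : s(x, y) = s(p, q) ↔ (x = p ∧ y = q) ∨ (x = q ∧ y = p) := by
      rw [Sym2.eq_iff]
    by_cases h : (x = p ∧ y = q) ∨ (x = q ∧ y = p)
    · rw [if_pos (h1.2 h), if_pos ⟨hpq, h⟩]
    · rw [if_neg (fun h2 => h (h1.1 h2)), if_neg (fun h2 => h h2.2)]

/-- values of `f + ev p q`: only the pair `p q` changes -/
theorem add_ev_ne (f : Sym2 V → ZMod 2) {p q x y : V} (hpq : p ≠ q)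
    (h : ¬ ((x = p ∧ y = q) ∨ (x = q ∧ y = p))) : (f + ev p q) s(x, y) = f s(x, y) := by
  rw [Pi.add_apply, ev_apply', if_neg (fun h2 => h h2.2), add_zero]

theorem add_ev_self (f : Sym2 V → ZMod 2) {p q : V} (hpq : p ≠ q) :
    (f + ev p q) s(p, q) = f s(p, q) + 1 := by
  rw [Pi.add_apply, ev_apply', if_pos ⟨hpq, Or.inl ⟨rfl, rfl⟩⟩]

private theorem Deg_p (f : Sym2 V → ZMod 2) {p q : V} (hpq : p ≠ q) (h0 : f s(p, q) = 0) :
    dg (f + ev p q) p = dg f p + 1 := by
  have h1 : (univ.filter fun w => (f + ev p q) s(p, w) ≠ 0) =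
      insert q (univ.filter fun w => f s(p, w) ≠ 0) := by
    ext w
    simp only [mem_filter, mem_univ, true_and, mem_insert]
    by_cases hw : w = q
    · subst hw
      rw [add_ev_self f hpq, h0]
      simp
    · rw [add_ev_ne f hpq (by
        rintro (h | h)
        · exact hw h.2
        · exact hpq h.1)]
      simp [hw]
  unfold dg
  rw [h1, card_insert_of_notMem (by simp [h0])]

private theorem Deg_o (f : Sym2 V → ZMod 2) {p q x : V} (hpq : p ≠ q) (hp : x ≠ p)
    (hq : x ≠ q) : dg (f + ev p q) x = dg f x := by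
  unfold dg
  congr 1
  ext w
  simp only [mem_filter, mem_univ, true_and]
  rw [add_ev_ne f hpq (by
    rintro (h | h)
    · exact hp h.1
    · exact hq h.1)]

theorem dg_add_ev (f : Sym2 V → ZMod 2) {p q : V} (hpq : p ≠ q) (h0 : f s(p, q) = 0) (x : V) :
    dg (f + ev p q) x = dg f x + (if x = p then 1 else 0) + (if x = q then 1 else 0) := by
  by_cases hp : x = p
  · subst hp
    rw [if_pos rfl, if_neg hpq, add_zero, Deg_p f hpq h0]
  · by_cases hq : x = q
    · subst hq
      rw [if_neg hp, if_pos rfl, add_zero, ev_comm p x, Deg_p f hp (by rw [Sym2.eq_swap]; exact h0)]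
    · rw [if_neg hp, if_neg hq, add_zero, add_zero, Deg_o f hpq hp hq]

theorem dg_del_ev (f : Sym2 V → ZMod 2) {p q : V} (hpq : p ≠ q) (h0 : f s(p, q) ≠ 0) (x : V) :
    dg (f + ev p q) x + (if x = p then 1 else 0) + (if x = q then 1 else 0) = dg f x := by
  have h1 : (f + ev p q) s(p, q) = 0 := by
    rw [add_ev_self f hpq, Deg_zm _ h0]
    decide
  have h2 : f + ev p q + ev p q = f := by
    funext z
    rw [Pi.add_apply, Pi.add_apply, add_assoc]
    have : ∀ a : ZMod 2, a + a = 0 := by decide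
    rw [this, add_zero]
  have h3 := dg_add_ev (f + ev p q) hpq h1 x
  rw [h2] at h3
  exact h3.symm

theorem bd_eq_dg (f : Sym2 V → ZMod 2) (v : V) : bd f v = (dg f v : ZMod 2) := by
  unfold bd dg
  rw [card_filter]
  push_cast
  refine sum_congr rfl fun w _ => ?_
  by_cases h : f s(v, w) = 0
  · simp [h]
  · rw [if_pos h, Deg_zm _ h]

theorem Con.symm' {f : Sym2 V → ZMod 2} {x y : V} (h : Con f x y) : Con f y x := by
  unfold Con at *
  induction h with
  | refl => exact Relation.ReflTransGen.refl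
  | tail _ hbc ih =>
    refine Relation.ReflTransGen.head ?_ ih
    rw [Sym2.eq_swap]
    exact hbc

theorem Con.step {f : Sym2 V → ZMod 2} {x y : V} (h : f s(x, y) ≠ 0) : Con f x y :=
  Relation.ReflTransGen.single h

private theorem Deg_nb {f : Sym2 V → ZMod 2} {x w : V} (h : f s(x, w) ≠ 0) : 0 < dg f x := by
  unfold dg
  exact card_pos.2 ⟨w, mem_filter.2 ⟨mem_univ w, h⟩⟩

/-- a vertex of degree zero is alone -/
theorem con_iso {f : Sym2 V → ZMod 2} {x y : V} (hx : dg f x = 0) (h : Con f x y) : y = x := by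
  rcases Relation.ReflTransGen.cases_head h with h1 | ⟨c, hc, _⟩
  · exact h1.symm
  · have := Deg_nb hc
    omega

/-- a vertex of degree one has exactly one neighbour -/
theorem nb_one {f : Sym2 V → ZMod 2} {x u w : V} (hx : dg f x = 1) (hu : f s(x, u) ≠ 0)
    (hw : f s(x, w) ≠ 0) : w = u := by
  unfold dg at hx
  exact card_le_one.1 hx.le w (mem_filter.2 ⟨mem_univ w, hw⟩) u (mem_filter.2 ⟨mem_univ u, hu⟩)

/-- two adjacent vertices of degree one are a component -/
theorem con_pair {f : Sym2 V → ZMod 2} {x u y : V} (hx : dg f x = 1) (hu : dg f u = 1)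
    (hxu : f s(x, u) ≠ 0) (h : Con f x y) : y = x ∨ y = u := by
  unfold Con at h
  induction h with
  | refl => exact Or.inl rfl
  | tail _ hbc ih =>
    rcases ih with h1 | h1
    · rw [h1] at hbc
      exact Or.inr (nb_one hx hxu hbc)
    · rw [h1] at hbc
      exact Or.inl (nb_one hu (by rw [Sym2.eq_swap]; exact hxu) hbc)

/-- walks in `f` when all edges of `f` are edges of `g` -/
theorem Con.mono {f g : Sym2 V → ZMod 2} (h : ∀ x y, f s(x, y) ≠ 0 → g s(x, y) ≠ 0) {x y : V}
    (hf : Con f x y) : Con g x y := by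
  unfold Con at *
  induction hf with
  | refl => exact Relation.ReflTransGen.refl
  | tail _ hbc ih => exact Relation.ReflTransGen.tail ih (h _ _ hbc)

/-- adding one edge: an old walk or a walk through the edge -/
theorem con_add_ev {f : Sym2 V → ZMod 2} {p q x y : V} (hpq : p ≠ q)
    (h : Con (f + ev p q) x y) :
    Con f x y ∨ (Con f x p ∧ Con f q y) ∨ (Con f x q ∧ Con f p y) := by
  have hr : ∀ z, Con f z z := fun z => Relation.ReflTransGen.refl
  unfold Con at h
  induction h with
  | refl => exact Or.inl (hr x)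
  | @tail b c _ hbc ih =>
    by_cases hc : (b = p ∧ c = q) ∨ (b = q ∧ c = p)
    · rcases hc with ⟨rfl, rfl⟩ | ⟨rfl, rfl⟩
      · rcases ih with h1 | h1 | h1
        · exact Or.inr (Or.inl ⟨h1, hr _⟩)
        · exact Or.inr (Or.inl ⟨h1.1, hr _⟩)
        · exact Or.inl h1.1
      · rcases ih with h1 | h1 | h1
        · exact Or.inr (Or.inr ⟨h1, hr _⟩)
        · exact Or.inl h1.1
        · exact Or.inr (Or.inr ⟨h1.1, hr _⟩)
    · rw [add_ev_ne f hpq hc] at hbc
      rcases ih with h1 | h1 | h1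
      · exact Or.inl (Relation.ReflTransGen.tail h1 hbc)
      · exact Or.inr (Or.inl ⟨h1.1, Relation.ReflTransGen.tail h1.2 hbc⟩)
      · exact Or.inr (Or.inr ⟨h1.1, Relation.ReflTransGen.tail h1.2 hbc⟩)

end Pool.Agent.H.MP_5bc4af.L3
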