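import Pool.Agent.H.MP_5bc4af_co.L3.Arc
import Pool.Agent.H.MP_5bc4af_co.L3.Crit

/-!
# The criterion for two permutations

`fin`: `crit3` for `f = chi σ + arcs σ R`, `g = chi τ + arcs τ S`, `h = arcs σ R + arcs τ S`;
`f + g + h = chi σ + chi τ` (characteristic two), `bd` of it is zero (`bd_chi`). `LF f`, `LF g` by
`lf_rest`. `dg f x = 1 ↔ One σ R x` (`dg_rest`), `dg g x = 1 ↔ One τ S x`, and `dg h x` has the
parity of `dg f x + dg g x` (`bd_eq_dg`), is at most two, so it is `1` if exactly one of `One σ R x`,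
`One τ S x` holds.

`ndone`: in a normal state `Inc` and `One` are the same (`inc_one`). Let `p ⋯ q` be the path of
`Wit`. `p` is an end of exactly one chosen arc, of `σ`, with other end `p'`. If `¬ Inc τ S p'`
then `p'` has degree one too, `{p, p'}` is a component (`con_pair`), so `q = θ p = p'`, but
`Inc σ R p'` and `¬ Inc σ R q`. So `One σ R p' ∧ One τ S p'`; and `p, p'` are joined by the unchosen
arcs of this cycle (`con_rest`). In the same way at `q`. So `c1, c2, c3` of `fin` hold.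
`wit_nb` is this argument in a form which can be used for `q` too (with `σ` and `τ` exchanged).
-/

namespace Pool.Agent.H.MP_5bc4af.L3

open Finset Pool.Agent.H.MP_5bc4af.H5

variable {V : Type*} [Fintype V] [DecidableEq V]

private theorem Fin_one {σ : Equiv.Perm V} (hs : P3 σ) {R : Finset V} (hR : ∀ v ∈ R, σ v ≠ v)
    (x : V) : (One σ R x → dg (arcs σ R) x = 1) ∧ (¬ One σ R x → dg (arcs σ R) x ≠ 1) ∧
      (¬ Inc σ R x → dg (arcs σ R) x = 0) := by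
  rw [dg_arcs hs hR]
  unfold One Inc
  by_cases h1 : x ∈ R <;> by_cases h2 : σ⁻¹ x ∈ R <;> simp [h1, h2]

private theorem Fin_dg {σ τ : Equiv.Perm V} (hs : P3 σ) (ht : P3 τ) (hd : Dj σ τ)
    {R S : Finset V} (hR : ∀ v ∈ R, σ v ≠ v) (hS : ∀ v ∈ S, τ v ≠ v) {θ : V → V}
    (hq : LF (arcs σ R + arcs τ S) θ) (x : V) :
    (One σ R x → ¬ One τ S x → dg (arcs σ R + arcs τ S) x = 1) ∧
      (¬ One σ R x → One τ S x → dg (arcs σ R + arcs τ S) x = 1) := by
  have h1 := hq.deg x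
  rw [dg_two hs ht hd hR hS] at h1 ⊢
  obtain ⟨a1, a2, -⟩ := Fin_one hs hR x
  obtain ⟨b1, b2, -⟩ := Fin_one ht hS x
  constructor
  · intro h2 h3
    have h4 := a1 h2
    have h5 := b2 h3
    omega
  · intro h2 h3
    have h4 := a2 h2
    have h5 := b1 h3
    omega

private theorem Fin_dg' {σ τ : Equiv.Perm V} (hs : P3 σ) (ht : P3 τ) (hd : Dj σ τ)
    {R S : Finset V} (hR : ∀ v ∈ R, σ v ≠ v) (hS : ∀ v ∈ S, τ v ≠ v) {x : V}
    (h1 : One σ R x) (h2 : ¬ Inc τ S x) : dg (arcs σ R + arcs τ S) x = 1 := by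
  rw [dg_two hs ht hd hR hS, (Fin_one hs hR x).1 h1, (Fin_one ht hS x).2.2 h2]

private theorem Fin_sum (a b c d : Sym2 V → ZMod 2) : (a + c) + (b + d) + (c + d) = a + b := by
  have h1 : (a + c) + (b + d) + (c + d) = a + b + ((c + c) + (d + d)) := by abel
  rw [h1, two_zero, two_zero, add_zero, add_zero]

theorem fin {σ τ : Equiv.Perm V} (hs : P3 σ) (ht : P3 τ) (hd : Dj σ τ) {R S : Finset V}
    (hR : ∀ v ∈ R, σ v ≠ v) (hRe : ∀ x, σ x ≠ x → ∃ v ∈ R, σ.SameCycle x v)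
    (hS : ∀ v ∈ S, τ v ≠ v) (hSe : ∀ x, τ x ≠ x → ∃ v ∈ S, τ.SameCycle x v)
    {θ : V → V} (hq : LF (arcs σ R + arcs τ S) θ)
    (hev : Even (univ.filter fun x => One σ R x ∧ One τ S x).card)
    (c1 : ∃ x y, One σ R x ∧ One τ S x ∧ One σ R y ∧ ¬ One τ S y ∧ Con (chi σ + arcs σ R) x y)
    (c2 : ∃ x y, One τ S x ∧ One σ R x ∧ One τ S y ∧ ¬ One σ R y ∧ Con (chi τ + arcs τ S) x y)
    (c3 : ∃ x y, One σ R x ∧ ¬ One τ S x ∧ One τ S y ∧ ¬ One σ R y ∧
      Con (arcs σ R + arcs τ S) x y) :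
    Cov (chi σ + chi τ) 3 := by
  obtain ⟨θf, hf⟩ := lf_rest hs hR hRe
  obtain ⟨θg, hg⟩ := lf_rest ht hS hSe
  have hsum : (chi σ + arcs σ R) + (chi τ + arcs τ S) + (arcs σ R + arcs τ S) = chi σ + chi τ :=
    Fin_sum _ _ _ _
  rw [← hsum]
  refine crit3 hf hg hq ?_ ?_ ?_ ?_ ?_
  · intro v
    rw [hsum, bd_add, bd_chi, bd_chi, add_zero]
  · have h1 : (univ.filter fun x => dg (chi σ + arcs σ R) x = 1 ∧ dg (chi τ + arcs τ S) x = 1) =
        univ.filter fun x => One σ R x ∧ One τ S x := by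
      refine Finset.filter_congr fun x _ => ?_
      rw [dg_rest hs hR, dg_rest ht hS]
    rw [h1]
    exact hev
  · obtain ⟨x, y, a1, a2, a3, a4, a5⟩ := c1
    exact ⟨x, y, (dg_rest hs hR x).2 a1, (dg_rest ht hS x).2 a2, (dg_rest hs hR y).2 a3,
      (Fin_dg hs ht hd hR hS hq y).1 a3 a4, a5⟩
  · obtain ⟨x, y, a1, a2, a3, a4, a5⟩ := c2
    exact ⟨x, y, (dg_rest ht hS x).2 a1, (dg_rest hs hR x).2 a2, (dg_rest ht hS y).2 a3,
      (Fin_dg hs ht hd hR hS hq y).2 a4 a3, a5⟩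
  · obtain ⟨x, y, a1, a2, a3, a4, a5⟩ := c3
    exact ⟨x, y, (Fin_dg hs ht hd hR hS hq x).1 a1 a2, (dg_rest hs hR x).2 a1,
      (Fin_dg hs ht hd hR hS hq y).2 a4 a3, (dg_rest ht hS y).2 a3, a5⟩

/-- The other end `p'` of the chosen `σ`-arc at the end `p` of a path from `p` to `q` is on a
`τ`-arc. Here `R` need not be normal: `hu` says that the cycle of `p` has one chosen arc. -/
theorem wit_nb {σ τ : Equiv.Perm V} (hs : P3 σ) (ht : P3 τ) (hd : Dj σ τ) {R S : Finset V}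
    (hR : ∀ v ∈ R, σ v ≠ v) (hS : ∀ v ∈ S, τ v ≠ v) {θ : V → V}
    (hq : LF (arcs σ R + arcs τ S) θ) {p q : V} (w : Wit σ τ R S θ p q)
    (hu : ∀ v ∈ R, ∀ w ∈ R, σ.SameCycle p v → σ.SameCycle v w → v = w) :
    ∃ p', One σ R p' ∧ Inc τ S p' ∧ Con (chi σ + arcs σ R) p' p ∧
      (arcs σ R + arcs τ S) s(p, p') ≠ 0 := by
  have hp1 : One σ R p := (inc_one hR (fun v hv w hw => hu v hv w hw)).1 w.p1
  have hdp := Fin_dg' hs ht hd hR hS hp1 w.p2
  -- it suffices to find the other end of the arc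
  obtain ⟨p', h1, h2, h3⟩ : ∃ p', One σ R p' ∧ Con (chi σ + arcs σ R) p' p ∧
      (arcs σ R + arcs τ S) s(p, p') ≠ 0 := by
    rcases w.p1 with h1 | h1
    · refine ⟨σ p, (inc_one hR fun v hv w hw h2 h3 => hu v hv w hw ?_ h3).1 (Or.inr ?_), ?_, ?_⟩
      · exact (Equiv.Perm.sameCycle_apply_left).1 h2
      · have h2 : σ⁻¹ (σ p) = p := σ.symm_apply_apply p
        rw [h2]
        exact h1
      · exact (con_rest hs h1 (hR p h1) fun w hw h2 =>
          hu p h1 w hw (Equiv.Perm.SameCycle.refl _ _) h2).symm'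
      · exact (two_ne hs ht hd hR hS p (σ p)).2 (Or.inl (Or.inl ⟨h1, rfl⟩))
    · obtain ⟨v, hv⟩ : ∃ v, v = σ⁻¹ p := ⟨_, rfl⟩
      have hvp : σ v = p := by
        rw [hv]
        exact σ.apply_symm_apply p
      have hpv : σ.SameCycle p v := by
        rw [← hvp]
        exact Equiv.Perm.sameCycle_apply_left.2 (Equiv.Perm.SameCycle.refl _ _)
      rw [← hv] at h1
      refine ⟨v, (inc_one hR fun u hu' w hw h2 h3 => hu u hu' w hw (hpv.trans h2) h3).1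
        (Or.inl h1), ?_, ?_⟩
      · have h2 := con_rest hs h1 (hR v h1) fun w hw h2 => hu v h1 w hw hpv h2
        rwa [hvp] at h2
      · exact (two_ne hs ht hd hR hS p v).2 (Or.inl (Or.inr ⟨h1, hvp.symm⟩))
  refine ⟨p', h1, ?_, h2, h3⟩
  by_contra h4
  have h5 := Fin_dg' hs ht hd hR hS h1 h4
  rcases con_pair hdp h5 h3 (hq.con p hdp.le) with h6 | h6
  · rw [w.th] at h6
    apply w.p2
    rw [← h6]
    exact w.q1
  · rw [w.th] at h6
    apply h4
    rw [← h6]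
    exact w.q1

theorem ndone {σ τ : Equiv.Perm V} {R S : Finset V} {θ : V → V} (h : NS σ τ R S θ)
    (hev : Even (cc σ τ R S)) {p q : V} (w : Wit σ τ R S θ p q) : Cov (chi σ + chi τ) 3 := by
  have o1 : ∀ x, Inc σ R x ↔ One σ R x := fun x =>
    inc_one h.rm fun v hv w hw _ h2 => h.ru v hv w hw h2
  have o2 : ∀ x, Inc τ S x ↔ One τ S x := fun x =>
    inc_one h.sm fun v hv w hw _ h2 => h.su v hv w hw h2
  have hdj : Dj τ σ := fun x y h1 h2 h3 => h.dj y x h2 h1 h3.symm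
  have hdp : dg (arcs σ R + arcs τ S) p = 1 :=
    Fin_dg' h.sp h.tp h.dj h.rm h.sm ((o1 p).1 w.p1) w.p2
  have hlf : LF (arcs τ S + arcs σ R) θ := by
    rw [add_comm]
    exact h.lf
  have w' : Wit τ σ S R θ q p := by
    refine ⟨w.q1, w.q2, w.p1, w.p2, ?_⟩
    rw [← w.th]
    exact h.lf.inv p hdp.le
  obtain ⟨p', a1, a2, a3, -⟩ := wit_nb h.sp h.tp h.dj h.rm h.sm h.lf w
    fun v hv w hw _ h2 => h.ru v hv w hw h2
  obtain ⟨q', b1, b2, b3, -⟩ := wit_nb h.tp h.sp hdj h.sm h.rm hlf w'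
    fun v hv w hw _ h2 => h.su v hv w hw h2
  refine fin h.sp h.tp h.dj h.rm h.re h.sm h.se h.lf ?_ ?_ ?_ ?_
  · have h1 : (univ.filter fun x => One σ R x ∧ One τ S x) =
        univ.filter fun x => Inc σ R x ∧ Inc τ S x := by
      refine Finset.filter_congr fun x _ => ?_
      rw [o1, o2]
    rw [h1]
    exact hev
  · exact ⟨p', p, a1, (o2 p').1 a2, (o1 p).1 w.p1, fun h1 => w.p2 ((o2 p).2 h1), a3⟩
  · exact ⟨q', q, b1, (o1 q').1 b2, (o2 q).1 w.q1, fun h1 => w.q2 ((o1 q).2 h1), b3⟩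
  · refine ⟨p, q, (o1 p).1 w.p1, fun h1 => w.p2 ((o2 p).2 h1), (o2 q).1 w.q1,
      fun h1 => w.q2 ((o1 q).2 h1), ?_⟩
    rw [← w.th]
    exact h.lf.con p hdp.le

end Pool.Agent.H.MP_5bc4af.L3
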