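import Pool.Agent.H.MP_5bc4af_co.L3.Sym

/-!
# The first state

The edges `z a`, `z b`, `z' a'`, `z' b'` are added to the empty graph one after the other (`LF.add`,
four times, starting with `LF.zero`). All of `z, a, b, z', a', b'` are different: `a ≠ b` and
`a' ≠ b'` by `Dj`, `a, z` and `a', z'` are on different cycles of `σ`, `b, z` and `b', z'` on different
cycles of `τ`, and `hab`, `hab'`. `R = {r, r'}` with `r` the tail of the `σ`-arc between `z` and `a`
(`r = z` if `a = σ z`, `r = a` if `z = σ a`), `r'` the same for `z', a'`; `S` in the same way. Witnesses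
`(a, b)` and `(a', b')`, `X = {a, a'}`, `Y = {b, b'}`.
-/

namespace Pool.Agent.H.MP_5bc4af.L3

open Finset Pool.Agent.H.MP_5bc4af.H5

variable {V : Type*} [Fintype V] [DecidableEq V]

/-- the arc between two neighbours -/
private theorem Init_arc {σ : Equiv.Perm V} {z a : V} (hz : σ z ≠ z) (h : Nb σ z a) :
    ∃ r, σ r ≠ r ∧ σ.SameCycle z r ∧ ev r (σ r) = ev z a ∧ s(r, σ r) = s(z, a) ∧
      (∀ x, (x = r ∨ σ⁻¹ x = r) ↔ (x = z ∨ x = a)) ∧ z ≠ a ∧ σ.SameCycle z a := by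
  rcases h with rfl | h
  · refine ⟨z, hz, Equiv.Perm.SameCycle.refl _ _, rfl, rfl, fun x => ?_, hz.symm, ?_⟩
    · rw [Equiv.Perm.inv_eq_iff_eq]
    · exact (Equiv.Perm.sameCycle_apply_right).2 (Equiv.Perm.SameCycle.refl _ _)
  · have ha : σ a ≠ a := by
      intro h1
      rw [h1] at h
      rw [h] at hz
      exact hz h1
    refine ⟨a, ha, ?_, ?_, ?_, fun x => ?_, ?_, ?_⟩
    · rw [h]
      exact (Equiv.Perm.sameCycle_apply_left).2 (Equiv.Perm.SameCycle.refl _ _)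
    · rw [← h, ev_comm]
    · rw [← h, Sym2.eq_swap]
    · rw [Equiv.Perm.inv_eq_iff_eq, ← h]
      constructor <;> (rintro (h1 | h1) <;> simp [h1])
    · intro h1
      rw [← h1] at h
      exact hz h.symm
    · rw [h]
      exact (Equiv.Perm.sameCycle_apply_left).2 (Equiv.Perm.SameCycle.refl _ _)

private theorem Init_arcs {σ : Equiv.Perm V} {r r' : V} (h : r ≠ r') :
    arcs σ {r, r'} = ev r (σ r) + ev r' (σ r') := by
  unfold arcs
  exact Finset.sum_pair h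

private theorem Init_dg0 (x : V) : dg (0 : Sym2 V → ZMod 2) x = 0 := by
  unfold dg
  simp

/-- one more edge -/
private theorem Init_add {f : Sym2 V → ZMod 2} {θ : V → V} (h : LF f θ) {p q : V} (hpq : p ≠ q)
    (hp : dg f p ≤ 1) (hq : dg f q ≤ 1) (hθ : θ p ≠ q) : LF (f + ev p q) (upd θ p q) ∧
      ∀ x, dg (f + ev p q) x = dg f x + (if x = p then 1 else 0) + (if x = q then 1 else 0) :=
  ⟨h.add hpq hp hq hθ, fun x => dg_add_ev f hpq (h.sep hpq hp hq hθ) x⟩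

/-- four edges -/
private theorem Init_lf {z z' a b a' b' : V} (n1 : z ≠ a) (n2 : z ≠ b) (n3 : z ≠ z')
    (n4 : z ≠ a') (n5 : z ≠ b') (n6 : a ≠ b) (n7 : a ≠ z') (n8 : a ≠ a') (n9 : a ≠ b')
    (n10 : b ≠ z') (n11 : b ≠ a') (n12 : b ≠ b') (n13 : z' ≠ a') (n14 : z' ≠ b')
    (n15 : a' ≠ b') :
    ∃ θ : V → V, LF ((ev z a + ev z' a') + (ev z b + ev z' b')) θ ∧ θ a = b ∧ θ a' = b' := by
  have s1 := n1.symm
  have s2 := n2.symm
  have s3 := n3.symm
  have s4 := n4.symm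
  have s5 := n5.symm
  have s6 := n6.symm
  have s7 := n7.symm
  have s8 := n8.symm
  have s9 := n9.symm
  have s10 := n10.symm
  have s11 := n11.symm
  have s12 := n12.symm
  have s13 := n13.symm
  have s14 := n14.symm
  have s15 := n15.symm
  obtain ⟨l1, d1⟩ := Init_add (LF.zero (V := V)) n1 (by rw [Init_dg0]; omega)
    (by rw [Init_dg0]; omega) n1
  simp only [Init_dg0, zero_add] at l1 d1
  obtain ⟨l2, d2⟩ := Init_add l1 n13 (by rw [d1]; simp [*]) (by rw [d1]; simp [*])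
    (by simp [upd, *])
  simp only [d1] at d2
  obtain ⟨l3, d3⟩ := Init_add l2 n2 (by rw [d2]; simp [*]) (by rw [d2]; simp [*])
    (by simp [upd, *])
  simp only [d2] at d3
  obtain ⟨l4, d4⟩ := Init_add l3 n14 (by rw [d3]; simp [*]) (by rw [d3]; simp [*])
    (by simp [upd, *])
  refine ⟨_, by rw [← add_assoc]; exact l4, ?_, ?_⟩
  · simp [upd, *]
  · simp [upd, *]

private theorem Init_inc {σ : Equiv.Perm V} {r r' z a z' a' : V}
    (h : ∀ x, (x = r ∨ σ⁻¹ x = r) ↔ (x = z ∨ x = a))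
    (h' : ∀ x, (x = r' ∨ σ⁻¹ x = r') ↔ (x = z' ∨ x = a')) (x : V) :
    Inc σ {r, r'} x ↔ (x = z ∨ x = a) ∨ (x = z' ∨ x = a') := by
  rw [← h, ← h']
  unfold Inc
  simp only [Finset.mem_insert, Finset.mem_singleton]
  tauto

private theorem Init_uni {σ : Equiv.Perm V} {r r' z z' : V} (hc : ¬ σ.SameCycle z z')
    (h : σ.SameCycle z r) (h' : σ.SameCycle z' r') :
    ∀ v ∈ ({r, r'} : Finset V), ∀ w ∈ ({r, r'} : Finset V), σ.SameCycle v w → v = w := by
  intro v hv w hw hvw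
  simp only [Finset.mem_insert, Finset.mem_singleton] at hv hw
  rcases hv with rfl | rfl <;> rcases hw with rfl | rfl
  · rfl
  · exact absurd (h.trans (hvw.trans h'.symm)) hc
  · exact absurd (h.trans (hvw.symm.trans h'.symm)) hc
  · rfl

theorem init {σ τ : Equiv.Perm V} (hs : P3 σ) (ht : P3 τ) (hd : Dj σ τ) {z z' a b a' b' : V}
    (hm : σ z ≠ z ∧ τ z ≠ z ∧ σ z' ≠ z' ∧ τ z' ≠ z')
    (hc : ¬ σ.SameCycle z z' ∧ ¬ τ.SameCycle z z')
    (hn : Nb σ z a ∧ Nb τ z b ∧ Nb σ z' a' ∧ Nb τ z' b') (hab : a ≠ b') (hab' : a' ≠ b)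
    (h1 : ∀ x, τ x ≠ x → ¬ τ.SameCycle z x → ¬ τ.SameCycle z' x → Avd τ {a, a'} x)
    (h2 : ∀ x, σ x ≠ x → ¬ σ.SameCycle z x → ¬ σ.SameCycle z' x → Avd σ {b, b'} x) :
    ∃ (R S : Finset V) (θ : V → V), PS σ τ R S θ a b a' b' {a, a'} {b, b'} := by
  obtain ⟨m1, m2, m3, m4⟩ := hm
  obtain ⟨c1, c2⟩ := hc
  obtain ⟨e1, e2, e3, e4⟩ := hn
  obtain ⟨r, r1, r2, r3, r4, r5, r6, r7⟩ := Init_arc m1 e1
  obtain ⟨q, q1, q2, q3, q4, q5, q6, q7⟩ := Init_arc m2 e2
  obtain ⟨r', r1', r2', r3', r4', r5', r6', r7'⟩ := Init_arc m3 e3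
  obtain ⟨q', q1', q2', q3', q4', q5', q6', q7'⟩ := Init_arc m4 e4
  have n3 : z ≠ z' := fun h => c1 (h ▸ Equiv.Perm.SameCycle.refl _ _)
  have n4 : z ≠ a' := fun h => c1 (h ▸ r7'.symm)
  have n5 : z ≠ b' := fun h => c2 (h ▸ q7'.symm)
  have n6 : a ≠ b := fun h => hd r q r1 q1 (by rw [r4, q4, h])
  have n7 : a ≠ z' := fun h => c1 (h ▸ r7)
  have n8 : a ≠ a' := fun h => c1 (r7.trans (h ▸ r7'.symm))
  have n10 : b ≠ z' := fun h => c2 (h ▸ q7)
  have n12 : b ≠ b' := fun h => c2 (q7.trans (h ▸ q7'.symm))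
  have n15 : a' ≠ b' := fun h => hd r' q' r1' q1' (by rw [r4', q4', h])
  have nr : r ≠ r' := fun h => c1 (r2.trans (h ▸ r2'.symm))
  have nq : q ≠ q' := fun h => c2 (q2.trans (h ▸ q2'.symm))
  obtain ⟨θ, hl, t1, t2⟩ := Init_lf r6 q6 n3 n4 n5 n6 n7 n8 hab n10 hab'.symm n12 r6' q6' n15
  have i1 := Init_inc r5 r5'
  have i2 := Init_inc q5 q5'
  refine ⟨{r, r'}, {q, q'}, θ, ?_⟩
  refine
    { sp := hs
      tp := ht
      dj := hd
      rm := ?_
      ru := Init_uni c1 r2 r2'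
      sm := ?_
      su := Init_uni c2 q2 q2'
      lf := ?_
      w := ⟨(i1 a).2 (by simp), ?_, (i2 b).2 (by simp), ?_, t1⟩
      w' := ⟨(i1 a').2 (by simp), ?_, (i2 b').2 (by simp), ?_, t2⟩
      ne := n8
      cp := Or.inl (by simp)
      cp' := Or.inl (by simp)
      cq := Or.inl (by simp)
      cq' := Or.inl (by simp)
      av := ?_
      bv := ?_ }
  · intro v hv
    simp only [Finset.mem_insert, Finset.mem_singleton] at hv
    rcases hv with rfl | rfl
    · exact r1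
    · exact r1'
  · intro v hv
    simp only [Finset.mem_insert, Finset.mem_singleton] at hv
    rcases hv with rfl | rfl
    · exact q1
    · exact q1'
  · rw [Init_arcs nr, Init_arcs nq, r3, r3', q3, q3']
    exact hl
  · rw [i2]
    simp [r6.symm, n6, n7, hab]
  · rw [i1]
    simp [q6.symm, n6.symm, n10, hab'.symm]
  · rw [i2]
    simp [n4.symm, hab', r6'.symm, n15]
  · rw [i1]
    simp [n5.symm, hab.symm, q6'.symm, n15.symm]
  · intro x hx hR
    exact h2 x hx (fun h => hR r (by simp) (h.symm.trans r2))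
      (fun h => hR r' (by simp) (h.symm.trans r2'))
  · intro x hx hS
    exact h1 x hx (fun h => hS q (by simp) (h.symm.trans q2))
      (fun h => hS q' (by simp) (h.symm.trans q2'))

end Pool.Agent.H.MP_5bc4af.L3
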