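import Pool.Agent.H.MP_5bc4af_co.L3.Deg

/-!
# Adding an edge to a linear forest

`p ≠ q` have degree at most one and are not the two ends of one path. Then `f + ev p q` is a linear
forest with the end map `upd θ p q`.

Note first `f s(p, q) = 0` (otherwise `Con f p q`, so `q = θ p` by `uni`). Degrees: `dg_add_ev`.
Walks: `con_add_ev`, `Con.mono`. `uni`: if `v, w` have degree at most one in the new graph and are
joined there, then they have degree at most one in `f`, and by `con_add_ev` and `uni` of `f` one gets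
`w = v ∨ w = θ v` or `v ∈ {p, θ p}`, `w ∈ {q, θ q}` or vice versa; if `v = p` then the degree of
`v` in `f` is `0`, so `θ p = p`.
-/

namespace Pool.Agent.H.MP_5bc4af.L3

open Finset Pool.Agent.H.MP_5bc4af.H5

variable {V : Type*} [Fintype V] [DecidableEq V]

private theorem lfa_dg_zero (v : V) : dg (0 : Sym2 V → ZMod 2) v = 0 := by
  simp [dg]

theorem LF.zero : LF (0 : Sym2 V → ZMod 2) id where
  diag _ := rfl
  deg v := by rw [lfa_dg_zero]; norm_num
  low v h := h
  inv v _ := rfl
  con v _ := Relation.ReflTransGen.refl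
  iso v _ := rfl
  one v h := by rw [lfa_dg_zero] at h; exact absurd h (by norm_num)
  uni v w _ _ h := Or.inl (con_iso (lfa_dg_zero v) h)
  ex v := ⟨v, by rw [lfa_dg_zero]; norm_num, Relation.ReflTransGen.refl⟩

theorem LF.sep {f : Sym2 V → ZMod 2} {θ : V → V} (h : LF f θ) {p q : V} (hpq : p ≠ q)
    (hp : dg f p ≤ 1) (hq : dg f q ≤ 1) (hθ : θ p ≠ q) : f s(p, q) = 0 := by
  by_contra h0
  rcases h.uni p q hp hq (Con.step h0) with h1 | h1
  · exact hpq h1.symm
  · exact hθ h1.symm

theorem LF.add {f : Sym2 V → ZMod 2} {θ : V → V} (h : LF f θ) {p q : V} (hpq : p ≠ q)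
    (hp : dg f p ≤ 1) (hq : dg f q ≤ 1) (hθ : θ p ≠ q) : LF (f + ev p q) (upd θ p q) := by
  have h0 : f s(p, q) = 0 := h.sep hpq hp hq hθ
  have hdg := dg_add_ev f hpq h0
  have hθ' : θ q ≠ p := fun e => hθ (by rw [← e]; exact h.inv q hq)
  have hPp : θ (θ p) = p := h.inv p hp
  have hQq : θ (θ q) = q := h.inv q hq
  have hPQ : θ p ≠ θ q := fun e => hpq (by rw [← hPp, e, hQq])
  have hP1 : dg f (θ p) ≤ 1 := h.low p hp
  have hQ1 : dg f (θ q) ≤ 1 := h.low q hq
  have hfix : ∀ x, dg f x ≤ 1 → θ x = x → dg f x = 0 := by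
    intro x hx hxx
    by_contra h1
    exact h.one x (by omega) hxx
  have hgp : dg (f + ev p q) p = dg f p + 1 := by rw [hdg]; simp [hpq]
  have hgq : dg (f + ev p q) q = dg f q + 1 := by rw [hdg]; simp [hpq.symm]
  have hgo : ∀ x, x ≠ p → x ≠ q → dg (f + ev p q) x = dg f x := by
    intro x h1 h2
    rw [hdg]; simp [h1, h2]
  have hle : ∀ x, dg f x ≤ dg (f + ev p q) x := by
    intro x
    rw [hdg]; omega
  have hgP : dg (f + ev p q) (θ p) ≤ 1 := by
    by_cases e : θ p = p
    · have := hfix p hp e
      rw [e, hgp]; omega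
    · rw [hgo _ e hθ]; exact hP1
  have hgQ : dg (f + ev p q) (θ q) ≤ 1 := by
    by_cases e : θ q = q
    · have := hfix q hq e
      rw [e, hgq]; omega
    · rw [hgo _ hθ' e]; exact hQ1
  have hpl : dg (f + ev p q) p ≤ 1 → θ p = p := fun e => h.iso p (by omega)
  have hql : dg (f + ev p q) q ≤ 1 → θ q = q := fun e => h.iso q (by omega)
  have hmono : ∀ {x y : V}, Con f x y → Con (f + ev p q) x y := by
    intro x y hxy
    refine Con.mono ?_ hxy
    intro a b hab
    rw [add_ev_ne f hpq]
    · exact hab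
    · rintro (⟨ha, hb⟩ | ⟨ha, hb⟩)
      · rw [ha, hb] at hab; exact hab h0
      · rw [ha, hb, Sym2.eq_swap] at hab; exact hab h0
  have hedge : Con (f + ev p q) p q := by
    refine Con.step ?_
    rw [add_ev_self f hpq, h0]; simp
  have hconP : Con f p (θ p) := h.con p hp
  have hconQ : Con f q (θ q) := h.con q hq
  have hPQc : Con (f + ev p q) (θ p) (θ q) :=
    ((hmono hconP.symm').trans hedge).trans (hmono hconQ)
  have uP : upd θ p q (θ p) = θ q := by simp [upd]
  have uQ : upd θ p q (θ q) = θ p := by simp [upd, hPQ.symm]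
  have uo : ∀ x, x ≠ θ p → x ≠ θ q → upd θ p q x = θ x := by
    intro x h1 h2
    simp [upd, h1, h2]
  refine ⟨?_, ?_, ?_, ?_, ?_, ?_, ?_, ?_, ?_⟩
  · intro v
    show f s(v, v) + ev p q s(v, v) = 0
    rw [h.diag v, ev_diag, add_zero]
  · intro v
    by_cases h1 : v = p
    · rw [h1, hgp]; omega
    · by_cases h2 : v = q
      · rw [h2, hgq]; omega
      · rw [hgo v h1 h2]; exact h.deg v
  · intro v hv
    by_cases h1 : v = θ p
    · rw [h1, uP]; exact hgQ
    · by_cases h2 : v = θ q
      · rw [h2, uQ]; exact hgP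
      · rw [uo v h1 h2]
        have hv1 : dg f v ≤ 1 := (hle v).trans hv
        rw [hgo]
        · exact h.low v hv1
        · intro e; exact h1 (by rw [← e, h.inv v hv1])
        · intro e; exact h2 (by rw [← e, h.inv v hv1])
  · intro v hv
    by_cases h1 : v = θ p
    · rw [h1, uP, uQ]
    · by_cases h2 : v = θ q
      · rw [h2, uQ, uP]
      · have hv1 : dg f v ≤ 1 := (hle v).trans hv
        rw [uo v h1 h2, uo]
        · exact h.inv v hv1
        · intro e
          have e2 : v = p := by rw [← h.inv v hv1, e, hPp]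
          exact h1 (by rw [e2] at hv ⊢; exact (hpl hv).symm)
        · intro e
          have e2 : v = q := by rw [← h.inv v hv1, e, hQq]
          exact h2 (by rw [e2] at hv ⊢; exact (hql hv).symm)
  · intro v hv
    by_cases h1 : v = θ p
    · rw [h1, uP]; exact hPQc
    · by_cases h2 : v = θ q
      · rw [h2, uQ]; exact hPQc.symm'
      · rw [uo v h1 h2]
        exact hmono (h.con v ((hle v).trans hv))
  · intro v hv
    have hv0 : dg f v = 0 := by have := hle v; omega
    have hvθ : θ v = v := h.iso v hv0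
    have hvp : v ≠ p := by
      intro e; rw [e, hgp] at hv; omega
    have hvq : v ≠ q := by
      intro e; rw [e, hgq] at hv; omega
    rw [uo v, hvθ]
    · intro e
      rw [e, hPp] at hvθ
      exact hvp (by rw [e]; exact hvθ.symm)
    · intro e
      rw [e, hQq] at hvθ
      exact hvq (by rw [e]; exact hvθ.symm)
  · intro v hv
    by_cases h1 : v = θ p
    · rw [h1, uP]; exact hPQ.symm
    · by_cases h2 : v = θ q
      · rw [h2, uQ]; exact hPQ
      · rw [uo v h1 h2]
        have hvp : v ≠ p := by
          intro e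
          exact h1 (by rw [e] at hv ⊢; exact (hpl hv.le).symm)
        have hvq : v ≠ q := by
          intro e
          exact h2 (by rw [e] at hv ⊢; exact (hql hv.le).symm)
        rw [hgo v hvp hvq] at hv
        exact h.one v hv
  · intro v w hv hw hc
    have hv1 : dg f v ≤ 1 := (hle v).trans hv
    have hw1 : dg f w ≤ 1 := (hle w).trans hw
    have hvP : (p = v ∨ p = θ v) → v = θ p := by
      rintro (e | e)
      · rw [← e] at hv ⊢; exact (hpl hv).symm
      · rw [e]; exact (h.inv v hv1).symm
    have hvQ : (q = v ∨ q = θ v) → v = θ q := by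
      rintro (e | e)
      · rw [← e] at hv ⊢; exact (hql hv).symm
      · rw [e]; exact (h.inv v hv1).symm
    have hwP : (w = p ∨ w = θ p) → w = θ p := by
      rintro (e | e)
      · rw [e] at hw ⊢; exact (hpl hw).symm
      · exact e
    have hwQ : (w = q ∨ w = θ q) → w = θ q := by
      rintro (e | e)
      · rw [e] at hw ⊢; exact (hql hw).symm
      · exact e
    rcases con_add_ev hpq hc with h1 | ⟨h1, h2⟩ | ⟨h1, h2⟩
    · rcases h.uni v w hv1 hw1 h1 with e | e
      · exact Or.inl e
      · by_cases h3 : v = θ p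
        · left
          rw [h3, hPp] at e
          rw [hwP (Or.inl e), h3]
        · by_cases h4 : v = θ q
          · left
            rw [h4, hQq] at e
            rw [hwQ (Or.inl e), h4]
          · right
            rw [uo v h3 h4]; exact e
    · right
      have e1 := hvP (h.uni v p hv1 hp h1)
      have e2 := hwQ (h.uni q w hq hw1 h2)
      rw [e1, uP, e2]
    · right
      have e1 := hvQ (h.uni v q hv1 hq h1)
      have e2 := hwP (h.uni p w hp hw1 h2)
      rw [e1, uQ, e2]
  · intro v
    obtain ⟨w, hw, hc⟩ := h.ex v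
    by_cases hg : dg (f + ev p q) w ≤ 1
    · exact ⟨w, hg, hmono hc⟩
    · by_cases e1 : w = p
      · exact ⟨θ p, hgP, hmono (hc.trans (by rw [e1]; exact hconP))⟩
      · by_cases e2 : w = q
        · exact ⟨θ q, hgQ, hmono (hc.trans (by rw [e2]; exact hconQ))⟩
        · exact absurd (by rw [hgo w e1 e2]; exact hw) hg

end Pool.Agent.H.MP_5bc4af.L3
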