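import Pool.Agent.H.MP_5bc4af_co.L3.Deg

/-!
# Deleting an end edge of a linear forest

`v` has degree one and its neighbour is `u`. Then `f + ev v u` is a linear forest with the end map
`del θ v u`. If `u` has degree one too then `θ v = u` (by `uni`), and both vertices become isolated.
Walks: a walk of `f` between vertices different from `v` can be taken without `v` (prove by
`Relation.ReflTransGen` induction: for `x ≠ v`, `Con f x y` implies `Con (f + ev v u) x y` if
`y ≠ v`, and `Con (f + ev v u) x u` if `y = v`).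
-/

namespace Pool.Agent.H.MP_5bc4af.L3

open Finset Pool.Agent.H.MP_5bc4af.H5

variable {V : Type*} [Fintype V] [DecidableEq V]

theorem con_rem {f : Sym2 V → ZMod 2} (hd : ∀ v, f s(v, v) = 0) {v u : V} (hv : dg f v = 1)
    (hvu : f s(v, u) ≠ 0) {x y : V} (hx : x ≠ v) (h : Con f x y) :
    (y ≠ v → Con (f + ev v u) x y) ∧ (y = v → Con (f + ev v u) x u) := by
  have hne : v ≠ u := by
    rintro rfl
    exact hvu (hd v)
  induction h with
  | refl => exact ⟨fun _ => Relation.ReflTransGen.refl, fun h => absurd h hx⟩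
  | @tail b c hb hbc ih =>
    refine ⟨fun hc => ?_, fun hc => ?_⟩
    · by_cases hbv : b = v
      · subst hbv
        rw [nb_one hv hvu hbc]
        exact ih.2 rfl
      · refine (ih.1 hbv).tail ?_
        change (f + ev v u) s(b, c) ≠ 0
        rw [add_ev_ne f hne]
        · exact hbc
        · rintro (⟨h1, -⟩ | ⟨-, h1⟩)
          · exact hbv h1
          · exact hc h1
    · subst hc
      have h1 : f s(c, b) ≠ 0 := by
        rw [Sym2.eq_swap]
        exact hbc
      have h2 : b = u := nb_one hv hvu h1
      subst h2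
      exact ih.1 hne.symm

theorem LF.rem {f : Sym2 V → ZMod 2} {θ : V → V} (h : LF f θ) {v u : V} (hv : dg f v = 1)
    (hvu : f s(v, u) ≠ 0) : LF (f + ev v u) (del θ v u) := by
  have hd := h.diag
  have hne : v ≠ u := by
    rintro rfl
    exact hvu (hd v)
  have hdg : ∀ x, dg (f + ev v u) x + (if x = v then 1 else 0) + (if x = u then 1 else 0) =
      dg f x := dg_del_ev f hne hvu
  have hdv : dg (f + ev v u) v = 0 := by
    have h1 := hdg v
    rw [if_pos rfl, if_neg hne, hv] at h1
    omega
  have hdu : dg (f + ev v u) u + 1 = dg f u := by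
    have h1 := hdg u
    rw [if_pos rfl, if_neg hne.symm] at h1
    omega
  have hdx : ∀ x, x ≠ v → x ≠ u → dg (f + ev v u) x = dg f x := by
    intro x h1 h2
    have h3 := hdg x
    rw [if_neg h1, if_neg h2] at h3
    omega
  have hle : ∀ x, dg (f + ev v u) x ≤ dg f x := by
    intro x
    have h3 := hdg x
    omega
  obtain ⟨w, hw⟩ : ∃ w, w = θ v := ⟨_, rfl⟩
  have hwd : dg f w ≤ 1 := by
    rw [hw]
    exact h.low v hv.le
  have hwv : w ≠ v := by
    rw [hw]
    exact h.one v hv
  have hθw : θ w = v := by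
    rw [hw]
    exact h.inv v hv.le
  have hcw : Con f v w := by
    rw [hw]
    exact h.con v hv.le
  have hcu : Con f v u := Con.step hvu
  have huw : dg f u ≤ 1 → u = w := by
    intro h1
    rcases h.uni v u hv.le h1 hcu with h2 | h2
    · exact absurd h2.symm hne
    · rw [h2, hw]
  have hmono : ∀ {x y : V}, Con (f + ev v u) x y → Con f x y := by
    intro x y hxy
    refine Con.mono (fun a b hab => ?_) hxy
    by_cases h1 : (a = v ∧ b = u) ∨ (a = u ∧ b = v)
    · rcases h1 with ⟨rfl, rfl⟩ | ⟨rfl, rfl⟩
      · exact hvu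
      · rw [Sym2.eq_swap]
        exact hvu
    · rwa [add_ev_ne f hne h1] at hab
  have hwu : Con (f + ev v u) w u := (con_rem hd hv hvu hwv hcw.symm').2 rfl
  -- the values of the new end map
  have tv : del θ v u v = v := by
    unfold del
    rw [if_pos rfl]
  have tw : del θ v u w = u := by
    unfold del
    rw [if_neg hwv, if_pos hw]
  have tu : u ≠ w → del θ v u u = w := by
    intro h1
    unfold del
    rw [if_neg hne.symm, if_neg (by rw [← hw]; exact h1), if_pos rfl, hw]
  have tx : ∀ x, x ≠ v → x ≠ w → x ≠ u → del θ v u x = θ x := by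
    intro x h1 h2 h3
    unfold del
    rw [if_neg h1, if_neg (by rw [← hw]; exact h2), if_neg h3]
  -- the old end map away from `v`, `w`, `u`
  have ex1 : ∀ x, dg f x ≤ 1 → x ≠ w → θ x ≠ v := by
    intro x h1 h2 h3
    have h4 := h.inv x h1
    rw [h3, ← hw] at h4
    exact h2 h4.symm
  have ex2 : ∀ x, dg f x ≤ 1 → x ≠ v → θ x ≠ w := by
    intro x h1 h2 h3
    have h4 := h.inv x h1
    rw [h3, hθw] at h4
    exact h2 h4.symm
  have ex3 : ∀ x, dg f x ≤ 1 → x ≠ v → θ x ≠ u := by
    intro x h1 h2 h3
    have h4 := h.low x h1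
    rw [h3] at h4
    exact ex2 x h1 h2 (by rw [h3]; exact huw h4)
  refine ⟨?_, ?_, ?_, ?_, ?_, ?_, ?_, ?_, ?_⟩
  · intro x
    rw [add_ev_ne f hne, hd]
    rintro (⟨h1, h2⟩ | ⟨h1, h2⟩)
    · exact hne (h1.symm.trans h2)
    · exact hne (h2.symm.trans h1)
  · exact fun x => (hle x).trans (h.deg x)
  · intro x hx
    by_cases h1 : x = v
    · rw [h1, tv, hdv]
      exact Nat.zero_le _
    by_cases h2 : x = w
    · rw [h2, tw]
      have := h.deg u
      omega
    by_cases h3 : x = u
    · rw [h3, tu (by rw [← h3]; exact h2)]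
      exact (hle w).trans hwd
    rw [tx x h1 h2 h3]
    rw [hdx x h1 h3] at hx
    exact (hle _).trans (h.low x hx)
  · intro x hx
    by_cases h1 : x = v
    · rw [h1, tv, tv]
    by_cases h2 : x = w
    · rw [h2, tw]
      by_cases h3 : u = w
      · rw [h3] at tw ⊢
        exact tw
      · exact tu h3
    by_cases h3 : x = u
    · rw [h3, tu (by rw [← h3]; exact h2), tw]
    rw [tx x h1 h2 h3]
    rw [hdx x h1 h3] at hx
    rw [tx _ (ex1 x hx h2) (ex2 x hx h1) (ex3 x hx h1)]
    exact h.inv x hx
  · intro x hx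
    by_cases h1 : x = v
    · rw [h1, tv]
      exact Relation.ReflTransGen.refl
    by_cases h2 : x = w
    · rw [h2, tw]
      exact hwu
    by_cases h3 : x = u
    · rw [h3, tu (by rw [← h3]; exact h2)]
      exact hwu.symm'
    rw [tx x h1 h2 h3]
    rw [hdx x h1 h3] at hx
    exact (con_rem hd hv hvu h1 (h.con x hx)).1 (ex1 x hx h2)
  · intro x hx
    by_cases h1 : x = v
    · rw [h1, tv]
    by_cases h2 : x = w
    · rw [h2, tw]
      by_contra h3
      rw [h2, hdx w hwv (fun h4 => h3 h4.symm)] at hx
      have h4 := h.iso w hx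
      rw [hθw] at h4
      exact hwv h4.symm
    by_cases h3 : x = u
    · exfalso
      rw [h3] at hx
      exact h2 (by rw [h3]; exact huw (by omega))
    rw [tx x h1 h2 h3]
    rw [hdx x h1 h3] at hx
    exact h.iso x hx
  · intro x hx
    by_cases h1 : x = v
    · rw [h1, hdv] at hx
      omega
    by_cases h2 : x = w
    · rw [h2, tw]
      intro h3
      rw [h2, ← h3] at hx
      rw [← h3] at hwd
      omega
    by_cases h3 : x = u
    · rw [h3, tu (by rw [← h3]; exact h2), ← h3]
      exact fun h4 => h2 h4.symm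
    rw [tx x h1 h2 h3]
    rw [hdx x h1 h3] at hx
    exact h.one x hx
  · intro x y hx hy hxy
    by_cases h1 : x = v
    · rw [h1] at hxy ⊢
      exact Or.inl (con_iso hdv hxy)
    by_cases hyv : y = v
    · rw [hyv] at hxy
      exact absurd (con_iso hdv hxy.symm') h1
    by_cases h2 : x = w
    · rw [h2, tw]
      by_cases h3 : y = u
      · exact Or.inr h3
      · rw [hdx y hyv h3] at hy
        rw [h2] at hxy
        rcases h.uni w y hwd hy (hmono hxy) with h4 | h4
        · exact Or.inl h4
        · rw [hθw] at h4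
          exact absurd h4 hyv
    by_cases h3 : x = u
    · rw [h3, tu (by rw [← h3]; exact h2)]
      by_cases h4 : y = u
      · exact Or.inl h4
      · rw [hdx y hyv h4] at hy
        rw [h3] at hxy
        rcases h.uni v y hv.le hy (hcu.trans (hmono hxy)) with h5 | h5
        · exact absurd h5 hyv
        · rw [hw]
          exact Or.inr h5
    rw [tx x h1 h2 h3]
    rw [hdx x h1 h3] at hx
    by_cases h4 : y = u
    · exfalso
      rw [h4] at hxy
      rcases h.uni x v hx hv.le ((hmono hxy).trans hcu.symm') with h5 | h5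
      · exact h1 h5.symm
      · exact ex1 x hx h2 h5.symm
    · rw [hdx y hyv h4] at hy
      exact h.uni x y hx hy (hmono hxy)
  · intro x
    by_cases h1 : x = v
    · rw [h1]
      exact ⟨v, by rw [hdv]; exact Nat.zero_le _, Relation.ReflTransGen.refl⟩
    · obtain ⟨y, hy, hxy⟩ := h.ex x
      by_cases h2 : y = v
      · refine ⟨u, ?_, (con_rem hd hv hvu h1 hxy).2 h2⟩
        have := h.deg u
        omega
      · exact ⟨y, (hle y).trans hy, (con_rem hd hv hvu h1 hxy).1 h2⟩

end Pool.Agent.H.MP_5bc4af.L3
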