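import Pool.Agent.H.MP_5bc4af_co.L3.LFa
import Pool.Agent.H.MP_5bc4af_co.L3.LFr

/-!
# Every graph of maximum degree two without cycles is a linear forest

Induction on the number of edges, for example on `∑ v, dg f v`. If all degrees are `0` then `f = 0`
(off the diagonal, use `hd`) and `LF.zero` holds. Otherwise take `x` with `dg f x ≠ 0`; by `hex` there
is `v` with `dg f v ≤ 1`, `Con f x v`, and `dg f v = 1` (a vertex of degree zero is alone, `con_iso`).
Let `u` be its neighbour, `g = f + ev v u`. By `con_rem` every vertex is joined in `g` to a vertex of
degree at most one (to `u` if it was joined to `v` only). Induction gives `LF g θ`; `v` is isolated in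
`g`, so `θ v = v ≠ u`, and `LF.add` gives the claim for `g + ev v u = f`.
-/

namespace Pool.Agent.H.MP_5bc4af.L3

open Finset Pool.Agent.H.MP_5bc4af.H5

variable {V : Type*} [Fintype V] [DecidableEq V]

theorem LF.exists (f : Sym2 V → ZMod 2) (hd : ∀ v, f s(v, v) = 0) (h2 : ∀ v, dg f v ≤ 2)
    (hex : ∀ v, ∃ w, dg f w ≤ 1 ∧ Con f v w) : ∃ θ, LF f θ := by
  classical
  have key : ∀ (n : ℕ) (f : Sym2 V → ZMod 2), ∑ v, dg f v = n → (∀ v, f s(v, v) = 0) →
      (∀ v, dg f v ≤ 2) → (∀ v, ∃ w, dg f w ≤ 1 ∧ Con f v w) → ∃ θ, LF f θ := by
    intro n
    induction n using Nat.strong_induction_on with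
    | _ n ih =>
      intro f hn hd h2 hex
      by_cases h0 : ∀ x, dg f x = 0
      · have hf : f = 0 := by
          funext z
          induction z using Sym2.ind with
          | _ x y =>
            by_contra hne
            have h1 := h0 x
            unfold dg at h1
            rw [Finset.card_eq_zero, Finset.filter_eq_empty_iff] at h1
            exact h1 (Finset.mem_univ y) hne
        rw [hf]
        exact ⟨id, LF.zero⟩
      · push Not at h0
        obtain ⟨x, hx⟩ := h0
        obtain ⟨v, hv1, hxv⟩ := hex x
        have hv0 : dg f v ≠ 0 := by
          intro h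
          have h1 := con_iso h hxv.symm'
          exact hx (by rw [h1, h])
        have hv : dg f v = 1 := by omega
        obtain ⟨u, hu⟩ : ∃ u, f s(v, u) ≠ 0 := by
          have h1 : 0 < dg f v := by omega
          unfold dg at h1
          obtain ⟨u, hu⟩ := Finset.card_pos.1 h1
          exact ⟨u, (Finset.mem_filter.1 hu).2⟩
        have hvu : v ≠ u := by
          rintro rfl
          exact hu (hd v)
        have hdel := dg_del_ev f hvu hu
        have hle : ∀ y, dg (f + ev v u) y ≤ dg f y := fun y => by
          have := hdel y
          omega
        have hgv : dg (f + ev v u) v = 0 := by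
          have := hdel v
          rw [if_pos rfl, if_neg hvu] at this
          omega
        have hgu : dg (f + ev v u) u ≤ 1 := by
          have h1 := hdel u
          have h3 := h2 u
          rw [if_neg hvu.symm, if_pos rfl] at h1
          omega
        have hlt : ∑ y, dg (f + ev v u) y < n := by
          rw [← hn]
          exact Finset.sum_lt_sum (fun y _ => hle y) ⟨v, Finset.mem_univ v, by omega⟩
        obtain ⟨θ, hθ⟩ := ih _ hlt (f + ev v u) rfl (fun w => by
          change f s(w, w) + ev v u s(w, w) = 0
          rw [hd, ev_diag, add_zero]) (fun w => (hle w).trans (h2 w)) (fun y => by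
            by_cases hy : y = v
            · subst hy
              exact ⟨y, by omega, Relation.ReflTransGen.refl⟩
            · obtain ⟨w, hw, hyw⟩ := hex y
              obtain ⟨h3, h4⟩ := con_rem hd hv hu hy hyw
              by_cases hwv : w = v
              · exact ⟨u, hgu, h4 hwv⟩
              · exact ⟨w, (hle w).trans hw, h3 hwv⟩)
        have h5 : θ v ≠ u := by
          rw [hθ.iso v hgv]
          exact hvu
        have h6 := hθ.add hvu (by omega) hgu h5
        have h7 : f + ev v u + ev v u = f := by
          have h8 : ev v u + ev v u = 0 := by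
            funext z
            exact CharTwo.add_self_eq_zero _
          rw [add_assoc, h8, add_zero]
        rw [h7] at h6
        exact ⟨_, h6⟩
  exact key _ f rfl hd h2 hex

end Pool.Agent.H.MP_5bc4af.L3
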