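import Pool.Agent.H.MP_5bc4af_co.L3.Def

/-!
# The choice of the first four arcs

`z`, `z'` are moved by `σ` and by `τ`, on different cycles of both. `Nb σ z a`: `a` is one of the two
neighbours `σ z`, `σ⁻¹ z` of `z` (different by `P3`). Call `(a, a')` blocked if
`∃ x, τ x ≠ x ∧ ¬ τ.SameCycle z x ∧ ¬ τ.SameCycle z' x ∧ ¬ Avd τ {a, a'} x`.
(1) A nontrivial cycle of `τ` has an arc which avoids one given vertex (length at least three). So if
`(a, a')` is blocked by the cycle of `x` then `a`, `a'` are on this cycle and every arc of it contains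
`a` or `a'`.
(2) If `a` is on the `τ`-cycle of `z` or `z'` (for example `a` is a `τ`-neighbour of `z'`) then
`(a, a')` is not blocked. Same for `a'`.
(3) If `(a, c)` and `(a, c')` are blocked for the two `σ`-neighbours `c ≠ c'` of `z'`, then all are on
one `τ`-cycle (the one of `a`), and the two `τ`-neighbours of `c` are `a` and `c'` (both arcs at `c`
contain `a` or `c'`, by the second blocking), the two `τ`-neighbours of `c'` are `a` and `c`; so the
cycle is `{a, c, c'}`, and `Nb τ a c`. In particular `(a₂, c)` is not blocked for the other neighbour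
`a₂` of `z` (it is not on this cycle: `a₂ ≠ a`, and `a₂` is not on the `σ`-cycle of `z'`).
The same with `σ` and `τ` exchanged for `b`, `b'`.
(4) Case N: no `σ`-neighbour of `z` is a `τ`-neighbour of `z'` and no `τ`-neighbour of `z` is a
`σ`-neighbour of `z'`: by (3) there are an unblocked `(a, a')` and an unblocked `(b, b')`.
(5) Case E: `a₁ = b₁'` is a `σ`-neighbour of `z` and a `τ`-neighbour of `z'`. Let `a₂`, `b₂'` be the
other neighbours. `(a₁, y)` is never blocked, `(w, b₁')` is never blocked (2). If `(a₂, y)` is not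
blocked for some `σ`-neighbour `y` of `z'` take `a₂, w, y, b₁'` with a `τ`-neighbour `w ≠ y` of `z`. If
`(w, b₂')` is not blocked for some `τ`-neighbour `w` of `z` take `a₁, w, y, b₂'` with a
`σ`-neighbour `y ≠ w` of `z'`. Otherwise by (3) `a₂`, `c`, `c'` (the `σ`-neighbours of `z'`) are a
`τ`-triangle. Take the new `z := a₂`, `a := z`, `b := c`, and `z'`, `a' := c'`, `b' := b₂'`. Then
`a ≠ b'` (`z` is not on the `τ`-cycle of `z'`), `a' ≠ b`; a cycle of `τ` other than those of `a₂` and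
`z'` does not contain `c'`, so it has to avoid `z` only; a cycle of `σ` other than those of `a₂` (= that of
`z`) and `z'` does not contain `c`, so it has to avoid `b₂'` only: (1).
The case of a common vertex of the `τ`-neighbours of `z` and the `σ`-neighbours of `z'` is the same
with `z` and `z'` exchanged (the conclusion is symmetric).
-/

namespace Pool.Agent.H.MP_5bc4af.L3

open Finset Pool.Agent.H.MP_5bc4af.H5

variable {V : Type*} [Fintype V] [DecidableEq V]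

private lemma Sel_sc {σ : Equiv.Perm V} {x y : V} (h : Nb σ x y) : σ.SameCycle x y := by
  rcases h with rfl | rfl
  · exact Equiv.Perm.sameCycle_apply_right.2 (Equiv.Perm.SameCycle.refl _ _)
  · exact Equiv.Perm.sameCycle_apply_left.2 (Equiv.Perm.SameCycle.refl _ _)

private lemma Sel_symm {σ : Equiv.Perm V} {x y : V} (h : Nb σ x y) : Nb σ y x := by
  rcases h with h | h
  · exact Or.inr h
  · exact Or.inl h

private lemma Sel_mv {σ : Equiv.Perm V} {x y : V} (h : σ.SameCycle x y) (hx : σ x ≠ x) :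
    σ y ≠ y := by
  intro hy
  exact hx ((h.apply_eq_self_iff).2 hy)

private lemma Sel_two {σ : Equiv.Perm V} (h : P3 σ) {z a : V} (hz : σ z ≠ z) (ha : Nb σ z a) :
    ∃ b, Nb σ z b ∧ b ≠ a := by
  rcases ha with rfl | ha
  · refine ⟨σ⁻¹ z, Or.inr (by simp), fun he => h z hz ?_⟩
    rw [← he]; simp
  · refine ⟨σ z, Or.inl rfl, fun he => ?_⟩
    apply h z hz
    rw [he, ← ha]

private lemma Sel_av {τ : Equiv.Perm V} (h : P3 τ) {x : V} (hx : τ x ≠ x) (a : V) :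
    Avd τ {a} x := by
  have s1 : τ.SameCycle x (τ x) := Equiv.Perm.sameCycle_apply_right.2 (Equiv.Perm.SameCycle.refl _ _)
  have s2 : τ.SameCycle x (τ (τ x)) := Equiv.Perm.sameCycle_apply_right.2 s1
  have hp := h x hx
  by_cases h1 : a = x
  · subst h1
    exact ⟨τ a, s1, by simpa using hx, by simpa using hp⟩
  · by_cases h2 : a = τ x
    · subst h2
      refine ⟨τ (τ x), s2, ?_, ?_⟩
      · simpa using hx
      · simpa using hp
    · exact ⟨x, Equiv.Perm.SameCycle.refl _ _, by simpa using Ne.symm h1, by simpa using Ne.symm h2⟩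

private lemma Sel_off {τ : Equiv.Perm V} (h : P3 τ) {x a a' : V} (hx : τ x ≠ x)
    (ha : ¬ τ.SameCycle x a) : Avd τ {a, a'} x := by
  obtain ⟨t, h1, h2, h3⟩ := Sel_av h hx a'
  refine ⟨t, h1, ?_, ?_⟩
  · simp only [mem_insert, mem_singleton, not_or] at h2 ⊢
    exact ⟨fun he => ha (he ▸ h1), h2⟩
  · simp only [mem_insert, mem_singleton, not_or] at h3 ⊢
    exact ⟨fun he => ha (he ▸ (Equiv.Perm.sameCycle_apply_right.2 h1)), h3⟩

private lemma Sel_off' {τ : Equiv.Perm V} (h : P3 τ) {x a a' : V} (hx : τ x ≠ x)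
    (ha : ¬ τ.SameCycle x a') : Avd τ {a, a'} x := by
  rw [Finset.pair_comm]
  exact Sel_off h hx ha

private lemma Sel_blk {τ : Equiv.Perm V} (h : P3 τ) {x a a' : V} (hx : τ x ≠ x)
    (hn : ¬ Avd τ {a, a'} x) : τ.SameCycle x a ∧ τ.SameCycle x a' ∧
      ∀ t, τ.SameCycle x t → t = a ∨ t = a' ∨ τ t = a ∨ τ t = a' := by
  refine ⟨?_, ?_, fun t ht => ?_⟩
  · by_contra hc
    exact hn (Sel_off h hx hc)
  · by_contra hc
    exact hn (Sel_off' h hx hc)
  · by_contra hc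
    simp only [not_or] at hc
    exact hn ⟨t, ht, by simp [hc.1, hc.2.1], by simp [hc.2.2.1, hc.2.2.2]⟩

private lemma Sel_clo {τ : Equiv.Perm V} {a b c : V} (h1 : τ a = b) (h2 : τ b = c) (h3 : τ c = a)
    (t : V) (ht : τ.SameCycle a t) : t = a ∨ t = b ∨ t = c := by
  obtain ⟨i, -, hi⟩ := ht.exists_pow_eq'
  subst hi
  induction i with
  | zero => left; simp
  | succ k ih =>
    rw [pow_succ', Equiv.Perm.mul_apply]
    have ht' : τ.SameCycle a ((τ ^ k) a) := ⟨k, by simp⟩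
    rcases ih ht' with h | h | h <;> rw [h]
    · right; left; exact h1
    · right; right; exact h2
    · left; exact h3

private lemma Sel_tri {τ : Equiv.Perm V} (h : P3 τ) {x x' a c c' : V} (hx : τ x ≠ x)
    (hx' : τ x' ≠ x') (hac : c ≠ a) (hac' : c' ≠ a) (hcc : c ≠ c')
    (h1 : ¬ Avd τ {a, c} x) (h2 : ¬ Avd τ {a, c'} x') :
    Nb τ a c ∧ τ.SameCycle a c' ∧ ∀ t, τ.SameCycle a t → t = a ∨ t = c ∨ t = c' := by
  obtain ⟨sa, sc, F1⟩ := Sel_blk h hx h1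
  obtain ⟨sa', sc', F2⟩ := Sel_blk h hx' h2
  have ac : τ.SameCycle a c := sa.symm.trans sc
  have ac' : τ.SameCycle a c' := sa'.symm.trans sc'
  have mc : τ c ≠ c := Sel_mv sc hx
  have mc' : τ c' ≠ c' := Sel_mv sc' hx'
  have e1 : τ c = a ∨ τ c = c' := by
    have := F2 c (sa'.trans ac)
    tauto
  have e2 : c = τ a ∨ c = τ c' := by
    have hi : τ (τ⁻¹ c) = c := by simp
    have h3 : τ.SameCycle x' (τ⁻¹ c) :=
      Equiv.Perm.sameCycle_apply_right.1 (by rw [hi]; exact sa'.trans ac)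
    have := F2 _ h3
    rw [hi] at this
    rcases this with h4 | h4 | h4 | h4
    · left; rw [← h4]; simp
    · right; rw [← h4]; simp
    · exact absurd h4 hac
    · exact absurd h4 hcc
  have e3 : τ c' = a ∨ τ c' = c := by
    have := F1 c' (sa.trans ac')
    have hcc' : c' ≠ c := hcc.symm
    tauto
  have e4 : c' = τ a ∨ c' = τ c := by
    have hi : τ (τ⁻¹ c') = c' := by simp
    have h3 : τ.SameCycle x (τ⁻¹ c') :=
      Equiv.Perm.sameCycle_apply_right.1 (by rw [hi]; exact sa.trans ac')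
    have := F1 _ h3
    rw [hi] at this
    rcases this with h4 | h4 | h4 | h4
    · left; rw [← h4]; simp
    · right; rw [← h4]; simp
    · exact absurd h4 hac'
    · exact absurd h4 hcc.symm
  rcases e1 with e1 | e1
  · have e2' : c = τ c' := by
      rcases e2 with h5 | h5
      · exact absurd (by rw [e1, ← h5]) (h c mc)
      · exact h5
    have e4' : c' = τ a := by
      rcases e4 with h5 | h5
      · exact h5
      · rw [e1] at h5; exact absurd h5 hac'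
    refine ⟨Or.inr e1.symm, ac', fun t ht => ?_⟩
    rcases Sel_clo e4'.symm e2'.symm e1 t ht with h6 | h6 | h6
    · exact Or.inl h6
    · exact Or.inr (Or.inr h6)
    · exact Or.inr (Or.inl h6)
  · have e2' : c = τ a := by
      rcases e2 with h5 | h5
      · exact h5
      · exact absurd (by rw [e1, ← h5]) (h c mc)
    have e3' : τ c' = a := by
      rcases e3 with h5 | h5
      · exact h5
      · exact absurd (by rw [e1, h5]) (h c mc)
    exact ⟨Or.inl e2', ac', fun t ht => Sel_clo e2'.symm e1 e3' t ht⟩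

/-- the conclusion -/
private def Sel_C (σ τ : Equiv.Perm V) : Prop :=
  ∃ z z' a b a' b' : V, (σ z ≠ z ∧ τ z ≠ z ∧ σ z' ≠ z' ∧ τ z' ≠ z') ∧
      (¬ σ.SameCycle z z' ∧ ¬ τ.SameCycle z z') ∧
      (Nb σ z a ∧ Nb τ z b ∧ Nb σ z' a' ∧ Nb τ z' b') ∧ a ≠ b' ∧ a' ≠ b ∧
      (∀ x, τ x ≠ x → ¬ τ.SameCycle z x → ¬ τ.SameCycle z' x → Avd τ {a, a'} x) ∧
      ∀ x, σ x ≠ x → ¬ σ.SameCycle z x → ¬ σ.SameCycle z' x → Avd σ {b, b'} x

private lemma Sel_E {σ τ : Equiv.Perm V} (hs : P3 σ) (ht : P3 τ) {z z' : V}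
    (h1 : σ z ≠ z) (h2 : τ z ≠ z) (h3 : σ z' ≠ z') (h4 : τ z' ≠ z')
    (h5 : ¬ σ.SameCycle z z') (h6 : ¬ τ.SameCycle z z') {a₁ : V} (ha : Nb σ z a₁)
    (hb : Nb τ z' a₁) : Sel_C σ τ := by
  obtain ⟨a₂, ha₂, hne⟩ := Sel_two hs h1 ha
  obtain ⟨b₂, hb₂, hnb⟩ := Sel_two ht h4 hb
  have hc : Nb σ z' (σ z') := Or.inl rfl
  obtain ⟨c', hc', hcc⟩ := Sel_two hs h3 hc
  set c := σ z' with hcdef
  have hw : Nb τ z (τ z) := Or.inl rfl
  obtain ⟨w', hw', hww⟩ := Sel_two ht h2 hw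
  have sza : σ.SameCycle z a₂ := Sel_sc ha₂
  by_cases hE : ∃ y, Nb σ z' y ∧
      ∀ x, τ x ≠ x → ¬ τ.SameCycle z x → ¬ τ.SameCycle z' x → Avd τ {a₂, y} x
  · obtain ⟨y, hy, hav⟩ := hE
    obtain ⟨w, hw2, hwy⟩ : ∃ w, Nb τ z w ∧ y ≠ w := by
      by_cases h7 : y = w'
      · exact ⟨τ z, hw, fun h8 => hww (h7.symm.trans h8)⟩
      · exact ⟨w', hw', h7⟩
    refine ⟨z, z', a₂, w, y, a₁, ⟨h1, h2, h3, h4⟩, ⟨h5, h6⟩, ⟨ha₂, hw2, hy, hb⟩, hne, hwy, hav, ?_⟩
    intro x hx hx1 _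
    exact Sel_off' hs hx fun h8 => hx1 ((Sel_sc ha).trans h8.symm)
  · push Not at hE
    obtain ⟨x, hx, hx1, hx2, hx3⟩ := hE c hc
    obtain ⟨x', hx', hx1', hx2', hx3'⟩ := hE c' hc'
    have hca : c ≠ a₂ := by
      intro he
      exact h5 (sza.trans (he ▸ (Sel_sc hc).symm))
    have hca' : c' ≠ a₂ := by
      intro he
      exact h5 (sza.trans (he ▸ (Sel_sc hc').symm))
    obtain ⟨t1, t2, -⟩ := Sel_tri ht hx hx' hca hca' hcc.symm hx3 hx3'
    obtain ⟨sxa, -, -⟩ := Sel_blk ht hx hx3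
    refine ⟨a₂, z', z, c, c', b₂, ⟨Sel_mv sza h1, Sel_mv sxa hx, h3, h4⟩,
      ⟨fun h7 => h5 (sza.trans h7), fun h7 => hx2 (h7.symm.trans sxa.symm)⟩,
      ⟨Sel_symm ha₂, t1, hc', hb₂⟩, ?_, hcc, ?_, ?_⟩
    · intro he
      exact h6 (he ▸ (Sel_sc hb₂).symm)
    · intro y hy hy1 _
      exact Sel_off' ht hy fun h8 => hy1 (t2.trans h8.symm)
    · intro y hy _ hy2
      exact Sel_off hs hy fun h8 => hy2 ((Sel_sc hc).trans h8.symm)

/-- an unblocked pair of neighbours -/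
private lemma Sel_un {σ τ : Equiv.Perm V} (hs : P3 σ) (ht : P3 τ) {z z' : V}
    (h1 : σ z ≠ z) (h3 : σ z' ≠ z') (h5 : ¬ σ.SameCycle z z') :
    ∃ a a', Nb σ z a ∧ Nb σ z' a' ∧
      ∀ x, τ x ≠ x → ¬ τ.SameCycle z x → ¬ τ.SameCycle z' x → Avd τ {a, a'} x := by
  by_contra hcon
  push Not at hcon
  have ha : Nb σ z (σ z) := Or.inl rfl
  have hc : Nb σ z' (σ z') := Or.inl rfl
  obtain ⟨a₂, ha₂, hne⟩ := Sel_two hs h1 ha
  obtain ⟨c', hc', hcc⟩ := Sel_two hs h3 hc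
  have hoff : ∀ {a c : V}, Nb σ z a → Nb σ z' c → c ≠ a := by
    intro a c h7 h8 he
    exact h5 ((Sel_sc h7).trans (he ▸ (Sel_sc h8).symm))
  obtain ⟨x, hx, -, -, hx3⟩ := hcon _ _ ha hc
  obtain ⟨x', hx', -, -, hx3'⟩ := hcon _ _ ha hc'
  obtain ⟨y, hy, -, -, hy3⟩ := hcon _ _ ha₂ hc
  obtain ⟨-, -, hcl⟩ := Sel_tri ht hx hx' (hoff ha hc) (hoff ha hc') hcc.symm hx3 hx3'
  obtain ⟨s1, s2, -⟩ := Sel_blk ht hx hx3
  obtain ⟨s3, s4, -⟩ := Sel_blk ht hy hy3
  have s5 : τ.SameCycle (σ z) a₂ := s1.symm.trans (s2.trans (s4.symm.trans s3))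
  rcases hcl a₂ s5 with h7 | h7 | h7
  · exact hne h7
  · exact hoff ha₂ hc h7.symm
  · exact hoff ha₂ hc' h7.symm

theorem sel {σ τ : Equiv.Perm V} (hs : P3 σ) (ht : P3 τ) (hd : Dj σ τ) {z z' : V}
    (h1 : σ z ≠ z) (h2 : τ z ≠ z) (h3 : σ z' ≠ z') (h4 : τ z' ≠ z')
    (h5 : ¬ σ.SameCycle z z') (h6 : ¬ τ.SameCycle z z') :
    ∃ z z' a b a' b' : V, (σ z ≠ z ∧ τ z ≠ z ∧ σ z' ≠ z' ∧ τ z' ≠ z') ∧
      (¬ σ.SameCycle z z' ∧ ¬ τ.SameCycle z z') ∧
      (Nb σ z a ∧ Nb τ z b ∧ Nb σ z' a' ∧ Nb τ z' b') ∧ a ≠ b' ∧ a' ≠ b ∧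
      (∀ x, τ x ≠ x → ¬ τ.SameCycle z x → ¬ τ.SameCycle z' x → Avd τ {a, a'} x) ∧
      ∀ x, σ x ≠ x → ¬ σ.SameCycle z x → ¬ σ.SameCycle z' x → Avd σ {b, b'} x := by
  classical
  by_cases hE : ∃ a, Nb σ z a ∧ Nb τ z' a
  · obtain ⟨a, ha, hb⟩ := hE
    exact Sel_E hs ht h1 h2 h3 h4 h5 h6 ha hb
  by_cases hE' : ∃ a, Nb σ z' a ∧ Nb τ z a
  · obtain ⟨a, ha, hb⟩ := hE'
    exact Sel_E hs ht h3 h4 h1 h2 (fun h => h5 h.symm) (fun h => h6 h.symm) ha hb
  push Not at hE hE'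
  obtain ⟨a, a', ha, ha', hav⟩ := Sel_un hs ht h1 h3 h5
  obtain ⟨b, b', hb, hb', hbv⟩ := Sel_un ht hs h2 h4 h6
  exact ⟨z, z', a, b, a', b', ⟨h1, h2, h3, h4⟩, ⟨h5, h6⟩, ⟨ha, hb, ha', hb'⟩,
    fun he => hE a ha (he ▸ hb'), fun he => hE' a' ha' (he ▸ hb), hav, hbv⟩

end Pool.Agent.H.MP_5bc4af.L3
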