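import Pool.Agent.H.MP_5bc4af_co.L3.T5
import Pool.Agent.H.MP_5bc4af_co.L3.Build
import Pool.Agent.H.MP_5bc4af_co.L3.Sel
import Pool.Agent.H.MP_5bc4af_co.L3.Init
import Pool.Agent.H.MP_5bc4af_co.helper5.Merge

/-!
# Two permutations: three cycles; grouping in pairs

`nomatch`: there are no common vertices `z, z'` of the two supports on different cycles of `σ` and
of `τ`. Then all common vertices are on one cycle of `σ` or all are on one cycle of `τ`. Say all are on
the cycle of `c` of `σ` (if there is no common vertex: `σ` and `τ` are disjoint permutations,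
`chi_mul`, `cov_perm`). Let `κ = σ.cycleOf c`, `ρ = σ * κ⁻¹`: `κ` is a cycle, `Disjoint κ ρ`,
`chi σ = chi κ + chi ρ` (`chi_mul`), `Disjoint ρ τ`, `chi ρ + chi τ = chi (ρ * τ)`; `Cov.chi` and
`cov_perm` (helper5/Merge.lean) give `1 + 2`.

`pair3`: otherwise `sel`, `init`, `build`, then `ndone` if `cc` is even and `toggle` if it is odd.

`group`: induction on `r` in steps of two (`Fin.sum_univ_castSucc`), `2` for the last one if `r` is
odd: `Cov (∑ j, chi (σ j)) ((3 * r + 1) / 2)`.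
-/

namespace Pool.Agent.H.MP_5bc4af.L3

open Finset Pool.Agent.H.MP_5bc4af.H5

variable {V : Type*} [Fintype V] [DecidableEq V]

private theorem Pair_one {σ τ : Equiv.Perm V} {c : V} (hc : σ c ≠ c)
    (h : ∀ z, σ z ≠ z → τ z ≠ z → σ.SameCycle c z) : Cov (chi σ + chi τ) 3 := by
  obtain ⟨κ, hκ⟩ : ∃ κ : Equiv.Perm V, κ = σ.cycleOf c := ⟨_, rfl⟩
  obtain ⟨ρ, hρ⟩ : ∃ ρ : Equiv.Perm V, ρ = σ * κ⁻¹ := ⟨_, rfl⟩
  have hm : κ ∈ σ.cycleFactorsFinset := by
    rw [hκ, Equiv.Perm.cycleOf_mem_cycleFactorsFinset_iff, Equiv.Perm.mem_support]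
    exact hc
  have hd : Equiv.Perm.Disjoint ρ κ := by
    rw [hρ]
    exact Equiv.Perm.disjoint_mul_inv_of_mem_cycleFactorsFinset hm
  have hcyc : κ.IsCycle := (Equiv.Perm.mem_cycleFactorsFinset_iff.1 hm).1
  have hσ : ρ * κ = σ := by rw [hρ, inv_mul_cancel_right]
  have hd2 : Equiv.Perm.Disjoint ρ τ := by
    intro v
    by_contra hcon
    push Not at hcon
    obtain ⟨h1, h2⟩ := hcon
    have h3 : κ v = v := (hd v).resolve_left h1
    have h4 : σ v = ρ v := by rw [← hσ, Equiv.Perm.mul_apply, h3]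
    have h5 : σ v ≠ v := by rw [h4]; exact h1
    have h6 : κ v = σ v := by
      rw [hκ]
      exact (h v h5 h2).cycleOf_apply
    exact h5 (h6 ▸ h3)
  have e : chi σ + chi τ = chi κ + chi (ρ * τ) := by
    rw [← hσ, chi_mul hd, chi_mul hd2]
    abel
  rw [e]
  exact (Cov.chi (Or.inr hcyc)).add (cov_perm (ρ * τ))

theorem nomatch' {σ τ : Equiv.Perm V}
    (hn : ∀ z z', σ z ≠ z → τ z ≠ z → σ z' ≠ z' → τ z' ≠ z' → σ.SameCycle z z' ∨ τ.SameCycle z z') :
    Cov (chi σ + chi τ) 3 := by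
  by_cases h0 : ∃ c, σ c ≠ c ∧ τ c ≠ c
  · obtain ⟨c, hc1, hc2⟩ := h0
    by_cases h1 : ∀ z, σ z ≠ z → τ z ≠ z → σ.SameCycle c z
    · exact Pair_one hc1 h1
    · push Not at h1
      obtain ⟨d, hd1, hd2, hd3⟩ := h1
      rw [add_comm]
      refine Pair_one hc2 fun z hz1 hz2 => ?_
      have hcd : τ.SameCycle c d := (hn c d hc1 hc2 hd1 hd2).resolve_left hd3
      rcases hn c z hc1 hc2 hz2 hz1 with h2 | h2
      · rcases hn d z hd1 hd2 hz2 hz1 with h3 | h3
        · exact absurd (h2.trans h3.symm) hd3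
        · exact hcd.trans h3
      · exact h2
  · push Not at h0
    have hd : Equiv.Perm.Disjoint σ τ := fun v => by
      by_cases h : σ v = v
      · exact Or.inl h
      · exact Or.inr (h0 v h)
    rw [← chi_mul hd]
    exact (cov_perm (σ * τ)).mono (by norm_num)

theorem pair3 {σ τ : Equiv.Perm V} (hs : P3 σ) (ht : P3 τ) (hd : Dj σ τ) :
    Cov (chi σ + chi τ) 3 := by
  by_cases hn : ∀ z z', σ z ≠ z → τ z ≠ z → σ z' ≠ z' → τ z' ≠ z' →
      σ.SameCycle z z' ∨ τ.SameCycle z z'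
  · exact nomatch' hn
  · push Not at hn
    obtain ⟨z, z', h1, h2, h3, h4, h5, h6⟩ := hn
    obtain ⟨z, z', a, b, a', b', hm, hc, hN, hab, hab', g1, g2⟩ := sel hs ht hd h1 h2 h3 h4 h5 h6
    obtain ⟨R, S, θ, hPS⟩ := init hs ht hd hm hc hN hab hab' g1 g2
    obtain ⟨R', S', θ', p1, q1, p2, q2, hNS, w1, w2, hne⟩ := build hPS
    by_cases he : Even (cc σ τ R' S')
    · exact ndone hNS he w1
    · exact toggle hNS he w1 w2 hne

theorem group (r : ℕ) (σ : Fin r → Equiv.Perm V) (h3 : ∀ j, P3 (σ j))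
    (hd : ∀ i j, i ≠ j → Dj (σ i) (σ j)) : Cov (∑ j, chi (σ j)) ((3 * r + 1) / 2) := by
  induction r using Nat.twoStepInduction with
  | zero =>
    rw [Fin.sum_univ_zero]
    exact Cov.zero
  | one =>
    rw [Fin.sum_univ_one]
    exact cov_perm _
  | more r ih _ =>
    rw [Fin.sum_univ_castSucc, Fin.sum_univ_castSucc, add_assoc]
    have h1 := ih (fun j => σ j.castSucc.castSucc) (fun j => h3 _) fun i j hij => hd _ _ fun h =>
      hij (Fin.castSucc_injective _ (Fin.castSucc_injective _ h))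
    have h2 : Cov (chi (σ (Fin.last r).castSucc) + chi (σ (Fin.last (r + 1)))) 3 :=
      pair3 (h3 _) (h3 _) (hd _ _ (Fin.castSucc_lt_last _).ne)
    have h4 := h1.add h2
    have e : (3 * r + 1) / 2 + 3 = (3 * (r + 2) + 1) / 2 := by omega
    rw [e] at h4
    exact h4

end Pool.Agent.H.MP_5bc4af.L3
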