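import Pool.Agent.H.MP_5bc4af_co.L3.Sym

/-!
# Treating one more cycle of `σ`

`x` is on a cycle of `σ` without chosen arc. By `av` there is `t` on it with `t, σ t ∉ Y`. The vertices
of this cycle are on no chosen `σ`-arc. `p, p'` are on chosen `σ`-arcs, so they are not on this cycle;
`q` (or `q'`) is on it only if `q ∈ Y` (`cq`), so `q, q' ∉ {t, σ t}`.
Case 1: `θ t ≠ σ t`. `R' = insert t R`, `LF.add` for `t, σ t` (degrees at most one: no `σ`-arc), end
map `upd θ t (σ t)`. Witnesses unchanged (`p, q, p', q' ∉ {t, σ t, θ t, θ (σ t)}`; for example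
`q = θ t` would give `t = θ q = p`).
Case 2: `θ t = σ t`. `R' = insert (σ t) R`, `LF.add` for `σ t, σ² t` (`θ (σ t) = t ≠ σ² t` by `P3`), end
map `upd θ (σ t) (σ² t)`. If `σ² t` is not one of `q, q'` the witnesses are unchanged. If `σ² t = q`
then the new end map sends `p = θ (σ² t)` to `θ (σ t) = t`: the new witness is `(p, t)`; `t` is on a
`τ`-arc (its degree is not zero because `θ t ≠ t`) and on no chosen `σ`-arc, and its `σ`-cycle is
treated now, so `cq` holds for `t`. Same for `q'`.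
The rest of `PS` is clear (`av` for the remaining cycles).
-/

namespace Pool.Agent.H.MP_5bc4af.L3

open Finset Pool.Agent.H.MP_5bc4af.H5

variable {V : Type*} [Fintype V] [DecidableEq V]

/-- the situation at an untreated cycle -/
private structure Fr (σ τ : Equiv.Perm V) (R S : Finset V) (θ : V → V) (x : V) : Prop where
  cyc : ∀ y, σ.SameCycle x y → y ∉ R ∧ σ⁻¹ y ∉ R
  mv : ∀ y, σ.SameCycle x y → σ y ≠ y
  le : ∀ y, σ.SameCycle x y → dg (arcs σ R + arcs τ S) y ≤ 1
  inc : ∀ y, σ.SameCycle x y → θ y ≠ y → Inc τ S y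
  lp : ∀ y, Inc σ R y → ¬ Inc τ S y → dg (arcs σ R + arcs τ S) y ≤ 1

private lemma fr_of {σ τ : Equiv.Perm V} {R S : Finset V} {θ : V → V} {p q p' q' : V}
    {X Y : Finset V} (h : PS σ τ R S θ p q p' q' X Y) {x : V} (hx : σ x ≠ x)
    (hn : ∀ v ∈ R, ¬ σ.SameCycle x v) : Fr σ τ R S θ x := by
  have hcyc : ∀ y, σ.SameCycle x y → y ∉ R ∧ σ⁻¹ y ∉ R := fun y hy =>
    ⟨fun hm => hn y hm hy, fun hm => hn _ hm (Equiv.Perm.sameCycle_symm_apply_right.mpr hy)⟩
  have hdg : ∀ y, dg (arcs σ R + arcs τ S) y =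
      ((if y ∈ R then 1 else 0) + (if σ⁻¹ y ∈ R then 1 else 0)) +
        ((if y ∈ S then 1 else 0) + (if τ⁻¹ y ∈ S then 1 else 0)) := fun y => by
    rw [dg_two h.sp h.tp h.dj h.rm h.sm, dg_arcs h.sp h.rm, dg_arcs h.tp h.sm]
  have hbS : ∀ y, ¬ (y ∈ S ∧ τ⁻¹ y ∈ S) := by
    rintro y ⟨h1, h2⟩
    have h3 := h.su y h1 _ h2
      (Equiv.Perm.sameCycle_symm_apply_right.mpr (Equiv.Perm.SameCycle.refl _ _))
    exact h.sm y h1 (by
      have h4 : τ (τ⁻¹ y) = y := Equiv.apply_symm_apply τ y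
      rw [← h3] at h4
      exact h4)
  have hbR : ∀ y, ¬ (y ∈ R ∧ σ⁻¹ y ∈ R) := by
    rintro y ⟨h1, h2⟩
    have h3 := h.ru y h1 _ h2
      (Equiv.Perm.sameCycle_symm_apply_right.mpr (Equiv.Perm.SameCycle.refl _ _))
    exact h.rm y h1 (by
      have h4 : σ (σ⁻¹ y) = y := Equiv.apply_symm_apply σ y
      rw [← h3] at h4
      exact h4)
  refine ⟨hcyc, fun y hy e => hx (hy.apply_eq_self_iff.mpr e), fun y hy => ?_, fun y hy hne => ?_,
    fun y h1 h2 => ?_⟩
  · rw [hdg, if_neg (hcyc y hy).1, if_neg (hcyc y hy).2]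
    have := hbS y
    split_ifs <;> simp_all
  · by_contra hI
    apply hne
    apply h.lf.iso
    have h3 : y ∉ S ∧ τ⁻¹ y ∉ S := by
      unfold Inc at hI
      push Not at hI
      exact hI
    rw [hdg, if_neg (hcyc y hy).1, if_neg (hcyc y hy).2, if_neg h3.1, if_neg h3.2]
  · have h3 : y ∉ S ∧ τ⁻¹ y ∉ S := by
      unfold Inc at h2
      push Not at h2
      exact h2
    rw [hdg, if_neg h3.1, if_neg h3.2]
    have := hbR y
    split_ifs <;> simp_all

omit [Fintype V] in
private lemma arcs_insert {σ : Equiv.Perm V} {R : Finset V} {t : V} (ht : t ∉ R)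
    (g : Sym2 V → ZMod 2) : arcs σ (insert t R) + g = arcs σ R + g + ev t (σ t) := by
  unfold arcs
  rw [Finset.sum_insert ht]
  abel

omit [Fintype V] in
private lemma inc_insert {σ : Equiv.Perm V} {R : Finset V} {t y : V} :
    Inc σ (insert t R) y ↔ y = t ∨ y = σ t ∨ Inc σ R y := by
  unfold Inc
  rw [Finset.mem_insert, Finset.mem_insert, Equiv.Perm.inv_eq_iff_eq]
  constructor
  · rintro ((h | h) | (h | h))
    · exact Or.inl h
    · exact Or.inr (Or.inr (Or.inl h))
    · exact Or.inr (Or.inl h)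
    · exact Or.inr (Or.inr (Or.inr h))
  · rintro (h | h | h | h)
    · exact Or.inl (Or.inl h)
    · exact Or.inr (Or.inl h)
    · exact Or.inl (Or.inr h)
    · exact Or.inr (Or.inr h)

/-- assemble the new state -/
private lemma build {σ τ : Equiv.Perm V} {R S : Finset V} {θ θ' : V → V} {p q p' q' q1 q1' : V}
    {X Y : Finset V} (h : PS σ τ R S θ p q p' q' X Y) {x r : V}
    (hn : ∀ v ∈ R, ¬ σ.SameCycle x v) (hr : σ.SameCycle x r) (hm : σ r ≠ r)
    (lf : LF (arcs σ (insert r R) + arcs τ S) θ')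
    (w : Wit σ τ (insert r R) S θ' p q1) (w' : Wit σ τ (insert r R) S θ' p' q1')
    (cq : q1 ∈ Y ∨ σ q1 = q1 ∨ ∃ v ∈ insert r R, σ.SameCycle q1 v)
    (cq' : q1' ∈ Y ∨ σ q1' = q1' ∨ ∃ v ∈ insert r R, σ.SameCycle q1' v) :
    PS σ τ (insert r R) S θ' p q1 p' q1' X Y := by
  refine ⟨h.sp, h.tp, h.dj, ?_, ?_, h.sm, h.su, lf, w, w', h.ne, h.cp, h.cp', cq, cq', ?_, h.bv⟩
  · intro v hv
    rcases Finset.mem_insert.mp hv with rfl | hv
    · exact hm
    · exact h.rm v hv
  · intro v hv u hu hvu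
    rcases Finset.mem_insert.mp hv with rfl | hv
    · rcases Finset.mem_insert.mp hu with rfl | hu
      · rfl
      · exact absurd (hr.trans hvu) (hn u hu)
    · rcases Finset.mem_insert.mp hu with e | hu
      · exact absurd (hr.trans (e ▸ hvu.symm)) (hn v hv)
      · exact h.ru v hv u hu hvu
  · intro y hy hny
    exact h.av y hy (fun v hv => hny v (Finset.mem_insert_of_mem hv))

theorem step {σ τ : Equiv.Perm V} {R S : Finset V} {θ : V → V} {p q p' q' : V} {X Y : Finset V}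
    (h : PS σ τ R S θ p q p' q' X Y) {x : V} (hx : σ x ≠ x)
    (hn : ∀ v ∈ R, ¬ σ.SameCycle x v) :
    ∃ (r : V) (θ' : V → V) (q1 q1' : V), σ.SameCycle x r ∧
      PS σ τ (insert r R) S θ' p q1 p' q1' X Y := by
  obtain ⟨t, hxt, htY, hsY⟩ := h.av x hx hn
  have F := fr_of h hx hn
  have hxs : σ.SameCycle x (σ t) := Equiv.Perm.sameCycle_apply_right.mpr hxt
  have hxu : σ.SameCycle x (σ (σ t)) := Equiv.Perm.sameCycle_apply_right.mpr hxs
  have ht := F.mv t hxt
  have hs := F.mv _ hxs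
  have h3 : σ (σ t) ≠ t := h.sp t ht
  -- the first ends of the witnesses are not on the cycle
  have hpc : ∀ y, Inc σ R y → ¬ σ.SameCycle x y := by
    intro y hy hc
    rcases hy with hy | hy
    · exact (F.cyc y hc).1 hy
    · exact (F.cyc y hc).2 hy
  -- the second ends are not `t`, `σ t`
  have hqc : ∀ y, (y ∈ Y ∨ σ y = y ∨ ∃ v ∈ R, σ.SameCycle y v) → y ≠ t ∧ y ≠ σ t := by
    intro y hy
    have key : ∀ z, z ∉ Y → σ.SameCycle x z → y ≠ z := by
      rintro z hz hc rfl
      rcases hy with hy | hy | ⟨v, hv, hyv⟩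
      · exact hz hy
      · exact F.mv y hc hy
      · exact hn v hv (hc.trans hyv)
    exact ⟨key t htY hxt, key _ hsY hxs⟩
  have mono : ∀ (y r : V), (y ∈ Y ∨ σ y = y ∨ ∃ v ∈ R, σ.SameCycle y v) →
      (y ∈ Y ∨ σ y = y ∨ ∃ v ∈ insert r R, σ.SameCycle y v) := by
    rintro y r (hy | hy | ⟨v, hv, hyv⟩)
    · exact Or.inl hy
    · exact Or.inr (Or.inl hy)
    · exact Or.inr (Or.inr ⟨v, Finset.mem_insert_of_mem hv, hyv⟩)
  by_cases hcase : θ t = σ t
  · -- case 2
    have hθs : θ (σ t) = t := by rw [← hcase]; exact h.lf.inv t (F.le t hxt)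
    have hlf := h.lf.add (p := σ t) (q := σ (σ t)) (Ne.symm hs) (F.le _ hxs) (F.le _ hxu)
      (by rw [hθs]; exact Ne.symm h3)
    rw [← arcs_insert (F.cyc _ hxs).1] at hlf
    have one : ∀ a b, Wit σ τ R S θ a b →
        (b ∈ Y ∨ σ b = b ∨ ∃ v ∈ R, σ.SameCycle b v) →
        ∃ b1, Wit σ τ (insert (σ t) R) S (upd θ (σ t) (σ (σ t))) a b1 ∧
          (b1 ∈ Y ∨ σ b1 = b1 ∨ ∃ v ∈ insert (σ t) R, σ.SameCycle b1 v) := by
      intro a b w cb
      obtain ⟨hb1, hb2⟩ := hqc b cb
      have hat : a ≠ t := fun e => hpc a w.p1 (by rw [e]; exact hxt)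
      have hInc : Inc σ (insert (σ t) R) a := inc_insert.mpr (Or.inr (Or.inr w.p1))
      have hla := F.lp a w.p1 w.p2
      by_cases hb : b = σ (σ t)
      · refine ⟨t, ⟨hInc, w.p2, F.inc t hxt (by rw [hcase]; exact ht), ?_, ?_⟩,
          Or.inr (Or.inr ⟨σ t, Finset.mem_insert_self _ _,
            Equiv.Perm.sameCycle_apply_right.mpr (Equiv.Perm.SameCycle.refl _ _)⟩)⟩
        · rw [inc_insert]
          rintro (e | e | e)
          · exact ht e.symm
          · exact h3 e.symm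
          · exact hpc t e hxt
        · have hθu : θ (σ (σ t)) = a := by
            rw [← hb, ← w.th]
            exact h.lf.inv a hla
          unfold upd
          rw [hθs, hθu, if_neg hat, if_pos rfl]
      · refine ⟨b, ⟨hInc, w.p2, w.q1, ?_, ?_⟩, mono b _ cb⟩
        · rw [inc_insert]
          rintro (e | e | e)
          · exact hb2 e
          · exact hb e
          · exact w.q2 e
        · unfold upd
          rw [hθs, if_neg hat, if_neg, w.th]
          intro e
          apply hb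
          rw [← w.th, e]
          exact h.lf.inv _ (F.le _ hxu)
    obtain ⟨q1, w1, c1⟩ := one p q h.w h.cq
    obtain ⟨q1', w1', c1'⟩ := one p' q' h.w' h.cq'
    exact ⟨σ t, _, q1, q1', hxs, build h hn hxs hs hlf w1 w1' c1 c1'⟩
  · -- case 1
    have hlf := h.lf.add (p := t) (q := σ t) (Ne.symm ht) (F.le _ hxt) (F.le _ hxs) hcase
    rw [← arcs_insert (F.cyc _ hxt).1] at hlf
    have one : ∀ a b, Wit σ τ R S θ a b →
        (b ∈ Y ∨ σ b = b ∨ ∃ v ∈ R, σ.SameCycle b v) →
        Wit σ τ (insert t R) S (upd θ t (σ t)) a b := by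
      intro a b w cb
      obtain ⟨hb1, hb2⟩ := hqc b cb
      refine ⟨inc_insert.mpr (Or.inr (Or.inr w.p1)), w.p2, w.q1, ?_, ?_⟩
      · rw [inc_insert]
        rintro (e | e | e)
        · exact hb1 e
        · exact hb2 e
        · exact w.q2 e
      · unfold upd
        rw [if_neg, if_neg, w.th]
        · intro e
          apply hb2
          rw [← w.th, e]
          exact h.lf.inv _ (F.le _ hxs)
        · intro e
          apply hb1
          rw [← w.th, e]
          exact h.lf.inv _ (F.le _ hxt)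
    exact ⟨t, _, q, q', hxt, build h hn hxt ht hlf (one p q h.w h.cq) (one p' q' h.w' h.cq')
      (mono q t h.cq) (mono q' t h.cq')⟩

end Pool.Agent.H.MP_5bc4af.L3
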