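import Pool.Agent.H.MP_5bc4af_co.L3.Arc

/-!
# Symmetries of states: exchange of `σ` and `τ`, reversal of `σ`; degrees in a state
-/

namespace Pool.Agent.H.MP_5bc4af.L3

open Finset Pool.Agent.H.MP_5bc4af.H5

variable {V : Type*} [Fintype V] [DecidableEq V]

omit [Fintype V] [DecidableEq V] in
private theorem sym_ai (σ : Equiv.Perm V) (x : V) : σ (σ⁻¹ x) = x := σ.apply_symm_apply x

omit [Fintype V] [DecidableEq V] in
private theorem sym_ia (σ : Equiv.Perm V) (x : V) : σ⁻¹ (σ x) = x := σ.symm_apply_apply x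

omit [Fintype V] [DecidableEq V] in
private theorem sym_sc {σ : Equiv.Perm V} {u x : V} (h : σ.SameCycle u x) :
    σ.SameCycle u (σ⁻¹ x) := Equiv.Perm.sameCycle_symm_apply_right.2 h

omit [Fintype V] [DecidableEq V] in
theorem Dj.symm {σ τ : Equiv.Perm V} (h : Dj σ τ) : Dj τ σ :=
  fun x y hx hy e => h y x hy hx e.symm

omit [Fintype V] [DecidableEq V] in
theorem Dj.inv {σ τ : Equiv.Perm V} (h : Dj σ τ) : Dj σ⁻¹ τ := by
  intro x y hx hy e
  have h1 : σ (σ⁻¹ x) = x := sym_ai σ x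
  refine h (σ⁻¹ x) y ?_ hy ?_
  · rw [h1]; exact hx.symm
  · rw [h1, Sym2.eq_swap]; exact e

omit [Fintype V] [DecidableEq V] in
theorem P3.inv {σ : Equiv.Perm V} (h : P3 σ) : P3 σ⁻¹ := by
  intro x hx e
  have h2 : σ x ≠ x := fun e' => hx (by rw [Equiv.Perm.inv_eq_iff_eq]; exact e'.symm)
  apply h x h2
  have h3 : σ⁻¹ x = σ x := by rw [Equiv.Perm.inv_eq_iff_eq] at e; exact e
  rw [← h3]
  exact sym_ai σ x

theorem NS.swap {σ τ : Equiv.Perm V} {R S : Finset V} {θ : V → V} (h : NS σ τ R S θ) :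
    NS τ σ S R θ :=
  ⟨h.tp, h.sp, h.dj.symm, h.sm, h.su, h.se, h.rm, h.ru, h.re, by rw [add_comm]; exact h.lf⟩

theorem NS.rev {σ τ : Equiv.Perm V} {R S : Finset V} {θ : V → V} (h : NS σ τ R S θ) :
    NS σ⁻¹ τ (R.image σ) S θ := by
  refine ⟨h.sp.inv, h.tp, h.dj.inv, ?_, ?_, ?_, h.sm, h.su, h.se, by rw [arcs_inv]; exact h.lf⟩
  · intro v hv
    obtain ⟨u, hu, rfl⟩ := mem_image.1 hv
    rw [sym_ia]
    exact (h.rm u hu).symm
  · intro v hv w hw hc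
    obtain ⟨u, hu, rfl⟩ := mem_image.1 hv
    obtain ⟨u', hu', rfl⟩ := mem_image.1 hw
    rw [Equiv.Perm.sameCycle_inv, Equiv.Perm.sameCycle_apply_left,
      Equiv.Perm.sameCycle_apply_right] at hc
    rw [h.ru u hu u' hu' hc]
  · intro x hx
    have h2 : σ x ≠ x := fun e' => hx (by rw [Equiv.Perm.inv_eq_iff_eq]; exact e'.symm)
    obtain ⟨v, hv, hc⟩ := h.re x h2
    refine ⟨σ v, mem_image_of_mem _ hv, ?_⟩
    rw [Equiv.Perm.sameCycle_inv, Equiv.Perm.sameCycle_apply_right]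
    exact hc

theorem cc_swap (σ τ : Equiv.Perm V) (R S : Finset V) : cc σ τ R S = cc τ σ S R := by
  unfold cc
  congr 1
  ext x
  simp only [mem_filter, mem_univ, true_and]
  exact and_comm

theorem cc_rev (σ τ : Equiv.Perm V) (R S : Finset V) : cc σ⁻¹ τ (R.image σ) S = cc σ τ R S := by
  unfold cc
  congr 1
  ext x
  simp only [mem_filter, mem_univ, true_and, inc_inv]

private theorem sym_dg_one {σ : Equiv.Perm V} {R : Finset V} (hp : P3 σ)
    (hm : ∀ v ∈ R, σ v ≠ v) (hu : ∀ v ∈ R, ∀ w ∈ R, σ.SameCycle v w → v = w) {x : V}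
    (h1 : Inc σ R x) : dg (arcs σ R) x = 1 := by
  rw [dg_arcs hp hm]
  have hnb : ¬ (x ∈ R ∧ σ⁻¹ x ∈ R) := by
    rintro ⟨a, b⟩
    have hc : σ.SameCycle x (σ⁻¹ x) := sym_sc (Equiv.Perm.SameCycle.refl σ x)
    have e := hu x a _ b hc
    apply hm x a
    exact (Equiv.Perm.inv_eq_iff_eq.1 e.symm).symm
  rcases h1 with a | b
  · have : σ⁻¹ x ∉ R := fun b => hnb ⟨a, b⟩
    rw [if_pos a, if_neg this]
  · have : x ∉ R := fun a => hnb ⟨a, b⟩
    rw [if_neg this, if_pos b]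

private theorem sym_dg_zero {σ : Equiv.Perm V} {R : Finset V} (hp : P3 σ)
    (hm : ∀ v ∈ R, σ v ≠ v) {x : V} (h1 : ¬ Inc σ R x) : dg (arcs σ R) x = 0 := by
  rw [dg_arcs hp hm]
  unfold Inc at h1
  push Not at h1
  rw [if_neg h1.1, if_neg h1.2]

/-- an end which is only on a chosen `σ`-arc has degree one -/
theorem NS.dg_r {σ τ : Equiv.Perm V} {R S : Finset V} {θ : V → V} (h : NS σ τ R S θ) {x : V}
    (h1 : Inc σ R x) (h2 : ¬ Inc τ S x) : dg (arcs σ R + arcs τ S) x = 1 := by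
  rw [dg_two h.sp h.tp h.dj h.rm h.sm, sym_dg_one h.sp h.rm h.ru h1, sym_dg_zero h.tp h.sm h2]

theorem NS.dg_s {σ τ : Equiv.Perm V} {R S : Finset V} {θ : V → V} (h : NS σ τ R S θ) {x : V}
    (h1 : ¬ Inc σ R x) (h2 : Inc τ S x) : dg (arcs σ R + arcs τ S) x = 1 := by
  rw [dg_two h.sp h.tp h.dj h.rm h.sm, sym_dg_zero h.sp h.rm h1, sym_dg_one h.tp h.sm h.su h2]

theorem NS.dg_b {σ τ : Equiv.Perm V} {R S : Finset V} {θ : V → V} (h : NS σ τ R S θ) {x : V}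
    (h1 : Inc σ R x) (h2 : Inc τ S x) : dg (arcs σ R + arcs τ S) x = 2 := by
  rw [dg_two h.sp h.tp h.dj h.rm h.sm, sym_dg_one h.sp h.rm h.ru h1, sym_dg_one h.tp h.sm h.su h2]

theorem NS.dg_n {σ τ : Equiv.Perm V} {R S : Finset V} {θ : V → V} (h : NS σ τ R S θ) {x : V}
    (h1 : ¬ Inc σ R x) (h2 : ¬ Inc τ S x) : dg (arcs σ R + arcs τ S) x = 0 := by
  rw [dg_two h.sp h.tp h.dj h.rm h.sm, sym_dg_zero h.sp h.rm h1, sym_dg_zero h.tp h.sm h2]

theorem Wit.th' {σ τ : Equiv.Perm V} {R S : Finset V} {θ : V → V} (h : NS σ τ R S θ) {p q : V}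
    (w : Wit σ τ R S θ p q) : θ q = p := by
  rw [← w.th]
  exact h.lf.inv p (h.dg_r w.p1 w.p2).le

theorem Wit.swap {σ τ : Equiv.Perm V} {R S : Finset V} {θ : V → V} (h : NS σ τ R S θ) {p q : V}
    (w : Wit σ τ R S θ p q) : Wit τ σ S R θ q p :=
  ⟨w.q1, w.q2, w.p1, w.p2, w.th' h⟩

theorem Wit.rev {σ τ : Equiv.Perm V} {R S : Finset V} {θ : V → V} {p q : V}
    (w : Wit σ τ R S θ p q) : Wit σ⁻¹ τ (R.image σ) S θ p q :=
  ⟨(inc_inv σ R p).2 w.p1, w.p2, w.q1, fun e => w.q2 ((inc_inv σ R q).1 e), w.th⟩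

/-- two different witnesses have different second ends -/
theorem Wit.ne {σ τ : Equiv.Perm V} {R S : Finset V} {θ : V → V} (h : NS σ τ R S θ)
    {p q p' q' : V} (w : Wit σ τ R S θ p q) (w' : Wit σ τ R S θ p' q') (hp : p ≠ p') : q ≠ q' := by
  intro e
  apply hp
  rw [← w.th' h, ← w'.th' h, e]

/-- On the cycle of `u ∈ R` only `u` and `σ u` are ends of the chosen arc. -/
theorem NS.inc_cyc {σ τ : Equiv.Perm V} {R S : Finset V} {θ : V → V} (h : NS σ τ R S θ) {u x : V}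
    (hu : u ∈ R) (hx : σ.SameCycle u x) : Inc σ R x ↔ x = u ∨ x = σ u := by
  constructor
  · rintro (a | b)
    · exact Or.inl (h.ru u hu x a hx).symm
    · right
      have e := h.ru u hu _ b (sym_sc hx)
      rw [e, sym_ai]
  · rintro (e | e)
    · left; rw [e]; exact hu
    · right; rw [e, sym_ia]; exact hu

end Pool.Agent.H.MP_5bc4af.L3
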