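import Pool.Agent.H.MP_5bc4af_co.L3.Fin
import Pool.Agent.H.MP_5bc4af_co.L3.Sym
import Pool.Agent.H.MP_5bc4af_co.L3.LFa
import Pool.Agent.H.MP_5bc4af_co.L3.LFr

/-!
# Toggle, case 1: the arc `u → v` is replaced by `v → w`

`v = σ u`, `w = σ v`; `u` is on a `τ`-arc, `v` and `w` are not. `w ≠ u` (`P3`), `w` is not on a
chosen arc (`NS.inc_cyc`), `v` has degree one with neighbour `u`. New state `R' = (R.erase u) ∪ {v}`:
`arcs σ R' = arcs σ R + ev v u + ev v w`, `LF.rem` and `LF.add` (after `LF.rem` both `v` and `w` are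
isolated, `del θ v u v = v ≠ w`). New end map `upd (del θ v u) v w`. It is a normal state;
`cc` drops by one (only `u` leaves the common vertices), so it is even. One of the two witnesses has
`p ≠ v`; for it `p, q ∉ {u, v, w}` (`u` has degree two, `q` is on a `τ`-arc), `q ≠ θ v` (`Wit.ne`
type argument: `θ v = q` would give `p = v`), so the new end map sends `p` to `q`. `ndone`.
-/

namespace Pool.Agent.H.MP_5bc4af.L3

open Finset Pool.Agent.H.MP_5bc4af.H5

variable {V : Type*} [Fintype V] [DecidableEq V]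

private theorem T1_arcs (σ : Equiv.Perm V) {R : Finset V} {u : V} (hu : u ∈ R)
    (hv : σ u ∉ R.erase u) :
    arcs σ (insert (σ u) (R.erase u)) = arcs σ R + ev (σ u) u + ev (σ u) (σ (σ u)) := by
  have h1 : arcs σ R = ev u (σ u) + arcs σ (R.erase u) := by
    unfold arcs
    exact (Finset.add_sum_erase R (fun v => ev v (σ v)) hu).symm
  have h2 : arcs σ (insert (σ u) (R.erase u)) = ev (σ u) (σ (σ u)) + arcs σ (R.erase u) := by
    unfold arcs
    exact Finset.sum_insert hv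
  rw [h2, h1, ev_comm (σ u) u]
  have h3 := two_zero (ev u (σ u))
  calc ev (σ u) (σ (σ u)) + arcs σ (R.erase u)
      = (ev u (σ u) + ev u (σ u)) + (arcs σ (R.erase u) + ev (σ u) (σ (σ u))) := by
        rw [h3, zero_add, add_comm]
    _ = _ := by abel

private theorem T1_inc {σ : Equiv.Perm V} {R : Finset V} {u x : V} (hum : σ u ≠ u)
    (hs : σ⁻¹ u ∉ R) (h1 : x ≠ σ u) (h2 : x ≠ σ (σ u)) :
    Inc σ (insert (σ u) (R.erase u)) x ↔ Inc σ R x ∧ x ≠ u := by
  unfold Inc
  rw [mem_insert, mem_erase, mem_insert, mem_erase]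
  have h3 : σ⁻¹ x ≠ σ u := by
    intro h
    apply h2
    rw [← h]
    simp
  have h4 : σ⁻¹ x ≠ u := by
    intro h
    apply h1
    rw [← h]
    simp
  constructor
  · rintro ((h | ⟨h, h'⟩) | (h | ⟨h, h'⟩))
    · exact absurd h h1
    · exact ⟨Or.inl h', h⟩
    · exact absurd h h3
    · refine ⟨Or.inr h', ?_⟩
      rintro rfl
      exact hs h'
  · rintro ⟨h | h, h'⟩
    · exact Or.inl (Or.inr ⟨h', h⟩)
    · exact Or.inr (Or.inr ⟨h4, h⟩)

theorem t1 {σ τ : Equiv.Perm V} {R S : Finset V} {θ : V → V} (h : NS σ τ R S θ)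
    (ho : ¬ Even (cc σ τ R S)) {p q p' q' : V} (w : Wit σ τ R S θ p q)
    (w' : Wit σ τ R S θ p' q') (hp : p ≠ p') {u : V} (hu : u ∈ R) (su : Inc τ S u)
    (sv : ¬ Inc τ S (σ u)) (hw : ¬ Inc τ S (σ (σ u))) : Cov (chi σ + chi τ) 3 := by
  have hum : σ u ≠ u := h.rm u hu
  have hwu : σ (σ u) ≠ u := h.sp u hum
  have hwv : σ (σ u) ≠ σ u := fun h1 => hum (σ.injective h1)
  have sc : σ.SameCycle u (σ u) := ⟨1, by simp⟩
  have sc2 : σ.SameCycle u (σ (σ u)) := ⟨2, by simp [pow_two]⟩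
  have hvR : σ u ∉ R := fun h1 => hum (h.ru u hu _ h1 sc).symm
  have hs : σ⁻¹ u ∉ R := by
    intro h1
    have h2 : u = σ⁻¹ u := h.ru u hu _ h1 ⟨-1, by simp⟩
    apply hum
    conv_lhs => rw [h2]
    simp
  have iv : Inc σ R (σ u) := Or.inr (by simpa using hu)
  have iw : ¬ Inc σ R (σ (σ u)) := by
    rw [h.inc_cyc hu sc2]
    rintro (h1 | h1)
    · exact hwu h1
    · exact hwv h1
  have dv : dg (arcs σ R + arcs τ S) (σ u) = 1 := h.dg_r iv sv
  have du : dg (arcs σ R + arcs τ S) u = 2 := h.dg_b (Or.inl hu) su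
  have dw : dg (arcs σ R + arcs τ S) (σ (σ u)) = 0 := h.dg_n iw hw
  have evu : (arcs σ R + arcs τ S) s(σ u, u) ≠ 0 :=
    (two_ne h.sp h.tp h.dj h.rm h.sm (σ u) u).2 (Or.inl (Or.inr ⟨hu, rfl⟩))
  have L1 := h.lf.rem dv evu
  have dd := dg_del_ev (arcs σ R + arcs τ S) hum evu
  have d1 := dd (σ u)
  have d2 := dd (σ (σ u))
  rw [dv, if_pos rfl, if_neg hum] at d1
  rw [dw] at d2
  have L2 := L1.add (p := σ u) (q := σ (σ u)) hwv.symm (by omega) (by omega)
    (by rw [del, if_pos rfl]; exact hwv.symm)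
  have harc : arcs σ R + arcs τ S + ev (σ u) u + ev (σ u) (σ (σ u)) =
      arcs σ (insert (σ u) (R.erase u)) + arcs τ S := by
    rw [T1_arcs σ hu fun h1 => hvR (mem_of_mem_erase h1)]
    abel
  rw [harc] at L2
  have N : NS σ τ (insert (σ u) (R.erase u)) S (upd (del θ (σ u) u) (σ u) (σ (σ u))) := by
    refine ⟨h.sp, h.tp, h.dj, ?_, ?_, ?_, h.sm, h.su, h.se, L2⟩
    · intro v hv
      rcases mem_insert.1 hv with rfl | hv
      · exact hwv
      · exact h.rm v (mem_of_mem_erase hv)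
    · intro a ha b hb hab
      rcases mem_insert.1 ha with rfl | ha <;> rcases mem_insert.1 hb with rfl | hb
      · rfl
      · exact absurd (h.ru u hu b (mem_of_mem_erase hb) (sc.trans hab)).symm (ne_of_mem_erase hb)
      · exact absurd (h.ru a (mem_of_mem_erase ha) u hu (hab.trans sc.symm)) (ne_of_mem_erase ha)
      · exact h.ru a (mem_of_mem_erase ha) b (mem_of_mem_erase hb) hab
    · intro x hx
      obtain ⟨r, hr, hxr⟩ := h.re x hx
      by_cases hru : r = u
      · exact ⟨σ u, mem_insert_self _ _, (hru ▸ hxr).trans sc⟩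
      · exact ⟨r, mem_insert_of_mem (mem_erase.2 ⟨hru, hr⟩), hxr⟩
  have hcc : cc σ τ (insert (σ u) (R.erase u)) S + 1 = cc σ τ R S := by
    unfold cc
    have h1 : (univ.filter fun x => Inc σ (insert (σ u) (R.erase u)) x ∧ Inc τ S x) =
        (univ.filter fun x => Inc σ R x ∧ Inc τ S x).erase u := by
      ext x
      rw [mem_erase, mem_filter, mem_filter]
      constructor
      · rintro ⟨_, h2, h3⟩
        have h4 : x ≠ σ u := fun e => sv (e ▸ h3)
        have h5 : x ≠ σ (σ u) := fun e => hw (e ▸ h3)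
        have h6 := (T1_inc hum hs h4 h5).1 h2
        exact ⟨h6.2, mem_univ _, h6.1, h3⟩
      · rintro ⟨h1, _, h2, h3⟩
        have h4 : x ≠ σ u := fun e => sv (e ▸ h3)
        have h5 : x ≠ σ (σ u) := fun e => hw (e ▸ h3)
        exact ⟨mem_univ _, (T1_inc hum hs h4 h5).2 ⟨h2, h1⟩, h3⟩
    rw [h1]
    exact card_erase_add_one (mem_filter.2 ⟨mem_univ _, Or.inl hu, su⟩)
  have hev : Even (cc σ τ (insert (σ u) (R.erase u)) S) := by
    rw [Nat.not_even_iff_odd] at ho
    rw [← hcc] at ho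
    obtain ⟨k, hk⟩ := ho
    exact ⟨k, by omega⟩
  have key : ∀ p q : V, Wit σ τ R S θ p q → p ≠ σ u → Cov (chi σ + chi τ) 3 := by
    intro p q w hpv
    have hpu : p ≠ u := fun e => w.p2 (e ▸ su)
    have hpw : p ≠ σ (σ u) := fun e => iw (e ▸ w.p1)
    have hqv : q ≠ σ u := fun e => sv (e ▸ w.q1)
    have hqw : q ≠ σ (σ u) := fun e => hw (e ▸ w.q1)
    refine ndone N hev (p := p) (q := q) ⟨(T1_inc hum hs hpv hpw).2 ⟨w.p1, hpu⟩, w.p2, w.q1,
      fun h1 => w.q2 ((T1_inc hum hs hqv hqw).1 h1).1, ?_⟩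
    have tw : θ (σ (σ u)) = σ (σ u) := h.lf.iso _ dw
    have tv : θ (θ (σ u)) = σ u := h.lf.inv _ (by omega)
    have e1 : del θ (σ u) u (σ u) = σ u := by rw [del, if_pos rfl]
    have e2 : del θ (σ u) u (σ (σ u)) = σ (σ u) := by
      have h1 : σ (σ u) ≠ θ (σ u) := by
        intro h2
        rw [← h2, tw] at tv
        exact hwv tv
      rw [del, if_neg hwv, if_neg h1, if_neg hwu, tw]
    have h3 : p ≠ θ (σ u) := by
      intro h2
      apply hqv
      rw [← w.th, h2, tv]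
    rw [upd, e1, e2, if_neg hpv, if_neg hpw, del, if_neg hpv, if_neg h3, if_neg hpu, w.th]
  by_cases hpv : p = σ u
  · exact key p' q' w' fun e => hp (hpv.trans e.symm)
  · exact key p q w hpv

end Pool.Agent.H.MP_5bc4af.L3
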