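import Pool.Agent.H.MP_5bc4af_co.L3.Fin
import Pool.Agent.H.MP_5bc4af_co.L3.Sym

/-!
# Toggle, case 2: the arc `v → w` is added to `u → v`

`v = σ u`, `w = σ v`; `u`, `w` are on `τ`-arcs, `v` is not, `θ v ≠ w`. `R' = insert v R`,
`arcs σ R' = arcs σ R + ev v w`, `LF.add` (`v` has degree one, `w` too, `v ≠ w`), end map
`upd θ v w`. Now `fin` for `R'` (not normal): `One σ R' x` for `x` on the cycle of `u` iff `x = u` or
`x = w` (`σ⁻¹ u ≠ v` because `w ≠ u`), on the other cycles as before. So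
`{One σ R' ∧ One τ S}` is the old set of common vertices and `w`: even.
Witness: if neither `v` nor `w` is among `p, q` then `upd θ v w p = q`. If `v = p` and `w ≠ q'` the
second witness survives, and so on; if `v = p` and `w = q'` then `(p', q)` is a witness for the new
end map: `upd θ v w (θ w) = θ v`, that is `p' ↦ q` (and symmetrically). Let `(P, Q)` be the witness
which is left. `P` and `Q` are not on the cycle of `u` as `σ`-ends: `P ≠ u, w` (these are on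
`τ`-arcs), `P ≠ v` (now inside `R'` with `One` false). So the cycle of `P` has one chosen arc and
`wit_nb` for `R'` gives `c1`; `wit_nb` for `τ` and `σ` exchanged gives `c2`: the point `q'` found
there has `One τ S q'`, `Inc σ R' q'` and degree at most two with one `τ`-arc, so `One σ R' q'`.
`c3` is `Con P Q` (`LF.con`).
-/

namespace Pool.Agent.H.MP_5bc4af.L3

open Finset Pool.Agent.H.MP_5bc4af.H5

variable {V : Type*} [Fintype V] [DecidableEq V]

omit [Fintype V] in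
private theorem T2_one {σ : Equiv.Perm V} {R : Finset V} {u : V} (hu : u ∈ R) (hv : σ u ∉ R)
    (hz : σ (σ u) ∉ R) (hvz : σ (σ u) ≠ σ u) (x : V) :
    One σ (insert (σ u) R) x ↔ (One σ R x ∧ x ≠ σ u) ∨ x = σ (σ u) := by
  have e1 : σ⁻¹ x = σ u ↔ x = σ (σ u) := Equiv.Perm.inv_eq_iff_eq
  unfold One
  rw [Finset.mem_insert, Finset.mem_insert, e1]
  by_cases h1 : x = σ u
  · subst h1
    have e2 : σ⁻¹ (σ u) = u := σ.symm_apply_apply u
    rw [e2]
    simp [hu, hvz.symm]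
  · by_cases h2 : x = σ (σ u)
    · subst h2
      simp [hz, hvz]
    · simp [h1, h2]

omit [Fintype V] in
private theorem T2_inc {σ : Equiv.Perm V} {R : Finset V} {u : V} (x : V) :
    Inc σ (insert (σ u) R) x ↔ Inc σ R x ∨ x = σ u ∨ x = σ (σ u) := by
  have e1 : σ⁻¹ x = σ u ↔ x = σ (σ u) := Equiv.Perm.inv_eq_iff_eq
  unfold Inc
  rw [Finset.mem_insert, Finset.mem_insert, e1]
  tauto

/-- the witness which is left -/
private theorem T2_wit {σ τ : Equiv.Perm V} {R S : Finset V} {θ : V → V} (h : NS σ τ R S θ)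
    {p q p' q' : V} (w : Wit σ τ R S θ p q) (w' : Wit σ τ R S θ p' q') (hp : p ≠ p') {v z : V}
    (hv : dg (arcs σ R + arcs τ S) v ≤ 1) (hz : dg (arcs σ R + arcs τ S) z ≤ 1)
    (sv : ¬ Inc τ S v) (sz : Inc τ S z) :
    ∃ P Q, Inc σ R P ∧ ¬ Inc τ S P ∧ P ≠ v ∧ Inc τ S Q ∧ ¬ Inc σ R Q ∧ Q ≠ z ∧
      upd θ v z P = Q := by
  have hq : q ≠ q' := w.ne h w' hp
  have iv : θ (θ v) = v := h.lf.inv v hv
  have iz : θ (θ z) = z := h.lf.inv z hz
  -- a witness which is not touched survives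
  have key : ∀ {a b : V}, Wit σ τ R S θ a b → a ≠ v → b ≠ z →
      ∃ P Q, Inc σ R P ∧ ¬ Inc τ S P ∧ P ≠ v ∧ Inc τ S Q ∧ ¬ Inc σ R Q ∧ Q ≠ z ∧
      upd θ v z P = Q := by
    intro a b x ha hb
    refine ⟨a, b, x.p1, x.p2, ha, x.q1, x.q2, hb, ?_⟩
    unfold upd
    rw [if_neg, if_neg, x.th]
    · intro h1
      apply hb
      rw [← x.th, h1, iz]
    · intro h1
      apply sv
      have h2 : b = v := by rw [← x.th, h1, iv]
      rw [← h2]
      exact x.q1
  -- the two touched witnesses are joined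
  have key2 : ∀ {a b a' b' : V}, Wit σ τ R S θ a b → Wit σ τ R S θ a' b' → a ≠ a' → b ≠ b' →
      a = v → b' = z → ∃ P Q, Inc σ R P ∧ ¬ Inc τ S P ∧ P ≠ v ∧ Inc τ S Q ∧ ¬ Inc σ R Q ∧
      Q ≠ z ∧ upd θ v z P = Q := by
    intro a b a' b' x x' haa hbb ha hb
    have hvb : θ v = b := by rw [← ha]; exact x.th
    have hza : θ z = a' := by
      rw [← hb]
      exact x'.th' h
    refine ⟨a', b, x'.p1, x'.p2, fun h1 => haa (ha.trans h1.symm), x.q1, x.q2,
      fun h1 => hbb (h1.trans hb.symm), ?_⟩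
    unfold upd
    rw [if_neg, if_pos hza.symm, hvb]
    intro h1
    rw [hvb] at h1
    exact x'.p2 (h1 ▸ x.q1)
  by_cases h1 : p = v
  · have hp' : p' ≠ v := fun h2 => hp (h1.trans h2.symm)
    by_cases h2 : q' = z
    · exact key2 w w' hp hq h1 h2
    · exact key w' hp' h2
  · by_cases h2 : q = z
    · by_cases h3 : p' = v
      · exact key2 w' w hp.symm hq.symm h3 h2
      · exact key w' h3 (fun h4 => hq (h2.trans h4.symm))
    · exact key w h1 h2

theorem t2 {σ τ : Equiv.Perm V} {R S : Finset V} {θ : V → V} (h : NS σ τ R S θ)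
    (ho : ¬ Even (cc σ τ R S)) {p q p' q' : V} (w : Wit σ τ R S θ p q)
    (w' : Wit σ τ R S θ p' q') (hp : p ≠ p') {u : V} (hu : u ∈ R) (su : Inc τ S u)
    (sv : ¬ Inc τ S (σ u)) (hw : Inc τ S (σ (σ u))) (ht : θ (σ u) ≠ σ (σ u)) :
    Cov (chi σ + chi τ) 3 := by
  obtain ⟨v, hv⟩ : ∃ v, v = σ u := ⟨_, rfl⟩
  obtain ⟨z, hz⟩ : ∃ z, z = σ (σ u) := ⟨_, rfl⟩
  have huv : σ u ≠ u := h.rm u hu
  have hvz : σ (σ u) ≠ σ u := fun h1 => huv (σ.injective h1)
  have hzu : σ (σ u) ≠ u := h.sp u huv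
  have cv : σ.SameCycle u (σ u) :=
    Equiv.Perm.sameCycle_apply_right.2 (Equiv.Perm.SameCycle.refl _ _)
  have cz : σ.SameCycle u (σ (σ u)) := Equiv.Perm.sameCycle_apply_right.2 cv
  have hvR : σ u ∉ R := fun h1 => huv (h.ru u hu (σ u) h1 cv).symm
  have hzR : σ (σ u) ∉ R := fun h1 => hzu (h.ru u hu (σ (σ u)) h1 cz).symm
  have iv : Inc σ R (σ u) := (h.inc_cyc hu cv).2 (Or.inr rfl)
  have iz : ¬ Inc σ R (σ (σ u)) := fun h1 => by
    rcases (h.inc_cyc hu cz).1 h1 with h2 | h2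
    · exact hzu h2
    · exact hvz h2
  have dv : dg (arcs σ R + arcs τ S) (σ u) = 1 := h.dg_r iv sv
  have dz : dg (arcs σ R + arcs τ S) (σ (σ u)) = 1 := h.dg_s iz hw
  -- the new linear forest
  have harc : arcs σ (insert (σ u) R) + arcs τ S =
      arcs σ R + arcs τ S + ev (σ u) (σ (σ u)) := by
    unfold arcs
    rw [Finset.sum_insert hvR]
    abel
  have hlf : LF (arcs σ (insert (σ u) R) + arcs τ S) (upd θ (σ u) (σ (σ u))) := by
    rw [harc]
    exact h.lf.add hvz.symm dv.le dz.le ht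
  have hsep : (arcs σ R + arcs τ S) s(σ u, σ (σ u)) = 0 := h.lf.sep hvz.symm dv.le dz.le ht
  have hR' : ∀ a ∈ insert (σ u) R, σ a ≠ a := by
    intro a ha
    rcases Finset.mem_insert.1 ha with rfl | ha
    · exact hvz
    · exact h.rm a ha
  have oS : ∀ x, Inc τ S x ↔ One τ S x := fun x =>
    inc_one h.sm fun a ha b hb _ hab => h.su a ha b hb hab
  have oR : ∀ x, Inc σ R x ↔ One σ R x := fun x =>
    inc_one h.rm fun a ha b hb _ hab => h.ru a ha b hb hab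
  have one' := T2_one hu hvR hzR hvz
  have inc' := T2_inc (σ := σ) (R := R) (u := u)
  obtain ⟨P, Q, hP1, hP2, hP3, hQ1, hQ2, hQ3, hPQ⟩ := T2_wit h w w' hp dv.le dz.le sv hw
  have hP4 : P ≠ σ (σ u) := fun h1 => hP2 (h1 ▸ hw)
  have hP5 : P ≠ u := fun h1 => hP2 (h1 ▸ su)
  have hQ4 : Q ≠ σ u := fun h1 => sv (h1 ▸ hQ1)
  have hP' : Inc σ (insert (σ u) R) P := (inc' P).2 (Or.inl hP1)
  have hQ' : ¬ Inc σ (insert (σ u) R) Q := fun h1 => by
    rcases (inc' Q).1 h1 with h2 | h2 | h2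
    · exact hQ2 h2
    · exact hQ4 h2
    · exact hQ3 h2
  have hP'' : One σ (insert (σ u) R) P := (one' P).2 (Or.inl ⟨(oR P).1 hP1, hP3⟩)
  have hQ'' : ¬ One σ (insert (σ u) R) Q := fun h1 => by
    rcases (one' Q).1 h1 with h2 | h2
    · exact hQ2 ((oR Q).2 h2.1)
    · exact hQ3 h2
  have hPc : ∀ a, σ.SameCycle P a → a ≠ σ u := by
    rintro a h1 rfl
    have h2 : σ.SameCycle u P := cv.trans h1.symm
    rcases (h.inc_cyc hu h2).1 hP1 with h3 | h3
    · exact hP5 h3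
    · exact hP3 h3
  have W : Wit σ τ (insert (σ u) R) S (upd θ (σ u) (σ (σ u))) P Q := ⟨hP', hP2, hQ1, hQ', hPQ⟩
  have dP : dg (arcs σ (insert (σ u) R) + arcs τ S) P ≤ 1 := by
    rw [harc, dg_add_ev _ hvz.symm hsep, if_neg hP3, if_neg hP4, h.dg_r hP1 hP2]
  have hu' : ∀ a ∈ insert (σ u) R, ∀ b ∈ insert (σ u) R, σ.SameCycle P a → σ.SameCycle a b →
      a = b := by
    intro a ha b hb h1 h2
    have ha' : a ∈ R := (Finset.mem_insert.1 ha).resolve_left (hPc a h1)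
    have hb' : b ∈ R := (Finset.mem_insert.1 hb).resolve_left (hPc b (h1.trans h2))
    exact h.ru a ha' b hb' h2
  obtain ⟨x1, hx1, hx1', hx1c, -⟩ := wit_nb h.sp h.tp h.dj hR' h.sm hlf W hu'
  have hlf' : LF (arcs τ S + arcs σ (insert (σ u) R)) (upd θ (σ u) (σ (σ u))) := by
    rw [add_comm]
    exact hlf
  have W' : Wit τ σ S (insert (σ u) R) (upd θ (σ u) (σ (σ u))) Q P := by
    refine ⟨hQ1, hQ', hP', hP2, ?_⟩
    rw [← hPQ]
    exact hlf.inv P dP
  obtain ⟨x2, hx2, hx2', hx2c, -⟩ := wit_nb h.tp h.sp h.dj.symm h.sm hR' hlf' W'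
    (fun a ha b hb _ h2 => h.su a ha b hb h2)
  have hx2'' : One σ (insert (σ u) R) x2 := by
    rw [one']
    rcases (inc' x2).1 hx2' with h2 | h2 | h2
    · exact Or.inl ⟨(oR x2).1 h2, fun h3 => sv (h3 ▸ (oS x2).2 hx2)⟩
    · exact absurd ((oS x2).2 hx2) (h2 ▸ sv)
    · exact Or.inr h2
  refine fin h.sp h.tp h.dj hR' (fun x hx => ?_) h.sm h.se hlf ?_
    ⟨x1, P, hx1, (oS x1).1 hx1', hP'', fun h1 => hP2 ((oS P).2 h1), hx1c⟩
    ⟨x2, Q, hx2, hx2'', (oS Q).1 hQ1, hQ'', hx2c⟩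
    ⟨P, Q, hP'', fun h1 => hP2 ((oS P).2 h1), (oS Q).1 hQ1, hQ'', ?_⟩
  · obtain ⟨a, ha, hxa⟩ := h.re x hx
    exact ⟨a, Finset.mem_insert_of_mem ha, hxa⟩
  · have h1 : (univ.filter fun x => One σ (insert (σ u) R) x ∧ One τ S x) =
        insert (σ (σ u)) (univ.filter fun x => Inc σ R x ∧ Inc τ S x) := by
      ext x
      rw [Finset.mem_insert, Finset.mem_filter, Finset.mem_filter, one', ← oS, ← oR]
      constructor
      · rintro ⟨-, ⟨h2, -⟩ | h2, h3⟩
        · exact Or.inr ⟨Finset.mem_univ _, h2, h3⟩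
        · exact Or.inl h2
      · rintro (h2 | ⟨-, h2, h3⟩)
        · exact ⟨Finset.mem_univ _, Or.inr h2, h2 ▸ hw⟩
        · exact ⟨Finset.mem_univ _, Or.inl ⟨h2, fun h4 => sv (h4 ▸ h3)⟩, h3⟩
    rw [h1, Finset.card_insert_of_notMem]
    · have h2 : (univ.filter fun x => Inc σ R x ∧ Inc τ S x).card = cc σ τ R S := rfl
      rw [h2, Nat.even_add_one]
      exact ho
    · rw [Finset.mem_filter]
      exact fun h2 => iz h2.2.1
  · have h1 := hlf.con P dP
    rwa [hPQ] at h1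

end Pool.Agent.H.MP_5bc4af.L3
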