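import Pool.Agent.H.MP_5bc4af_co.L3.Fin
import Pool.Agent.H.MP_5bc4af_co.L3.Sym

/-!
# Toggle, case 3a, first part: the arc `w → x` is added to `u → v`

`v = σ u`, `w = σ v`, `x = σ w ≠ u`; `u`, `w` are on `τ`-arcs, `v`, `x` are not, `θ v = w`.
`R' = insert w R`, `arcs σ R' = arcs σ R + ev w x`, `LF.add` (`w` has degree one, `x` is isolated,
`θ w = v ≠ x`), end map `upd θ w x`. `fin` for `R'`: on the cycle of `u` exactly `u, v, w, x` satisfy
`One σ R'` (they are different: `P3`, `x ≠ u`). So `{One σ R' ∧ One τ S}` is the old set of common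
vertices and `w`: even. One of the two witnesses is not the path `v ⋯ w` (`p ≠ v`): call it `(P, Q)`,
it survives (`P, Q ∉ {v, w, x}`; `θ w = v`, `θ x = x`), and `P, Q` are not on the cycle of `u` as
`σ`-ends.
`c1`: the unchosen arc `v → w` (`rest_ne`): `One σ R' w ∧ One τ S w`, `One σ R' v ∧ ¬ One τ S v`.
`c2`: `wit_nb` with `σ` and `τ` exchanged at `Q` (the point found there is on a `τ`-arc and has degree
at most two, so `One σ R'`). `c3`: `LF.con`.
-/

namespace Pool.Agent.H.MP_5bc4af.L3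

open Finset Pool.Agent.H.MP_5bc4af.H5

variable {V : Type*} [Fintype V] [DecidableEq V]

theorem t3 {σ τ : Equiv.Perm V} {R S : Finset V} {θ : V → V} (h : NS σ τ R S θ)
    (ho : ¬ Even (cc σ τ R S)) {p q p' q' : V} (w : Wit σ τ R S θ p q)
    (w' : Wit σ τ R S θ p' q') (hp : p ≠ p') {u : V} (hu : u ∈ R) (su : Inc τ S u)
    (sv : ¬ Inc τ S (σ u)) (hw : Inc τ S (σ (σ u))) (ht : θ (σ u) = σ (σ u))
    (h4 : σ (σ (σ u)) ≠ u) (hx : ¬ Inc τ S (σ (σ (σ u)))) :
    Cov (chi σ + chi τ) 3 := by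
  have hsr : σ u ≠ u := h.rm u hu
  have n1 : σ (σ u) ≠ σ u := fun e => hsr (σ.injective e)
  have n2 : σ (σ (σ u)) ≠ σ (σ u) := fun e => n1 (σ.injective e)
  have n3 : σ (σ u) ≠ u := h.sp u hsr
  have n4 : σ (σ (σ u)) ≠ σ u := h.sp (σ u) n1
  have s1 : σ.SameCycle u (σ u) := Equiv.Perm.sameCycle_apply_right.2 (Equiv.Perm.SameCycle.refl _ _)
  have s2 : σ.SameCycle u (σ (σ u)) := Equiv.Perm.sameCycle_apply_right.2 s1
  have s3 : σ.SameCycle u (σ (σ (σ u))) := Equiv.Perm.sameCycle_apply_right.2 s2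
  have i1 : Inc σ R (σ u) := (h.inc_cyc hu s1).2 (Or.inr rfl)
  have i2 : ¬ Inc σ R (σ (σ u)) := by
    rw [h.inc_cyc hu s2]
    rintro (e | e)
    · exact n3 e
    · exact n1 e
  have i3 : ¬ Inc σ R (σ (σ (σ u))) := by
    rw [h.inc_cyc hu s3]
    rintro (e | e)
    · exact h4 e
    · exact n4 e
  have m1 : σ u ∉ R := fun e => hsr (h.ru u hu _ e s1).symm
  obtain ⟨v, hv⟩ : ∃ v, v = σ u := ⟨_, rfl⟩
  obtain ⟨a, ha⟩ : ∃ a, a = σ v := ⟨_, rfl⟩
  obtain ⟨x, hxa⟩ : ∃ x, x = σ a := ⟨_, rfl⟩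
  rw [← hv] at n1 n2 n3 n4 sv hw ht h4 hx i1 i2 i3 m1
  rw [← ha] at n1 n2 n3 n4 hw ht h4 hx i2 i3
  rw [← hxa] at n2 n4 h4 hx i3
  have d1 : dg (arcs σ R + arcs τ S) v = 1 := h.dg_r i1 sv
  have d2 : dg (arcs σ R + arcs τ S) a = 1 := h.dg_s i2 hw
  have d3 : dg (arcs σ R + arcs τ S) x = 0 := h.dg_n i3 hx
  have t1 : θ a = v := by
    rw [← ht]
    exact h.lf.inv v d1.le
  have t2 : θ x = x := h.lf.iso x d3
  have m2 : a ∉ R := fun e => i2 (Or.inl e)
  have m3 : x ∉ R := fun e => i3 (Or.inl e)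
  have sv' : σ⁻¹ a = v := by rw [ha]; exact σ.symm_apply_apply v
  have sx' : ∀ y, σ⁻¹ y = a ↔ y = x := by
    intro y
    rw [hxa]
    exact Equiv.symm_apply_eq σ
  obtain ⟨R', hR'⟩ : ∃ R', R' = insert a R := ⟨_, rfl⟩
  have mR : ∀ y, y ∈ R' ↔ y = a ∨ y ∈ R := fun y => by rw [hR', Finset.mem_insert]
  have hRm : ∀ y ∈ R', σ y ≠ y := by
    intro y hy
    rcases (mR y).1 hy with rfl | hy
    · rw [← hxa]
      exact n2
    · exact h.rm y hy
  have hRe : ∀ y, σ y ≠ y → ∃ v ∈ R', σ.SameCycle y v := by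
    intro y hy
    obtain ⟨z, hz, hz'⟩ := h.re y hy
    exact ⟨z, (mR z).2 (Or.inr hz), hz'⟩
  have hInc : ∀ y, Inc σ R' y ↔ Inc σ R y ∨ y = a ∨ y = x := by
    intro y
    unfold Inc
    rw [mR, mR, sx']
    tauto
  have hOne : ∀ y, One σ R' y ↔ Inc σ R y ∨ y = a ∨ y = x := by
    intro y
    rw [← hInc]
    have h1 : ¬ (y ∈ R' ∧ σ⁻¹ y ∈ R') := by
      rintro ⟨h2, h3⟩
      rcases (mR _).1 h3 with h3 | h3
      · rw [sx'] at h3
        rcases (mR y).1 h2 with h2 | h2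
        · exact n2 (h3.symm.trans h2)
        · rw [h3] at h2
          exact m3 h2
      · rcases (mR y).1 h2 with h2 | h2
        · rw [h2, sv'] at h3
          exact m1 h3
        · have h5 : σ.SameCycle y (σ⁻¹ y) := ⟨-1, by rw [zpow_neg_one]⟩
          have h6 := h.ru y h2 _ h3 h5
          apply h.rm y h2
          conv_lhs => rw [h6]
          exact σ.apply_symm_apply y
    unfold Inc One
    tauto
  have hTau : ∀ y, Inc τ S y ↔ One τ S y := fun y =>
    inc_one h.sm fun b hb c hc _ hbc => h.su b hb c hc hbc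
  have hlf : LF (arcs σ R' + arcs τ S) (upd θ a x) := by
    have h1 := h.lf.add (p := a) (q := x) n2.symm d2.le (by rw [d3]; exact Nat.zero_le _)
      (by rw [t1]; exact n4.symm)
    have h2 : arcs σ R' + arcs τ S = arcs σ R + arcs τ S + ev a x := by
      rw [hR']
      unfold arcs
      rw [Finset.sum_insert m2, ← hxa]
      abel
    rw [h2]
    exact h1
  have hcard : Even (univ.filter fun y => One σ R' y ∧ One τ S y).card := by
    have h1 : (univ.filter fun y => One σ R' y ∧ One τ S y) =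
        insert a (univ.filter fun y => Inc σ R y ∧ Inc τ S y) := by
      ext y
      rw [Finset.mem_insert, Finset.mem_filter, Finset.mem_filter, hOne, ← hTau]
      constructor
      · rintro ⟨-, (h2 | h2 | h2), h3⟩
        · exact Or.inr ⟨Finset.mem_univ _, h2, h3⟩
        · exact Or.inl h2
        · rw [h2] at h3
          exact absurd h3 hx
      · rintro (h2 | ⟨-, h2, h3⟩)
        · rw [h2]
          exact ⟨Finset.mem_univ _, Or.inr (Or.inl rfl), hw⟩
        · exact ⟨Finset.mem_univ _, Or.inl h2, h3⟩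
    rw [h1, Finset.card_insert_of_notMem (fun h2 => i2 (Finset.mem_filter.1 h2).2.1)]
    exact Nat.even_add_one.2 ho
  obtain ⟨P, Q, W, hPv⟩ : ∃ P Q, Wit σ τ R S θ P Q ∧ P ≠ v := by
    by_cases hpv : p = v
    · exact ⟨p', q', w', fun e => hp (hpv.trans e.symm)⟩
    · exact ⟨p, q, w, hpv⟩
  have tQ : θ Q = P := W.th' h
  have q1 : Q ≠ a := by
    intro e
    apply hPv
    rw [← tQ, e, t1]
  have q2 : Q ≠ x := fun e => hx (e ▸ W.q1)
  have q3 : Q ≠ v := fun e => sv (e ▸ W.q1)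
  have p1 : P ≠ a := fun e => W.p2 (e ▸ hw)
  have p2 : P ≠ x := fun e => i3 (e ▸ W.p1)
  have uP : upd θ a x P = Q := by
    unfold upd
    rw [t1, t2, if_neg hPv, if_neg p2, W.th]
  have uQ : upd θ a x Q = P := by
    unfold upd
    rw [t1, t2, if_neg q3, if_neg q2, tQ]
  have jQ : ¬ (Inc σ R Q ∨ Q = a ∨ Q = x) := by
    rintro (e | e | e)
    · exact W.q2 e
    · exact q1 e
    · exact q2 e
  have jP : Inc σ R P ∨ P = a ∨ P = x := Or.inl W.p1
  refine fin h.sp h.tp h.dj hRm hRe h.sm h.se hlf hcard ?_ ?_ ?_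
  · refine ⟨a, v, (hOne a).2 (Or.inr (Or.inl rfl)), (hTau a).1 hw, (hOne v).2 (Or.inl i1),
      fun e => sv ((hTau v).2 e), ?_⟩
    have h1 : σ v ≠ v := by
      rw [← ha]
      exact n1
    have h2 : v ∉ R' := by
      rw [mR]
      rintro (e | e)
      · exact n1 e.symm
      · exact m1 e
    have h3 := rest_ne h.sp v h1 h2
    rw [← ha] at h3
    exact (Con.step h3).symm'
  · have h1 : Wit τ σ S R' (upd θ a x) Q P :=
      ⟨W.q1, fun e => jQ ((hInc Q).1 e), (hInc P).2 jP, W.p2, uQ⟩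
    have h2 : LF (arcs τ S + arcs σ R') (upd θ a x) := by
      rw [add_comm]
      exact hlf
    obtain ⟨z, z1, z2, z3, -⟩ := wit_nb h.tp h.sp h.dj.symm h.sm hRm h2 h1
      fun b hb c hc _ hbc => h.su b hb c hc hbc
    exact ⟨z, Q, z1, (hOne z).2 ((hInc z).1 z2), (hTau Q).1 W.q1, fun e => jQ ((hOne Q).1 e), z3⟩
  · refine ⟨P, Q, (hOne P).2 jP, fun e => W.p2 ((hTau P).2 e), (hTau Q).1 W.q1,
      fun e => jQ ((hOne Q).1 e), ?_⟩
    have h1 : dg (arcs σ R' + arcs τ S) P ≤ 1 := by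
      have h3 := (hOne P).2 jP
      have h4 := W.p2
      unfold One at h3
      unfold Inc at h4
      push Not at h4
      rw [dg_two h.sp h.tp h.dj hRm h.sm, dg_arcs h.sp hRm, dg_arcs h.tp h.sm, if_neg h4.1,
        if_neg h4.2]
      rcases h3 with ⟨h5, h6⟩ | ⟨h5, h6⟩
      · rw [if_pos h5, if_neg h6]
      · rw [if_neg h5, if_pos h6]
    have h2 := hlf.con P h1
    rw [uP] at h2
    exact h2

end Pool.Agent.H.MP_5bc4af.L3
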