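import Pool.Agent.H.MP_5bc4af_co.L3.Fin
import Pool.Agent.H.MP_5bc4af_co.L3.Sym

/-!
# Toggle, case 3a, second part: the arc `u → v` is replaced by `w → x`

`v = σ u`, `w = σ v`, `x = σ w ≠ u`; `u`, `w`, `x` are on `τ`-arcs, `v` is not, `θ v = w`.
`R' = insert w (R.erase u)`, `arcs σ R' = arcs σ R + ev v u + ev w x`. `LF.rem` at the end `v`: end
map `del θ v u`, which sends `u` to `w` and `w` to `u`. Then `LF.add` for `w, x` (both have degree
one, `w ↦ u ≠ x`): end map `upd (del θ v u) w x`. It is a normal state; the common vertices lose `u`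
and gain `w`, `x`: `cc` grows by one and is even.
Witness: if `x = q'` for a witness `(p', q')` (note `x ≠ p, p'`: `x` is on a `τ`-arc), then
`(p', u)` is a witness of the new state: the new end map sends `del θ v u x = θ x = p'` to
`del θ v u w = u`, `u` is on a `τ`-arc and not on a new `σ`-arc. Otherwise a witness with `p ≠ v`
survives. `ndone`.
-/

namespace Pool.Agent.H.MP_5bc4af.L3

open Finset Pool.Agent.H.MP_5bc4af.H5

variable {V : Type*} [Fintype V] [DecidableEq V]

/-- the points `u, v = σ u, w = σ v, x = σ w` of a cycle -/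
private structure Pts (σ : Equiv.Perm V) (R : Finset V) (u v w x : V) : Prop where
  hu : u ∈ R
  hv : v = σ u
  hw : w = σ v
  hx : x = σ w
  uv : u ≠ v
  uw : u ≠ w
  ux : u ≠ x
  vw : v ≠ w
  vx : v ≠ x
  wx : w ≠ x
  wR : w ∉ R
  xR : x ∉ R
  vR : v ∉ R
  sw : σ.SameCycle u w

private lemma inv_self (σ : Equiv.Perm V) (u : V) : σ⁻¹ (σ u) = u := by simp

private lemma pts {σ τ : Equiv.Perm V} {R S : Finset V} {θ : V → V} (h : NS σ τ R S θ) {u : V}
    (hu : u ∈ R) (h4 : σ (σ (σ u)) ≠ u) :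
    Pts σ R u (σ u) (σ (σ u)) (σ (σ (σ u))) := by
  have uv : u ≠ σ u := fun e => h.rm u hu e.symm
  have vw : σ u ≠ σ (σ u) := fun e => uv (σ.injective e)
  have wx : σ (σ u) ≠ σ (σ (σ u)) := fun e => vw (σ.injective e)
  have uw : u ≠ σ (σ u) := fun e => h.sp u (h.rm u hu) e.symm
  have vx : σ u ≠ σ (σ (σ u)) := fun e => uw (σ.injective e)
  have s1 : σ.SameCycle u (σ u) := ⟨1, by simp⟩
  have s2 : σ.SameCycle u (σ (σ u)) := s1.trans ⟨1, by simp⟩
  have s3 : σ.SameCycle u (σ (σ (σ u))) := s2.trans ⟨1, by simp⟩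
  exact {
    hu := hu, hv := rfl, hw := rfl, hx := rfl, uv := uv, uw := uw, ux := h4.symm, vw := vw,
    vx := vx, wx := wx,
    wR := fun e => uw (h.ru u hu _ e s2),
    xR := fun e => h4 (h.ru u hu _ e s3).symm,
    vR := fun e => uv (h.ru u hu _ e s1), sw := s2 }

/-- the ends of the new arcs -/
private lemma inc_new {σ : Equiv.Perm V} {R : Finset V} {u v w x : V} (P : Pts σ R u v w x)
    (hru : ∀ a ∈ R, ∀ b ∈ R, σ.SameCycle a b → a = b) (y : V) :
    Inc σ (insert w (R.erase u)) y ↔ y = w ∨ y = x ∨ (y ≠ u ∧ y ≠ v ∧ Inc σ R y) := by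
  unfold Inc
  rw [mem_insert, mem_insert, mem_erase, mem_erase]
  have e1 : σ⁻¹ y = w ↔ y = x := by
    rw [Equiv.Perm.inv_eq_iff_eq, P.hx]
  have e2 : σ⁻¹ y = u ↔ y = v := by
    rw [Equiv.Perm.inv_eq_iff_eq, P.hv]
  rw [e1]
  constructor
  · rintro ((h | ⟨h1, h2⟩) | (h | ⟨h1, h2⟩))
    · exact Or.inl h
    · refine Or.inr (Or.inr ⟨h1, ?_, Or.inl h2⟩)
      rintro rfl
      exact P.vR h2
    · exact Or.inr (Or.inl h)
    · refine Or.inr (Or.inr ⟨?_, fun e => h1 (e2.2 e), Or.inr h2⟩)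
      rintro rfl
      have s : σ.SameCycle (σ⁻¹ y) y := ⟨1, by simp⟩
      exact h1 (hru _ h2 _ P.hu s)
  · rintro (h | h | ⟨h1, h2, h3 | h3⟩)
    · exact Or.inl (Or.inl h)
    · exact Or.inr (Or.inl h)
    · exact Or.inl (Or.inr ⟨h1, h3⟩)
    · exact Or.inr (Or.inr ⟨fun e => h2 (e2.1 e), h3⟩)

private lemma arcs_new {σ : Equiv.Perm V} {R : Finset V} {u v w x : V} (P : Pts σ R u v w x)
    (g : Sym2 V → ZMod 2) :
    arcs σ (insert w (R.erase u)) + g = arcs σ R + g + ev v u + ev w x := by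
  have h1 : w ∉ R.erase u := fun e => P.wR (mem_of_mem_erase e)
  have h2 : arcs σ R = ev u v + ∑ a ∈ R.erase u, ev a (σ a) := by
    unfold arcs
    rw [← add_sum_erase R _ P.hu, P.hv]
  have h3 : arcs σ (insert w (R.erase u)) = ev w x + ∑ a ∈ R.erase u, ev a (σ a) := by
    unfold arcs
    rw [sum_insert h1, P.hx]
  have h4 : ev u v + ev v u = (0 : Sym2 V → ZMod 2) := by
    rw [ev_comm v u, two_zero]
  rw [h3, h2]
  have h5 : ev u v + ∑ a ∈ R.erase u, ev a (σ a) + g + ev v u + ev w x =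
      (ev u v + ev v u) + (ev w x + ∑ a ∈ R.erase u, ev a (σ a) + g) := by abel
  rw [h5, h4, zero_add]

private lemma ns_new {σ τ : Equiv.Perm V} {R S : Finset V} {θ θ' : V → V} (h : NS σ τ R S θ)
    {u v w x : V} (P : Pts σ R u v w x)
    (hl : LF (arcs σ (insert w (R.erase u)) + arcs τ S) θ') :
    NS σ τ (insert w (R.erase u)) S θ' := by
  have key : ∀ b ∈ R.erase u, ¬ σ.SameCycle w b := fun b hb e =>
    (mem_erase.1 hb).1 (h.ru u P.hu b (mem_erase.1 hb).2 (P.sw.trans e)).symm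
  refine ⟨h.sp, h.tp, h.dj, ?_, ?_, ?_, h.sm, h.su, h.se, hl⟩
  · intro a ha
    rcases mem_insert.1 ha with rfl | ha
    · rw [← P.hx]
      exact P.wx.symm
    · exact h.rm a (mem_erase.1 ha).2
  · intro a ha b hb hab
    rcases mem_insert.1 ha with ea | ha'
    · rcases mem_insert.1 hb with eb | hb'
      · rw [ea, eb]
      · rw [ea] at hab
        exact absurd hab (key b hb')
    · rcases mem_insert.1 hb with eb | hb'
      · rw [eb] at hab
        exact absurd hab.symm (key a ha')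
      · exact h.ru a (mem_erase.1 ha').2 b (mem_erase.1 hb').2 hab
  · intro y hy
    obtain ⟨a, ha, hya⟩ := h.re y hy
    by_cases e : a = u
    · subst e
      exact ⟨w, mem_insert_self _ _, hya.trans P.sw⟩
    · exact ⟨a, mem_insert_of_mem (mem_erase.2 ⟨e, ha⟩), hya⟩

theorem t4 {σ τ : Equiv.Perm V} {R S : Finset V} {θ : V → V} (h : NS σ τ R S θ)
    (ho : ¬ Even (cc σ τ R S)) {p q p' q' : V} (w : Wit σ τ R S θ p q)
    (w' : Wit σ τ R S θ p' q') (hp : p ≠ p') {u : V} (hu : u ∈ R) (su : Inc τ S u)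
    (sv : ¬ Inc τ S (σ u)) (hw : Inc τ S (σ (σ u))) (ht : θ (σ u) = σ (σ u))
    (h4 : σ (σ (σ u)) ≠ u) (hx : Inc τ S (σ (σ (σ u)))) :
    Cov (chi σ + chi τ) 3 := by
  have P := pts h hu h4
  generalize σ (σ (σ u)) = x at *
  generalize hw1 : σ (σ u) = w0 at *
  generalize hv1 : σ u = v at *
  have iu : Inc σ R u := Or.inl hu
  have iv : Inc σ R v := Or.inr (by rw [P.hv, inv_self]; exact hu)
  have iw : ¬ Inc σ R w0 := by
    rintro (e | e)
    · exact P.wR e
    · rw [P.hw, inv_self] at e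
      exact P.vR e
  have ix : ¬ Inc σ R x := by
    rintro (e | e)
    · exact P.xR e
    · rw [P.hx, inv_self] at e
      exact P.wR e
  have dv := h.dg_r iv sv
  have dw := h.dg_s iw hw
  have dx := h.dg_s ix hx
  -- the end edge `v u` is deleted
  have hvu : (arcs σ R + arcs τ S) s(v, u) ≠ 0 :=
    (two_ne h.sp h.tp h.dj h.rm h.sm v u).2 (Or.inl (Or.inr ⟨hu, P.hv⟩))
  have l1 := h.lf.rem dv hvu
  have d1 := fun y => dg_del_ev (arcs σ R + arcs τ S) P.uv.symm hvu y
  have dw1 : dg (arcs σ R + arcs τ S + ev v u) w0 ≤ 1 := by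
    have := d1 w0
    omega
  have dx1 : dg (arcs σ R + arcs τ S + ev v u) x ≤ 1 := by
    have := d1 x
    omega
  have tw : del θ v u w0 = u := by
    unfold del
    rw [if_neg P.vw.symm, ht, if_pos rfl]
  have tx : del θ v u x = θ x := by
    unfold del
    rw [if_neg P.vx.symm, ht, if_neg P.wx.symm, if_neg P.ux.symm]
  have l2 := l1.add P.wx dw1 dx1 (by rw [tw]; exact P.ux)
  rw [← arcs_new P] at l2
  have hN := ns_new h P l2
  have hinc := inc_new P h.ru
  -- parity
  have hcc : cc σ τ (insert w0 (R.erase u)) S = cc σ τ R S + 1 := by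
    unfold cc
    have e1 : (univ.filter fun y => Inc σ (insert w0 (R.erase u)) y ∧ Inc τ S y) =
        insert w0 (insert x ((univ.filter fun y => Inc σ R y ∧ Inc τ S y).erase u)) := by
      ext y
      rw [mem_filter, mem_insert, mem_insert, mem_erase, mem_filter, hinc y]
      constructor
      · rintro ⟨-, h1 | h1 | ⟨h1, h2, h3⟩, h4⟩
        · exact Or.inl h1
        · exact Or.inr (Or.inl h1)
        · exact Or.inr (Or.inr ⟨h1, mem_univ _, h3, h4⟩)
      · rintro (h1 | h1 | ⟨h1, -, h3, h4⟩)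
        · exact ⟨mem_univ _, Or.inl h1, by rw [h1]; exact hw⟩
        · exact ⟨mem_univ _, Or.inr (Or.inl h1), by rw [h1]; exact hx⟩
        · refine ⟨mem_univ _, Or.inr (Or.inr ⟨h1, ?_, h3⟩), h4⟩
          intro e
          rw [e] at h4
          exact sv h4
    have hxn : x ∉ (univ.filter fun y => Inc σ R y ∧ Inc τ S y).erase u := by
      rw [mem_erase, mem_filter]
      rintro ⟨-, -, e, -⟩
      exact ix e
    have hwn : w0 ∉ insert x ((univ.filter fun y => Inc σ R y ∧ Inc τ S y).erase u) := by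
      rw [mem_insert, mem_erase, mem_filter]
      rintro (e | ⟨-, -, e, -⟩)
      · exact P.wx e
      · exact iw e
    have hun : u ∈ univ.filter fun y => Inc σ R y ∧ Inc τ S y :=
      mem_filter.2 ⟨mem_univ _, iu, su⟩
    rw [e1, card_insert_of_notMem hwn, card_insert_of_notMem hxn, card_erase_of_mem hun]
    have : 0 < (univ.filter fun y => Inc σ R y ∧ Inc τ S y).card := card_pos.2 ⟨u, hun⟩
    omega
  have hev : Even (cc σ τ (insert w0 (R.erase u)) S) := by
    rw [hcc]
    exact (Nat.not_even_iff_odd.1 ho).add_one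
  -- the end `p` of a witness is on the arc of another cycle or `v`
  have hA : ∀ {a b : V}, Wit σ τ R S θ a b → a ≠ v → b ≠ x →
      Wit σ τ (insert w0 (R.erase u)) S (upd (del θ v u) w0 x) a b := by
    intro a b W hav hbx
    have hau : a ≠ u := fun e => W.p2 (e ▸ su)
    have haw : a ≠ w0 := fun e => W.p2 (e ▸ hw)
    have da := h.dg_r W.p1 W.p2
    have hab : θ b = a := W.th' h
    have hbw : b ≠ w0 := by
      intro e
      have h1 : θ v = b := by rw [ht, e]
      have h2 := h.lf.inv v (by omega)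
      rw [h1, hab] at h2
      exact hav h2
    refine ⟨(hinc a).2 (Or.inr (Or.inr ⟨hau, hav, W.p1⟩)), W.p2, W.q1, ?_, ?_⟩
    · rw [hinc b]
      rintro (e | e | ⟨-, -, e⟩)
      · exact hbw e
      · exact hbx e
      · exact W.q2 e
    · have hax : a ≠ θ x := by
        intro e
        have h2 := h.lf.inv x (by omega)
        rw [← e, W.th] at h2
        exact hbx h2
      unfold upd
      rw [tw, if_neg hau, tx, if_neg hax]
      unfold del
      rw [if_neg hav, ht, if_neg haw, if_neg hau]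
      exact W.th
  have hB : ∀ {a : V}, Wit σ τ R S θ a x →
      Wit σ τ (insert w0 (R.erase u)) S (upd (del θ v u) w0 x) a u := by
    intro a W
    have hau : a ≠ u := fun e => W.p2 (e ▸ su)
    have hav : a ≠ v := by
      intro e
      have h1 := W.th
      rw [e, ht] at h1
      exact P.wx h1
    have hax : θ x = a := W.th' h
    refine ⟨(hinc a).2 (Or.inr (Or.inr ⟨hau, hav, W.p1⟩)), W.p2, su, ?_, ?_⟩
    · rw [hinc u]
      rintro (e | e | ⟨e, -⟩)
      · exact P.uw e
      · exact P.ux e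
      · exact e rfl
    · unfold upd
      rw [tw, if_neg hau, tx, hax, if_pos rfl]
  by_cases e1 : q = x
  · subst e1
    exact ndone hN hev (hB w)
  · by_cases e2 : q' = x
    · subst e2
      exact ndone hN hev (hB w')
    · by_cases e3 : p = v
      · exact ndone hN hev (hA w' (fun e => hp (e3.trans e.symm)) e2)
      · exact ndone hN hev (hA w e3 e1)

end Pool.Agent.H.MP_5bc4af.L3
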