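import Pool.Agent.H.MP_5bc4af_co.L3.T1
import Pool.Agent.H.MP_5bc4af_co.L3.T2
import Pool.Agent.H.MP_5bc4af_co.L3.T3
import Pool.Agent.H.MP_5bc4af_co.L3.T4

/-!
# Toggle, case 3b (triangle), and the toggle theorem

`tA` is the case distinction `t1`-`t4`.

`t5`: `v = σ u`, `w = σ v`, `σ w = u`; `u`, `w` are on `τ`-arcs, `v` is not, `θ v = w`.
Step 1: `R' = insert v (R.erase u)`, `arcs σ R' = arcs σ R + ev v u + ev v w`, `LF.rem` at `v` and
`LF.add` for `v, w` (`v` isolated, `w` of degree one): end map `θ' = upd (del θ v u) v w`, which sends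
`v` to `u` and `u` to `v` and is `θ` on the other ends. It is a normal state with the same `cc`
(`u` leaves, `w` enters the common vertices). Witnesses: `(p, q)` stays except that `(v, w)` becomes
`(v, u)`.
Step 2: let `x` be the other end of the chosen `τ`-arc at `u`. Then `x ≠ v` (`v` is on no `τ`-arc),
`x ≠ w` (the edge `u w` is an arc of `σ`, `Dj`). In the state `R`: `x` has degree two (if it had
degree one the path of `v` would be `v u x`, `θ v = x`, but `θ v = w`); so `Inc σ R x`, and `x` is not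
on the cycle of `u` (there only `u, v` are on the chosen arc), so `Inc σ R' x`; `¬ Inc σ R' u`.
Step 3: the chosen `τ`-arc is `x → u` or `u → x`; in the second case reverse `τ`
(`(h.swap).rev`). Apply `tA` to the state with `σ` and `τ` exchanged and `u := x`, `σ u := u`:
its exceptional case needs `θ' u = τ u`, that is `v = τ u`, but `s(u, τ u) ≠ s(u, σ u)` (`Dj`).

`toggle`: `cc` is the sum over `v ∈ R` of `[Inc τ S v] + [Inc τ S (σ v)]` (every vertex on a chosen
`σ`-arc is `v` or `σ v` for exactly one `v ∈ R`), it is odd, so there is `v ∈ R` with exactly one of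
`Inc τ S v`, `Inc τ S (σ v)`. In the first case `tA` or `t5` with `u = v`; in the second case the
same for `h.rev` and `u = σ v ∈ R.image σ` (`σ⁻¹ (σ v) = v`), `chi_inv`.
-/

namespace Pool.Agent.H.MP_5bc4af.L3

open Finset Pool.Agent.H.MP_5bc4af.H5

variable {V : Type*} [Fintype V] [DecidableEq V]

theorem tA {σ τ : Equiv.Perm V} {R S : Finset V} {θ : V → V} (h : NS σ τ R S θ)
    (ho : ¬ Even (cc σ τ R S)) {p q p' q' : V} (w : Wit σ τ R S θ p q)
    (w' : Wit σ τ R S θ p' q') (hp : p ≠ p') {u : V} (hu : u ∈ R) (su : Inc τ S u)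
    (sv : ¬ Inc τ S (σ u)) (hx : ¬ (θ (σ u) = σ (σ u) ∧ σ (σ (σ u)) = u)) :
    Cov (chi σ + chi τ) 3 := by
  by_cases h1 : Inc τ S (σ (σ u))
  · by_cases h2 : θ (σ u) = σ (σ u)
    · have h3 : σ (σ (σ u)) ≠ u := fun hh => hx ⟨h2, hh⟩
      by_cases h4 : Inc τ S (σ (σ (σ u)))
      · exact t4 h ho w w' hp hu su sv h1 h2 h3 h4
      · exact t3 h ho w w' hp hu su sv h1 h2 h3 h4
    · exact t2 h ho w w' hp hu su sv h1 h2
  · exact t1 h ho w w' hp hu su sv h1

private theorem T5_arcs {σ : Equiv.Perm V} {R : Finset V} {u : V} (hu : u ∈ R)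
    (hv : σ u ∉ R.erase u) :
    arcs σ (insert (σ u) (R.erase u)) = arcs σ R + ev (σ u) u + ev (σ u) (σ (σ u)) := by
  unfold arcs
  rw [Finset.sum_insert hv, ← Finset.add_sum_erase R _ hu, ev_comm (σ u) u]
  have h1 : ev u (σ u) + ∑ x ∈ R.erase u, ev x (σ x) + ev u (σ u) =
      ∑ x ∈ R.erase u, ev x (σ x) := by
    rw [add_comm (ev u (σ u)), add_assoc, two_zero, add_zero]
  rw [h1, add_comm]

omit [Fintype V] in
private theorem T5_inc {σ : Equiv.Perm V} {R : Finset V} {u : V} (hu : u ∈ R) (h0 : σ u ≠ u)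
    (h1 : σ⁻¹ u ∉ R) (x : V) :
    Inc σ (insert (σ u) (R.erase u)) x ↔ (Inc σ R x ∧ x ≠ u) ∨ x = σ (σ u) := by
  unfold Inc
  simp only [Finset.mem_insert, Finset.mem_erase]
  constructor
  · rintro ((h2 | ⟨h2, h3⟩) | (h2 | ⟨h2, h3⟩))
    · left
      subst h2
      exact ⟨Or.inr (by simpa using hu), h0⟩
    · exact Or.inl ⟨Or.inl h3, h2⟩
    · right
      rw [← h2]
      simp
    · left
      refine ⟨Or.inr h3, ?_⟩
      rintro rfl
      exact h1 h3
  · rintro (⟨h2 | h2, h3⟩ | h2)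
    · exact Or.inl (Or.inr ⟨h3, h2⟩)
    · by_cases h4 : σ⁻¹ x = u
      · left; left
        rw [← h4]
        simp
      · exact Or.inr (Or.inr ⟨h4, h2⟩)
    · right; left
      rw [h2]
      simp

private theorem T5_cc {σ τ : Equiv.Perm V} {R S : Finset V} {u : V} (hu : u ∈ R) (h0 : σ u ≠ u)
    (h1 : σ⁻¹ u ∉ R) (su : Inc τ S u) (hw : Inc τ S (σ (σ u))) (hw' : ¬ Inc σ R (σ (σ u))) :
    cc σ τ (insert (σ u) (R.erase u)) S = cc σ τ R S := by
  unfold cc
  have hne : σ (σ u) ≠ u := by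
    intro h
    exact hw' (Or.inl (by rw [h]; exact hu))
  have h2 : (univ.filter fun x => Inc σ (insert (σ u) (R.erase u)) x ∧ Inc τ S x) =
      insert (σ (σ u)) ((univ.filter fun x => Inc σ R x ∧ Inc τ S x).erase u) := by
    ext x
    simp only [Finset.mem_filter, Finset.mem_univ, true_and, Finset.mem_insert, Finset.mem_erase]
    rw [T5_inc hu h0 h1]
    constructor
    · rintro ⟨⟨h3, h4⟩ | h3, h5⟩
      · exact Or.inr ⟨h4, h3, h5⟩
      · exact Or.inl h3
    · rintro (h3 | ⟨h3, h4, h5⟩)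
      · exact ⟨Or.inr h3, by rw [h3]; exact hw⟩
      · exact ⟨Or.inl ⟨h4, h3⟩, h5⟩
  have h3 : u ∈ univ.filter fun x => Inc σ R x ∧ Inc τ S x := by
    simp only [Finset.mem_filter, Finset.mem_univ, true_and]
    exact ⟨Or.inl hu, su⟩
  have h4 : σ (σ u) ∉ (univ.filter fun x => Inc σ R x ∧ Inc τ S x).erase u := by
    simp only [Finset.mem_erase, Finset.mem_filter, Finset.mem_univ, true_and]
    rintro ⟨-, h5, -⟩
    exact hw' h5
  rw [h2, Finset.card_insert_of_notMem h4, Finset.card_erase_of_mem h3]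
  have := Finset.card_pos.2 ⟨u, h3⟩
  omega

theorem t5 {σ τ : Equiv.Perm V} {R S : Finset V} {θ : V → V} (h : NS σ τ R S θ)
    (ho : ¬ Even (cc σ τ R S)) {p q p' q' : V} (w : Wit σ τ R S θ p q)
    (w' : Wit σ τ R S θ p' q') (hp : p ≠ p') {u : V} (hu : u ∈ R) (su : Inc τ S u)
    (sv : ¬ Inc τ S (σ u)) (hw : Inc τ S (σ (σ u))) (ht : θ (σ u) = σ (σ u))
    (h3 : σ (σ (σ u)) = u) : Cov (chi σ + chi τ) 3 := by
  have huv : σ u ≠ u := h.rm u hu
  have hwu : σ (σ u) ≠ u := h.sp u huv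
  have hvw : σ u ≠ σ (σ u) := fun hh => huv (σ.injective hh).symm
  have cuv : σ.SameCycle u (σ u) := Equiv.Perm.sameCycle_apply_right.2 (Equiv.Perm.SameCycle.refl _ _)
  have cuw : σ.SameCycle u (σ (σ u)) := Equiv.Perm.sameCycle_apply_right.2 cuv
  have hiu : σ⁻¹ u = σ (σ u) := by
    rw [Equiv.Perm.inv_eq_iff_eq]; exact h3.symm
  have hvR : σ u ∉ R := fun hh => huv (h.ru u hu _ hh cuv).symm
  have hwR : σ (σ u) ∉ R := fun hh => hwu (h.ru u hu _ hh cuw).symm
  have iu : Inc σ R u := Or.inl hu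
  have iv : Inc σ R (σ u) := Or.inr (by simpa using hu)
  have iw : ¬ Inc σ R (σ (σ u)) := by
    rw [h.inc_cyc hu cuw]
    rintro (h4 | h4)
    · exact hwu h4
    · exact hvw h4.symm
  have hi1 : σ⁻¹ u ∉ R := by rw [hiu]; exact hwR
  have dv : dg (arcs σ R + arcs τ S) (σ u) = 1 := h.dg_r iv sv
  have dw : dg (arcs σ R + arcs τ S) (σ (σ u)) = 1 := h.dg_s iw hw
  have evu : (arcs σ R + arcs τ S) s(σ u, u) ≠ 0 :=
    (two_ne h.sp h.tp h.dj h.rm h.sm _ _).2 (Or.inl (Or.inr ⟨hu, rfl⟩))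
  -- the new state
  have hvE : σ u ∉ R.erase u := fun hh => hvR (Finset.mem_of_mem_erase hh)
  have l1 := h.lf.rem dv evu
  have d1 := dg_del_ev (arcs σ R + arcs τ S) huv evu
  have d1v := d1 (σ u)
  have d1w := d1 (σ (σ u))
  rw [if_pos rfl, if_neg huv] at d1v
  rw [if_neg hvw.symm, if_neg hwu] at d1w
  have hdel1 : del θ (σ u) u (σ u) = σ u := by simp [del]
  have l2 := l1.add hvw (by omega) (by omega) (by rw [hdel1]; exact hvw)
  have harc : arcs σ (insert (σ u) (R.erase u)) + arcs τ S =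
      arcs σ R + arcs τ S + ev (σ u) u + ev (σ u) (σ (σ u)) := by
    rw [T5_arcs hu hvE]
    abel
  rw [← harc] at l2
  set R' := insert (σ u) (R.erase u) with hR'
  set θ' := upd (del θ (σ u) u) (σ u) (σ (σ u)) with hθ'
  have hdw : del θ (σ u) u (σ (σ u)) = u := by
    unfold del
    rw [if_neg hvw.symm, if_pos ht.symm]
  have t'v : θ' (σ u) = u := by
    rw [hθ']
    unfold upd
    rw [hdel1, if_pos rfl, hdw]
  have t'u : θ' u = σ u := by
    rw [hθ']
    unfold upd
    rw [hdel1, hdw, if_neg huv.symm, if_pos rfl]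
  have t'x : ∀ x, x ≠ u → x ≠ σ u → x ≠ σ (σ u) → θ' x = θ x := by
    intro x h4 h5 h6
    rw [hθ']
    unfold upd
    rw [hdel1, hdw, if_neg h5, if_neg h4]
    unfold del
    rw [if_neg h5, ht, if_neg h6, if_neg h4]
  have hinc := T5_inc hu huv hi1
  have h' : NS σ τ R' S θ' := by
    refine ⟨h.sp, h.tp, h.dj, ?_, ?_, ?_, h.sm, h.su, h.se, l2⟩
    · intro x hx
      rw [hR', Finset.mem_insert, Finset.mem_erase] at hx
      rcases hx with hx | ⟨-, hx⟩
      · rw [hx]; exact hvw.symm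
      · exact h.rm x hx
    · intro x hx y hy hxy
      rw [hR', Finset.mem_insert, Finset.mem_erase] at hx hy
      rcases hx with hx | ⟨hx1, hx⟩ <;> rcases hy with hy | ⟨hy1, hy⟩
      · rw [hx, hy]
      · rw [hx] at hxy
        exact absurd (h.ru u hu y hy (cuv.trans hxy)).symm hy1
      · rw [hy] at hxy
        exact absurd (h.ru x hx u hu (hxy.trans cuv.symm)) hx1
      · exact h.ru x hx y hy hxy
    · intro x hx
      obtain ⟨r, hr, hxr⟩ := h.re x hx
      by_cases h4 : r = u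
      · rw [h4] at hxr
        exact ⟨σ u, Finset.mem_insert_self _ _, hxr.trans cuv⟩
      · exact ⟨r, Finset.mem_insert_of_mem (Finset.mem_erase.2 ⟨h4, hr⟩), hxr⟩
  have ho' : ¬ Even (cc σ τ R' S) := by
    rw [hR', T5_cc hu huv hi1 su hw iw]; exact ho
  have niu : ¬ Inc σ R' u := by
    rw [hR', hinc]
    rintro (⟨-, h4⟩ | h4)
    · exact h4 rfl
    · exact hwu h4.symm
  -- witnesses
  have wit : ∀ {P Q : V}, Wit σ τ R S θ P Q → ∃ Q', Wit σ τ R' S θ' P Q' := by
    intro P Q W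
    by_cases h4 : P = σ u
    · refine ⟨u, ?_, ?_, su, niu, ?_⟩
      · rw [h4]; exact Or.inl (Finset.mem_insert_self _ _)
      · rw [h4]; exact sv
      · rw [h4]; exact t'v
    · have hPu : P ≠ u := by
        rintro rfl
        exact W.p2 su
      have hPw : P ≠ σ (σ u) := by
        intro h5
        apply W.p2
        rw [h5]; exact hw
      have hQw : Q ≠ σ (σ u) := by
        intro h5
        have h6 := W.th' h
        rw [h5, ← ht, h.lf.inv _ dv.le] at h6
        exact h4 h6.symm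
      refine ⟨Q, ?_, W.p2, W.q1, ?_, ?_⟩
      · rw [hR', hinc]; exact Or.inl ⟨W.p1, hPu⟩
      · rw [hR', hinc]
        rintro (⟨h5, -⟩ | h5)
        · exact W.q2 h5
        · exact hQw h5
      · rw [t'x P hPu h4 hPw]; exact W.th
  obtain ⟨Q1, W1⟩ := wit w
  obtain ⟨Q2, W2⟩ := wit w'
  have hQ : Q1 ≠ Q2 := Wit.ne h' W1 W2 hp
  have hcs : ¬ Even (cc τ σ S R') := by rw [← cc_swap]; exact ho'
  -- the other end of the chosen arc at `u`
  have key : ∀ x, Inc τ S x → x ≠ u → x ≠ σ (σ u) → (arcs σ R + arcs τ S) s(u, x) ≠ 0 →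
      Inc σ R' x := by
    intro x hx hxu hxw hex
    rw [hR', hinc]
    left
    refine ⟨?_, hxu⟩
    by_contra h4
    have dx : dg (arcs σ R + arcs τ S) x = 1 := h.dg_s h4 hx
    have hc : Con (arcs σ R + arcs τ S) (σ u) x :=
      Relation.ReflTransGen.trans (Con.step evu) (Con.step hex)
    rcases h.lf.uni (σ u) x dv.le dx.le hc with h5 | h5
    · rw [h5] at hx; exact sv hx
    · rw [ht] at h5; exact hxw h5
  rcases su with hS | hS
  · -- the arc `u → τ u`
    have htu : τ u ≠ u := h.sm u hS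
    have hx1 : Inc τ S (τ u) := Or.inr (by simpa using hS)
    have hxw : τ u ≠ σ (σ u) := by
      intro h4
      refine h.dj (σ (σ u)) u ?_ htu ?_
      · rw [h3]; exact hwu.symm
      · rw [h3, h4, Sym2.eq_swap]
    have hex : (arcs σ R + arcs τ S) s(u, τ u) ≠ 0 :=
      (two_ne h.sp h.tp h.dj h.rm h.sm _ _).2 (Or.inr (Or.inl ⟨hS, rfl⟩))
    have hix := key (τ u) hx1 htu hxw hex
    have hn := (h'.swap).rev
    have hres := tA hn (by rw [cc_rev]; exact hcs) (Wit.rev (Wit.swap h' W1))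
      (Wit.rev (Wit.swap h' W2)) hQ (u := τ u) (Finset.mem_image_of_mem _ hS) hix
      (by simpa using niu) (by
        rintro ⟨h4, -⟩
        have e1 : τ⁻¹ (τ u) = u := by simp
        rw [e1, t'u] at h4
        have h5 : τ (σ u) = u := by rw [h4]; simp
        refine h.dj u (σ u) huv ?_ ?_
        · rw [h5]; exact huv.symm
        · rw [h5, Sym2.eq_swap])
    rw [chi_inv, add_comm] at hres
    exact hres
  · -- the arc `τ⁻¹ u → u`
    have hxx : τ (τ⁻¹ u) = u := by simp
    have hxu : τ⁻¹ u ≠ u := by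
      intro h4
      have := h.sm _ hS
      rw [hxx] at this
      exact this h4.symm
    have htu : τ u ≠ u := by
      intro h4
      exact hxu (by rw [Equiv.Perm.inv_eq_iff_eq]; exact h4.symm)
    have hx1 : Inc τ S (τ⁻¹ u) := Or.inl hS
    have hxw : τ⁻¹ u ≠ σ (σ u) := by
      intro h4
      refine h.dj (σ (σ u)) (τ⁻¹ u) ?_ (h.sm _ hS) ?_
      · rw [h3]; exact hwu.symm
      · rw [h3, hxx, h4]
    have hex : (arcs σ R + arcs τ S) s(u, τ⁻¹ u) ≠ 0 :=
      (two_ne h.sp h.tp h.dj h.rm h.sm _ _).2 (Or.inr (Or.inr ⟨hS, hxx.symm⟩))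
    have hix := key (τ⁻¹ u) hx1 hxu hxw hex
    have hres := tA h'.swap hcs (Wit.swap h' W1) (Wit.swap h' W2) hQ hS hix
      (by rw [hxx]; exact niu) (by
        rintro ⟨h4, -⟩
        rw [hxx, t'u] at h4
        exact h.dj u u huv htu (by rw [h4]))
    rw [add_comm] at hres
    exact hres

private theorem T5_tB {σ τ : Equiv.Perm V} {R S : Finset V} {θ : V → V} (h : NS σ τ R S θ)
    (ho : ¬ Even (cc σ τ R S)) {p q p' q' : V} (w : Wit σ τ R S θ p q)
    (w' : Wit σ τ R S θ p' q') (hp : p ≠ p') {u : V} (hu : u ∈ R) (su : Inc τ S u)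
    (sv : ¬ Inc τ S (σ u)) : Cov (chi σ + chi τ) 3 := by
  by_cases h1 : Inc τ S (σ (σ u))
  · by_cases hx : θ (σ u) = σ (σ u) ∧ σ (σ (σ u)) = u
    · exact t5 h ho w w' hp hu su sv h1 hx.1 hx.2
    · exact tA h ho w w' hp hu su sv hx
  · exact t1 h ho w w' hp hu su sv h1

theorem toggle {σ τ : Equiv.Perm V} {R S : Finset V} {θ : V → V} (h : NS σ τ R S θ)
    (ho : ¬ Even (cc σ τ R S)) {p q p' q' : V} (w : Wit σ τ R S θ p q)
    (w' : Wit σ τ R S θ p' q') (hp : p ≠ p') : Cov (chi σ + chi τ) 3 := by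
  by_cases hall : ∀ v ∈ R, (Inc τ S v ↔ Inc τ S (σ v))
  · exfalso
    apply ho
    have h1 : (univ.filter fun x => Inc σ R x ∧ Inc τ S x) =
        (R.filter fun x => Inc τ S x) ∪ (R.filter fun x => Inc τ S x).image σ := by
      ext x
      simp only [Finset.mem_filter, Finset.mem_univ, true_and, Finset.mem_union,
        Finset.mem_image]
      constructor
      · rintro ⟨h2 | h2, h3⟩
        · exact Or.inl ⟨h2, h3⟩
        · right
          refine ⟨σ⁻¹ x, ⟨h2, ?_⟩, by simp⟩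
          rw [hall _ h2]
          simpa using h3
      · rintro (⟨h2, h3⟩ | ⟨y, ⟨h2, h3⟩, h4⟩)
        · exact ⟨Or.inl h2, h3⟩
        · subst h4
          exact ⟨Or.inr (by simpa using h2), (hall y h2).1 h3⟩
    have h2 : Disjoint (R.filter fun x => Inc τ S x) ((R.filter fun x => Inc τ S x).image σ) := by
      rw [Finset.disjoint_left]
      intro x hx hx'
      obtain ⟨y, hy, hyx⟩ := Finset.mem_image.1 hx'
      have hyR := (Finset.mem_filter.1 hy).1
      have hxR := (Finset.mem_filter.1 hx).1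
      have hc : σ.SameCycle y x := by
        rw [← hyx]
        exact Equiv.Perm.sameCycle_apply_right.2 (Equiv.Perm.SameCycle.refl _ _)
      have h3 := h.ru y hyR x hxR hc
      rw [← h3] at hyx
      exact h.rm y hyR hyx
    unfold cc
    rw [h1, Finset.card_union_of_disjoint h2, Finset.card_image_of_injective _ σ.injective]
    exact ⟨_, rfl⟩
  · push Not at hall
    obtain ⟨v, hv, hcase⟩ := hall
    rcases hcase with ⟨h1, h2⟩ | ⟨h1, h2⟩
    · exact T5_tB h ho w w' hp hv h1 h2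
    · have hres := T5_tB h.rev (by rw [cc_rev]; exact ho) w.rev w'.rev hp (u := σ v)
        (Finset.mem_image_of_mem _ hv) h2 (by simpa using h1)
      rw [chi_inv] at hres
      exact hres

end Pool.Agent.H.MP_5bc4af.L3
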